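import Mathlib

set_option autoImplicit false

open Filter Topology

namespace Pool.Agent.Helper932.FHC

/-- positive lower density, in counting form -/
def PosLD (A : Set ℕ) : Prop :=
  ∃ δ : ℝ, 0 < δ ∧ ∀ᶠ N : ℕ in atTop, δ * (N : ℝ) ≤ ((A ∩ Set.Iic N).ncard : ℝ)

/-- `j` is active at level `k` for the slot family `A`. -/
def Act (A : ℕ → Set ℕ) (k j : ℕ) : Prop := ∃ i n m : ℕ, n ∈ A i ∧ j = n + m ∧ m + k ≤ i

structure IsSlots (A : ℕ → Set ℕ) : Prop where
  gap : ∀ i i' n n' : ℕ, n ∈ A i → n' ∈ A i' → n < n' → n + 2 ^ (i + 1) ≤ n'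
  uniq : ∀ i i' n : ℕ, n ∈ A i → n ∈ A i' → i = i'
  large : ∀ i n : ℕ, n ∈ A i → 2 * i + 1 ≤ n

/-- (S4): shifts of the active region by an infinite set have small intersections -/
def Mixing (A : ℕ → Set ℕ) : Prop :=
  ∀ J : Set ℕ, J.Infinite → ∀ δ : ℝ, 0 < δ → ∃ F : Finset ℕ, (F : Set ℕ) ⊆ J ∧
    ∃ᶠ N : ℕ in atTop, ((({n : ℕ | ∀ j ∈ F, Act A 0 (n + j)} ∩ Set.Iic N).ncard : ℝ)
      ≤ δ * (N : ℝ))

/-- block length used in epoch `L` -/
def Kb (L : ℕ) : ℕ := Nat.log 2 L + 1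

/-- the `τ`-th slot of epoch `L` is selected -/
def beta (L τ : ℕ) : Prop := Nat.testBit (τ / Kb L) (τ % Kb L) = true

/-- The slots of type `i`. Epoch `L` is `[2^L, 2^(L+1))`; its type is the 2-adic valuation of `L`. -/
def Aslot (i : ℕ) : Set ℕ :=
  {n | ∃ L τ : ℕ, 1 ≤ L ∧ padicValNat 2 L = i ∧ n = 2 ^ L + 2 ^ (i + 1) * τ ∧
    2 ^ (i + 1) * (τ + 1) ≤ 2 ^ L ∧ beta L τ}

theorem Aslot_bounds {i n : ℕ} (h : n ∈ Aslot i) : ∃ L τ : ℕ, 1 ≤ L ∧ padicValNat 2 L = i ∧
    n = 2 ^ L + 2 ^ (i + 1) * τ ∧ 2 ^ L ≤ n ∧ n + 2 ^ (i + 1) ≤ 2 ^ (L + 1) ∧ n < 2 ^ (L + 1) := by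
  obtain ⟨L, τ, h1, h2, h3, h4, _⟩ := h
  have h5 : 0 < 2 ^ (i + 1) := by positivity
  have h6 : 2 ^ (i + 1) * (τ + 1) = 2 ^ (i + 1) * τ + 2 ^ (i + 1) := by ring
  have h7 : 2 ^ (L + 1) = 2 ^ L + 2 ^ L := by ring
  refine ⟨L, τ, h1, h2, h3, ?_, ?_, ?_⟩
  · omega
  · omega
  · omega

theorem Aslot_epoch {i i' n n' L L' : ℕ} (h1 : 2 ^ L' ≤ n') (h2 : n < 2 ^ (L + 1)) (h : n' ≤ n) :
    L' ≤ L := by
  by_contra hcon
  have h3 : L + 1 ≤ L' := by omega
  have h4 : 2 ^ (L + 1) ≤ 2 ^ L' := Nat.pow_le_pow_right (by norm_num) h3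
  omega

theorem isSlots_Aslot : IsSlots Aslot := by
  constructor
  · intro i i' n n' hn hn' hlt
    obtain ⟨L, τ, h1, h2, h3, h4, h5, h6⟩ := Aslot_bounds hn
    obtain ⟨L', τ', k1, k2, k3, k4, k5, k6⟩ := Aslot_bounds hn'
    have hLL : L ≤ L' := Aslot_epoch (i := 0) (i' := 0) h4 k6 hlt.le
    rcases hLL.eq_or_lt with h | h
    · subst h
      have hii : i = i' := by rw [← h2, ← k2]
      subst hii
      have h7 : 0 < 2 ^ (i + 1) := by positivity
      have h8 : 2 ^ (i + 1) * τ < 2 ^ (i + 1) * τ' := by omega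
      have h9 : τ < τ' := Nat.lt_of_mul_lt_mul_left h8
      have h10 : 2 ^ (i + 1) * (τ + 1) ≤ 2 ^ (i + 1) * τ' := Nat.mul_le_mul_left _ h9
      have h11 : 2 ^ (i + 1) * (τ + 1) = 2 ^ (i + 1) * τ + 2 ^ (i + 1) := by ring
      omega
    · have h7 : 2 ^ (L + 1) ≤ 2 ^ L' := Nat.pow_le_pow_right (by norm_num) h
      omega
  · intro i i' n hn hn'
    obtain ⟨L, τ, h1, h2, h3, h4, h5, h6⟩ := Aslot_bounds hn
    obtain ⟨L', τ', k1, k2, k3, k4, k5, k6⟩ := Aslot_bounds hn'
    have e1 : L ≤ L' := Aslot_epoch (i := 0) (i' := 0) h4 k6 le_rfl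
    have e2 : L' ≤ L := Aslot_epoch (i := 0) (i' := 0) k4 h6 le_rfl
    have e3 : L = L' := le_antisymm e1 e2
    rw [← h2, ← k2, e3]
  · intro i n hn
    obtain ⟨L, τ, h1, h2, h3, h4, h5, h6⟩ := Aslot_bounds hn
    have h7 : 2 ^ i ≤ L := by
      rw [← h2]
      exact Nat.le_of_dvd h1 pow_padicValNat_dvd
    have h8 : i < 2 ^ i := Nat.lt_two_pow_self
    have h9 : 2 ^ (i + 1) ≤ 2 ^ L := Nat.pow_le_pow_right (by norm_num) (by omega)
    have h10 : 2 ^ (i + 1) = 2 ^ i + 2 ^ i := by ring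
    omega

-- TARGET
theorem count_bits_split (s : Finset ℕ) (a : ℕ) :
    (∀ x ∈ s, Nat.testBit a x = true) ↔
      ((0 ∈ s → a % 2 = 1) ∧ ∀ x ∈ (s.erase 0).image Nat.pred, Nat.testBit (a / 2) x = true) := by
  constructor
  · intro h
    refine ⟨fun h0 => ?_, ?_⟩
    · have := h 0 h0
      rw [Nat.testBit_zero] at this
      simpa using this
    · intro x hx
      obtain ⟨y, hy, rfl⟩ := Finset.mem_image.1 hx
      obtain ⟨hy0, hys⟩ := Finset.mem_erase.1 hy
      obtain ⟨z, rfl⟩ := Nat.exists_eq_succ_of_ne_zero hy0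
      have := h _ hys
      rwa [Nat.testBit_succ] at this
  · rintro ⟨h0, h1⟩ x hx
    rcases Nat.eq_zero_or_pos x with rfl | hpos
    · rw [Nat.testBit_zero]
      simpa using h0 hx
    · obtain ⟨z, rfl⟩ := Nat.exists_eq_succ_of_ne_zero hpos.ne'
      rw [Nat.testBit_succ]
      exact h1 z (Finset.mem_image.2 ⟨z + 1, Finset.mem_erase.2 ⟨by omega, hx⟩, rfl⟩)

theorem count_bits_card (s : Finset ℕ) :
    ((s.erase 0).image Nat.pred).card = (s.erase 0).card := by
  apply Finset.card_image_of_injOn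
  intro x hx y hy hxy
  have h1 := Finset.ne_of_mem_erase hx
  have h2 := Finset.ne_of_mem_erase hy
  simp only [Nat.pred_eq_sub_one] at hxy
  omega

/-- digits of a counter: number of `a < B` having all the bits in `s` set. -/
theorem count_bits (K B : ℕ) (s : Finset ℕ) (hs : ∀ x ∈ s, x < K) :
    (((Finset.range B).filter (fun a => ∀ x ∈ s, Nat.testBit a x = true)).card : ℝ)
      ≤ (B : ℝ) / 2 ^ s.card + 2 ^ K := by
  induction K generalizing B s with
  | zero =>
    have h0 : s = ∅ := Finset.eq_empty_of_forall_notMem fun x hx => by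
      have := hs x hx
      omega
    subst h0
    simp
  | succ K ih =>
    set s' := (s.erase 0).image Nat.pred with hs'
    have hs'K : ∀ x ∈ s', x < K := by
      intro x hx
      obtain ⟨y, hy, rfl⟩ := Finset.mem_image.1 hx
      obtain ⟨hy0, hys⟩ := Finset.mem_erase.1 hy
      have := hs y hys
      simp only [Nat.pred_eq_sub_one]
      omega
    have hodd : (((Finset.range B).filter (fun a => ∀ x ∈ s, Nat.testBit a x = true)).filter
        (fun a => a % 2 = 1)).card ≤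
        ((Finset.range (B / 2)).filter (fun a => ∀ x ∈ s', Nat.testBit a x = true)).card := by
      apply Finset.card_le_card_of_injOn (fun a => a / 2)
      · intro a ha
        rw [Finset.mem_coe, Finset.mem_filter, Finset.mem_filter, Finset.mem_range] at ha
        rw [Finset.mem_coe, Finset.mem_filter, Finset.mem_range]
        refine ⟨?_, ((count_bits_split s a).1 ha.1.2).2⟩
        show a / 2 < B / 2
        omega
      · intro a ha b hb hab
        rw [Finset.mem_coe, Finset.mem_filter] at ha hb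
        simp only at hab
        omega
    by_cases h0 : 0 ∈ s
    · have h1 : ((Finset.range B).filter (fun a => ∀ x ∈ s, Nat.testBit a x = true)) =
          ((Finset.range B).filter (fun a => ∀ x ∈ s, Nat.testBit a x = true)).filter
          (fun a => a % 2 = 1) := by
        symm
        apply Finset.filter_true_of_mem
        intro a ha
        exact ((count_bits_split s a).1 (Finset.mem_filter.1 ha).2).1 h0
      have h2 : s.card = s'.card + 1 := by
        rw [hs', count_bits_card, Finset.card_erase_add_one h0]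
      have h3 := ih (B / 2) s' hs'K
      rw [h1]
      calc _ ≤ (((Finset.range (B / 2)).filter
            (fun a => ∀ x ∈ s', Nat.testBit a x = true)).card : ℝ) := by exact_mod_cast hodd
        _ ≤ ((B / 2 : ℕ) : ℝ) / 2 ^ s'.card + 2 ^ K := h3
        _ ≤ ((B : ℝ) / 2) / 2 ^ s'.card + 2 ^ (K + 1) := by
            have h4 : ((B / 2 : ℕ) : ℝ) ≤ (B : ℝ) / 2 := by
              have := Nat.cast_div_le (α := ℝ) (m := B) (n := 2)
              simpa using this
            have h5 : (2 : ℝ) ^ K ≤ 2 ^ (K + 1) := by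
              rw [pow_succ]
              have : (0 : ℝ) < 2 ^ K := by positivity
              linarith
            gcongr
        _ = _ := by
            rw [h2, pow_succ, div_div]
            congr 2
            ring
    · have h2 : s.card = s'.card := by
        rw [hs', count_bits_card, Finset.erase_eq_of_notMem h0]
      have heven : (((Finset.range B).filter (fun a => ∀ x ∈ s, Nat.testBit a x = true)).filter
          (fun a => ¬ a % 2 = 1)).card ≤
          ((Finset.range ((B + 1) / 2)).filter (fun a => ∀ x ∈ s', Nat.testBit a x = true)).card := by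
        apply Finset.card_le_card_of_injOn (fun a => a / 2)
        · intro a ha
          rw [Finset.mem_coe, Finset.mem_filter, Finset.mem_filter, Finset.mem_range] at ha
          rw [Finset.mem_coe, Finset.mem_filter, Finset.mem_range]
          refine ⟨?_, ((count_bits_split s a).1 ha.1.2).2⟩
          show a / 2 < (B + 1) / 2
          omega
        · intro a ha b hb hab
          rw [Finset.mem_coe, Finset.mem_filter] at ha hb
          simp only at hab
          omega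
      have h3 := ih (B / 2) s' hs'K
      have h4 := ih ((B + 1) / 2) s' hs'K
      have h5 := Finset.card_filter_add_card_filter_not
        (s := (Finset.range B).filter (fun a => ∀ x ∈ s, Nat.testBit a x = true))
        (fun a => a % 2 = 1)
      have h6 : ((B / 2 : ℕ) : ℝ) + (((B + 1) / 2 : ℕ) : ℝ) = B := by
        have : B / 2 + (B + 1) / 2 = B := by omega
        exact_mod_cast this
      calc _ ≤ (((Finset.range (B / 2)).filter
              (fun a => ∀ x ∈ s', Nat.testBit a x = true)).card : ℝ) +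
            ((Finset.range ((B + 1) / 2)).filter
              (fun a => ∀ x ∈ s', Nat.testBit a x = true)).card := by
            rw [← h5]
            push_cast
            exact add_le_add (by exact_mod_cast hodd) (by exact_mod_cast heven)
        _ ≤ (((B / 2 : ℕ) : ℝ) / 2 ^ s'.card + 2 ^ K) +
            ((((B + 1) / 2 : ℕ) : ℝ) / 2 ^ s'.card + 2 ^ K) := add_le_add h3 h4
        _ = (((B / 2 : ℕ) : ℝ) + (((B + 1) / 2 : ℕ) : ℝ)) / 2 ^ s'.card + 2 ^ (K + 1) := by ring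
        _ = _ := by rw [h6, h2]

theorem count_patterns (K D M : ℕ) (hD : D < K) (d : Finset ℕ) (hd : ∀ x ∈ d, x ≤ D) :
    (((Finset.range M).filter
      (fun τ => ∀ x ∈ d, Nat.testBit ((τ + x) / K) ((τ + x) % K) = true)).card : ℝ)
      ≤ (M : ℝ) / 2 ^ d.card + K * 2 ^ K + ((M : ℝ) / K + 1) * D + K := by
  have hK : 0 < K := by omega
  obtain ⟨S, hS⟩ : ∃ S, S = (Finset.range M).filter
      (fun τ => ∀ x ∈ d, Nat.testBit ((τ + x) / K) ((τ + x) % K) = true) := ⟨_, rfl⟩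
  rw [← hS]
  have hmS : ∀ τ ∈ S, τ < M ∧ ∀ x ∈ d, Nat.testBit ((τ + x) / K) ((τ + x) % K) = true := by
    intro τ hτ
    rw [hS, Finset.mem_filter, Finset.mem_range] at hτ
    exact hτ
  clear hS
  have hcard : S.card = ∑ o ∈ Finset.range K, (S.filter (fun τ => τ % K = o)).card :=
    Finset.card_eq_sum_card_fiberwise
      (fun τ _ => Finset.mem_coe.2 (Finset.mem_range.2 (Nat.mod_lt _ hK)))
  have hinj : ∀ o, Set.InjOn (fun τ => τ / K) (S.filter (fun τ => τ % K = o) : Set ℕ) := by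
    intro o a ha b hb hab
    have ha' := (Finset.mem_filter.1 (Finset.mem_coe.1 ha)).2
    have hb' := (Finset.mem_filter.1 (Finset.mem_coe.1 hb)).2
    have hab' : a / K = b / K := hab
    rw [← Nat.div_add_mod a K, ← Nat.div_add_mod b K, ha', hb', hab']
  have h1 : ∀ o, o + D < K → ((S.filter (fun τ => τ % K = o)).card : ℝ) ≤
      ((M / K + 1 : ℕ) : ℝ) / 2 ^ d.card + 2 ^ K := by
    intro o ho
    have e : (d.image (fun x => o + x)).card = d.card :=
      Finset.card_image_of_injective _ (add_right_injective o)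
    have hc := count_bits K (M / K + 1) (d.image (fun x => o + x)) (by
      intro x hx
      obtain ⟨y, hy, rfl⟩ := Finset.mem_image.1 hx
      have := hd y hy
      omega)
    rw [e] at hc
    refine le_trans ?_ hc
    refine Nat.cast_le.2 (Finset.card_le_card_of_injOn (fun τ => τ / K) ?_ (hinj o))
    intro τ hτ
    obtain ⟨hτ1, hτ2⟩ := Finset.mem_filter.1 (Finset.mem_coe.1 hτ)
    obtain ⟨hτ3, hτ4⟩ := hmS τ hτ1
    refine Finset.mem_coe.2 (Finset.mem_filter.2 ⟨Finset.mem_range.2 ?_, ?_⟩)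
    · exact Nat.lt_succ_of_le (Nat.div_le_div_right hτ3.le)
    · intro x hx
      obtain ⟨y, hy, rfl⟩ := Finset.mem_image.1 hx
      have hyD := hd y hy
      have h5 := hτ4 y hy
      have h6 : τ + y = K * (τ / K) + (o + y) := by
        have := Nat.div_add_mod τ K
        rw [hτ2] at this
        omega
      have h7 : (τ + y) / K = τ / K := by
        conv_lhs => rw [h6]
        rw [Nat.mul_add_div hK, Nat.div_eq_of_lt (show o + y < K by omega)]
        rfl
      have h8 : (τ + y) % K = o + y := by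
        conv_lhs => rw [h6]
        rw [Nat.mul_add_mod, Nat.mod_eq_of_lt (show o + y < K by omega)]
      rw [h7, h8] at h5
      exact h5
  have h2 : ∀ o, ((S.filter (fun τ => τ % K = o)).card : ℝ) ≤ ((M / K + 1 : ℕ) : ℝ) := by
    intro o
    have h3 := Finset.card_le_card_of_injOn (t := Finset.range (M / K + 1)) (fun τ => τ / K)
      (s := S.filter (fun τ => τ % K = o)) (by
        intro τ hτ
        obtain ⟨hτ1, hτ2⟩ := Finset.mem_filter.1 (Finset.mem_coe.1 hτ)
        obtain ⟨hτ3, hτ4⟩ := hmS τ hτ1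
        exact Finset.mem_coe.2 (Finset.mem_range.2 (Nat.lt_succ_of_le (Nat.div_le_div_right hτ3.le))))
      (hinj o)
    rw [Finset.card_range] at h3
    exact_mod_cast h3
  have h3 : (S.card : ℝ) ≤ ((K - D : ℕ) : ℝ) * (((M / K + 1 : ℕ) : ℝ) / 2 ^ d.card + 2 ^ K) +
      (D : ℝ) * ((M / K + 1 : ℕ) : ℝ) := by
    have e : K = (K - D) + D := by omega
    have h4 : (S.card : ℝ) = ∑ o ∈ Finset.range ((K - D) + D), ((S.filter (fun τ => τ % K = o)).card : ℝ) := by
      rw [← e, hcard]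
      push_cast
      rfl
    rw [h4, Finset.sum_range_add]
    refine add_le_add ?_ ?_
    · calc _ ≤ ∑ o ∈ Finset.range (K - D), (((M / K + 1 : ℕ) : ℝ) / 2 ^ d.card + 2 ^ K) :=
            Finset.sum_le_sum (fun o ho => h1 o (by have := Finset.mem_range.1 ho; omega))
        _ = _ := by rw [Finset.sum_const, Finset.card_range, nsmul_eq_mul]
    · calc _ ≤ ∑ o ∈ Finset.range D, ((M / K + 1 : ℕ) : ℝ) :=
            Finset.sum_le_sum (fun o _ => h2 _)
        _ = _ := by rw [Finset.sum_const, Finset.card_range, nsmul_eq_mul]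
  have hB : ((M / K + 1 : ℕ) : ℝ) ≤ (M : ℝ) / K + 1 := by
    push_cast
    have := @Nat.cast_div_le ℝ _ _ _ M K
    linarith
  have hKB : (K : ℝ) * ((M / K + 1 : ℕ) : ℝ) ≤ M + K := by
    have : K * (M / K + 1) ≤ M + K := by
      have := Nat.mul_div_le M K
      rw [Nat.mul_add]
      omega
    exact_mod_cast this
  have hp : (1 : ℝ) ≤ 2 ^ d.card := one_le_pow₀ (by norm_num)
  have hB0 : (0 : ℝ) ≤ ((M / K + 1 : ℕ) : ℝ) := Nat.cast_nonneg _
  have hKD : ((K - D : ℕ) : ℝ) ≤ K := by exact_mod_cast Nat.sub_le K D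
  have h5 : ((K - D : ℕ) : ℝ) * (((M / K + 1 : ℕ) : ℝ) / 2 ^ d.card + 2 ^ K) ≤
      (M : ℝ) / 2 ^ d.card + K + K * 2 ^ K := by
    calc _ ≤ (K : ℝ) * (((M / K + 1 : ℕ) : ℝ) / 2 ^ d.card + 2 ^ K) :=
          mul_le_mul_of_nonneg_right hKD (by positivity)
      _ = ((K : ℝ) * ((M / K + 1 : ℕ) : ℝ)) / 2 ^ d.card + K * 2 ^ K := by ring
      _ ≤ ((M : ℝ) + K) / 2 ^ d.card + K * 2 ^ K := by gcongr
      _ = (M : ℝ) / 2 ^ d.card + K / 2 ^ d.card + K * 2 ^ K := by ring
      _ ≤ _ := by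
        have : (K : ℝ) / 2 ^ d.card ≤ K := div_le_self (Nat.cast_nonneg _) hp
        linarith
  have h6 : (D : ℝ) * ((M / K + 1 : ℕ) : ℝ) ≤ ((M : ℝ) / K + 1) * D := by
    rw [mul_comm]
    exact mul_le_mul_of_nonneg_right hB (Nat.cast_nonneg _)
  linarith

theorem half_count (B o : ℕ) :
    B ≤ 2 * ((Finset.range B).filter (fun a => Nat.testBit a o = true)).card + 2 ^ o := by
  classical
  have h1 : ((Finset.range B).filter (fun a => Nat.testBit a o = true)).card +
      ((Finset.range B).filter (fun a => ¬ (Nat.testBit a o = true))).card = B := by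
    rw [Finset.card_filter_add_card_filter_not]
    simp
  have h2 : ((Finset.range B).filter (fun a => ¬ (Nat.testBit a o = true))).card ≤
      ((Finset.range B).filter (fun a => Nat.testBit a o = true)).card + 2 ^ o := by
    have h3 : ((Finset.range B).filter (fun a => ¬ (Nat.testBit a o = true))).card ≤
        ((Finset.range B).filter (fun a => Nat.testBit a o = true) ∪
          Finset.Ico B (B + 2 ^ o)).card := by
      apply Finset.card_le_card_of_injOn (fun a => a + 2 ^ o)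
      · intro a ha
        simp only [Finset.coe_filter, Finset.mem_range, Set.mem_setOf_eq] at ha
        simp only [Finset.coe_union, Finset.coe_filter, Finset.mem_range, Set.mem_union,
          Set.mem_setOf_eq, Finset.coe_Ico, Set.mem_Ico]
        by_cases hlt : a + 2 ^ o < B
        · left
          refine ⟨hlt, ?_⟩
          rw [add_comm, Nat.testBit_two_pow_add_eq]
          simpa using ha.2
        · right
          constructor
          · omega
          · have := ha.1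
            omega
      · intro a _ b _ hab
        simpa using hab
    refine h3.trans ((Finset.card_union_le _ _).trans ?_)
    simp
  omega

theorem count_ones (K M : ℕ) (hK : 0 < K) :
    (M : ℝ) / 2 - K - K * 2 ^ K ≤
      (((Finset.range M).filter
        (fun τ => Nat.testBit (τ / K) (τ % K) = true)).card : ℝ) := by
  classical
  set B := M / K with hB
  have h1 : ∑ o ∈ Finset.range K,
      ((Finset.range B).filter (fun a => Nat.testBit a o = true)).card ≤
      ((Finset.range M).filter (fun τ => Nat.testBit (τ / K) (τ % K) = true)).card := by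
    rw [← Finset.card_sigma]
    apply Finset.card_le_card_of_injOn (fun p : (Σ _ : ℕ, ℕ) => p.2 * K + p.1)
    · rintro ⟨o, a⟩ h
      simp only [Finset.coe_sigma, Set.mem_sigma_iff, Finset.coe_range, Set.mem_Iio,
        Finset.coe_filter, Finset.mem_range, Set.mem_setOf_eq] at h ⊢
      obtain ⟨ho, ha, hb⟩ := h
      have e1 : (a * K + o) / K = a := by
        rw [mul_comm, Nat.mul_add_div hK, Nat.div_eq_of_lt ho, add_zero]
      have e2 : (a * K + o) % K = o := by
        rw [mul_comm, Nat.mul_add_mod, Nat.mod_eq_of_lt ho]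
      refine ⟨?_, ?_⟩
      · have : (a + 1) * K ≤ M := by
          calc (a + 1) * K ≤ B * K := Nat.mul_le_mul_right _ ha
            _ ≤ M := Nat.div_mul_le_self M K
        have h3 : (a + 1) * K = a * K + K := by ring
        omega
      · rw [e1, e2]; exact hb
    · rintro ⟨o, a⟩ h ⟨o', a'⟩ h' heq
      simp only [Finset.coe_sigma, Set.mem_sigma_iff, Finset.coe_range, Set.mem_Iio,
        Finset.coe_filter, Finset.mem_range, Set.mem_setOf_eq] at h h' heq
      have e1 : (a * K + o) / K = a := by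
        rw [mul_comm, Nat.mul_add_div hK, Nat.div_eq_of_lt h.1, add_zero]
      have e2 : (a * K + o) % K = o := by
        rw [mul_comm, Nat.mul_add_mod, Nat.mod_eq_of_lt h.1]
      have e1' : (a' * K + o') / K = a' := by
        rw [mul_comm, Nat.mul_add_div hK, Nat.div_eq_of_lt h'.1, add_zero]
      have e2' : (a' * K + o') % K = o' := by
        rw [mul_comm, Nat.mul_add_mod, Nat.mod_eq_of_lt h'.1]
      rw [heq, e1'] at e1
      rw [heq, e2'] at e2
      subst e1 e2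
      rfl
  have h2 : K * B ≤ 2 * ((Finset.range M).filter
      (fun τ => Nat.testBit (τ / K) (τ % K) = true)).card + 2 ^ K := by
    have h3 : ∑ o ∈ Finset.range K, B ≤ ∑ o ∈ Finset.range K,
        (2 * ((Finset.range B).filter (fun a => Nat.testBit a o = true)).card + 2 ^ o) :=
      Finset.sum_le_sum (fun o _ => half_count B o)
    rw [Finset.sum_const, Finset.card_range, smul_eq_mul, Finset.sum_add_distrib,
      ← Finset.mul_sum] at h3
    have h4 : ∑ o ∈ Finset.range K, 2 ^ o ≤ 2 ^ K := by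
      have := Nat.geomSum_lt (m := 2) (n := K) (s := Finset.range K) le_rfl
        (fun k hk => Finset.mem_range.mp hk)
      exact this.le
    omega
  have h5 : M ≤ K * B + K := by
    have := Nat.div_add_mod M K
    have h6 := Nat.mod_lt M hK
    rw [← hB] at this
    omega
  have h7 : (M : ℝ) ≤ 2 * (((Finset.range M).filter
      (fun τ => Nat.testBit (τ / K) (τ % K) = true)).card : ℝ) + 2 ^ K + K := by
    have : M ≤ 2 * ((Finset.range M).filter
      (fun τ => Nat.testBit (τ / K) (τ % K) = true)).card + 2 ^ K + K := by omega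
    exact_mod_cast this
  have hK1 : (1 : ℝ) ≤ K := by exact_mod_cast hK
  have h8 : (2 : ℝ) ^ K ≤ K * 2 ^ K := by
    have : (0 : ℝ) < 2 ^ K := by positivity
    nlinarith
  have h9 : (0 : ℝ) ≤ 2 ^ K := by positivity
  linarith

/-- the number of slots in one epoch -/
theorem posLD_epoch (i L : ℕ) (hL : 1 ≤ L) (hv : padicValNat 2 L = i) (hi : i + 1 ≤ L)
    (hbig : 12 * 2 ^ (i + 1) * (L : ℝ) ^ 2 ≤ 2 ^ L) (N : ℕ) (hN : 2 ^ (L + 1) ≤ N + 1) :
    (2 : ℝ) ^ L / (4 * 2 ^ (i + 1)) ≤ ((Aslot i ∩ Set.Iic N).ncard : ℝ) := by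
  classical
  set M : ℕ := 2 ^ (L - (i + 1)) with hM
  set K : ℕ := Kb L with hK
  have hKpos : 0 < K := Nat.succ_pos _
  have hMmul : 2 ^ (i + 1) * M = 2 ^ L := by
    rw [hM, ← pow_add]
    congr 1
    omega
  have hMmulR : (2 : ℝ) ^ (i + 1) * (M : ℝ) = 2 ^ L := by exact_mod_cast hMmul
  set S : Finset ℕ := (Finset.range M).filter (fun τ => Nat.testBit (τ / K) (τ % K) = true) with hS
  have hcnt := count_ones K M hKpos
  have h2K : 2 ^ K ≤ 2 * L := by
    rw [hK, Kb, pow_succ]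
    have := Nat.pow_log_le_self 2 (x := L) (by omega)
    omega
  have hKL : K ≤ L := by
    have := Nat.log_lt_self 2 (x := L) (by omega)
    rw [hK, Kb]
    omega
  have h2KR : (2 : ℝ) ^ K ≤ 2 * (L : ℝ) := by exact_mod_cast h2K
  have hKLR : (K : ℝ) ≤ (L : ℝ) := by exact_mod_cast hKL
  have hLR : (1 : ℝ) ≤ (L : ℝ) := by exact_mod_cast hL
  have hcard : (2 : ℝ) ^ L / (4 * 2 ^ (i + 1)) ≤ (S.card : ℝ) := by
    refine le_trans ?_ hcnt
    have h1 : (2 : ℝ) ^ L / (4 * 2 ^ (i + 1)) = (M : ℝ) / 4 := by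
      rw [← hMmulR]
      field_simp
    rw [h1]
    have h2 : (K : ℝ) * 2 ^ K ≤ (L : ℝ) * (2 * L) :=
      mul_le_mul hKLR h2KR (by positivity) (by positivity)
    have h3 : 12 * (L : ℝ) ^ 2 ≤ (M : ℝ) := by
      have h4 : (0 : ℝ) < 2 ^ (i + 1) := by positivity
      have h5 : (2 : ℝ) ^ (i + 1) * (12 * (L : ℝ) ^ 2) ≤ 2 ^ (i + 1) * (M : ℝ) := by
        rw [hMmulR]
        calc (2 : ℝ) ^ (i + 1) * (12 * (L : ℝ) ^ 2) = 12 * 2 ^ (i + 1) * (L : ℝ) ^ 2 := by ring
          _ ≤ _ := hbig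
      exact le_of_mul_le_mul_left h5 h4
    nlinarith
  refine hcard.trans ?_
  have hinj : Function.Injective (fun τ : ℕ => 2 ^ L + 2 ^ (i + 1) * τ) := by
    intro a b hab
    have h1 : 2 ^ (i + 1) * a = 2 ^ (i + 1) * b := Nat.add_left_cancel hab
    exact Nat.eq_of_mul_eq_mul_left (by positivity) h1
  have hsub : ((S.image (fun τ : ℕ => 2 ^ L + 2 ^ (i + 1) * τ) : Finset ℕ) : Set ℕ) ⊆
      Aslot i ∩ Set.Iic N := by
    intro n hn
    rw [Finset.mem_coe, Finset.mem_image] at hn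
    obtain ⟨τ, hτ, rfl⟩ := hn
    rw [hS, Finset.mem_filter, Finset.mem_range] at hτ
    have h1 : 2 ^ (i + 1) * (τ + 1) ≤ 2 ^ L := by
      rw [← hMmul]
      exact Nat.mul_le_mul_left _ hτ.1
    refine ⟨⟨L, τ, hL, hv, rfl, h1, hτ.2⟩, ?_⟩
    rw [Set.mem_Iic]
    have h2 : 2 ^ (L + 1) = 2 ^ L + 2 ^ L := by ring
    have h3 : 0 < 2 ^ (i + 1) := by positivity
    have h4 : 2 ^ (i + 1) * (τ + 1) = 2 ^ (i + 1) * τ + 2 ^ (i + 1) := by ring
    show 2 ^ L + 2 ^ (i + 1) * τ ≤ N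
    omega
  have h5 := Set.ncard_le_ncard hsub ((Set.finite_Iic N).subset Set.inter_subset_right)
  rw [Set.ncard_coe_finset, Finset.card_image_of_injective _ hinj] at h5
  exact_mod_cast h5

theorem eventually_big (i : ℕ) : ∃ L0 : ℕ, ∀ L ≥ L0, 12 * 2 ^ (i + 1) * (L : ℝ) ^ 2 ≤ 2 ^ L := by
  have h1 := tendsto_pow_const_div_const_pow_of_one_lt 2 (one_lt_two : (1 : ℝ) < 2)
  have h2 : (0 : ℝ) < 1 / (12 * 2 ^ (i + 1)) := by positivity
  have h3 := h1.eventually (gt_mem_nhds h2)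
  rw [eventually_atTop] at h3
  obtain ⟨L0, hL0⟩ := h3
  refine ⟨L0, fun L hL => ?_⟩
  have h4 := hL0 L hL
  rw [div_lt_div_iff₀ (by positivity) (by positivity), one_mul] at h4
  linarith

theorem posLD_Aslot (i : ℕ) : PosLD (Aslot i) := by
  obtain ⟨L0, hL0⟩ := eventually_big i
  refine ⟨1 / (4 * 2 ^ (i + 1) * 2 ^ (2 ^ (i + 1) + 1)), by positivity, ?_⟩
  rw [eventually_atTop]
  refine ⟨2 ^ (L0 + 2 ^ (i + 1) + 2 ^ i + i + 2), fun N hN => ?_⟩
  set q : ℕ := Nat.log 2 (N + 1) with hq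
  have hq1 : 2 ^ q ≤ N + 1 := Nat.pow_log_le_self 2 (by omega)
  have hq2 : N + 1 < 2 ^ (q + 1) := Nat.lt_pow_succ_log_self one_lt_two (N + 1)
  have hq3 : L0 + 2 ^ (i + 1) + 2 ^ i + i + 2 ≤ q := by
    rw [hq]
    apply Nat.le_log_of_pow_le one_lt_two
    omega
  set t : ℕ := (q - 1 - 2 ^ i) / 2 ^ (i + 1) with ht
  set L : ℕ := 2 ^ i * (2 * t + 1) with hL
  have hpos : 0 < 2 ^ (i + 1) := by positivity
  have hdm := Nat.div_add_mod (q - 1 - 2 ^ i) (2 ^ (i + 1))
  have hml := Nat.mod_lt (q - 1 - 2 ^ i) hpos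
  rw [← ht] at hdm
  have hLe : L = 2 ^ (i + 1) * t + 2 ^ i := by rw [hL, pow_succ]; ring
  have hLq : L + 1 ≤ q := by omega
  have hqL : q ≤ L + 2 ^ (i + 1) := by omega
  have hLpos : 1 ≤ L := by
    have : 0 < 2 ^ i := by positivity
    omega
  have hLi : i + 1 ≤ L := by omega
  have hLL0 : L0 ≤ L := by omega
  have hv : padicValNat 2 L = i := by
    rw [hL, padicValNat.mul (by positivity) (by omega), padicValNat.prime_pow,
      padicValNat.eq_zero_of_not_dvd (by omega), add_zero]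
  have hmain := posLD_epoch i L hLpos hv hLi (hL0 L hLL0) N
    ((Nat.pow_le_pow_right (by norm_num) hLq).trans hq1)
  refine le_trans ?_ hmain
  have hN2 : (N : ℝ) ≤ 2 ^ L * 2 ^ (2 ^ (i + 1) + 1) := by
    have h1 : N ≤ 2 ^ (L + (2 ^ (i + 1) + 1)) := by
      have : 2 ^ (q + 1) ≤ 2 ^ (L + (2 ^ (i + 1) + 1)) :=
        Nat.pow_le_pow_right (by norm_num) (by omega)
      omega
    rw [pow_add] at h1
    exact_mod_cast h1
  calc 1 / (4 * 2 ^ (i + 1) * 2 ^ (2 ^ (i + 1) + 1)) * (N : ℝ)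
      ≤ 1 / (4 * 2 ^ (i + 1) * 2 ^ (2 ^ (i + 1) + 1)) * (2 ^ L * 2 ^ (2 ^ (i + 1) + 1)) :=
        mul_le_mul_of_nonneg_left hN2 (by positivity)
    _ = (2 : ℝ) ^ L / (4 * 2 ^ (i + 1)) := by field_simp

theorem ec_key (i L n j : ℕ) (hL : padicValNat 2 L = i) (h1 : 2 ^ L ≤ n)
    (h2 : n + j < 2 ^ (L + 1)) (hA : Act Aslot 0 (n + j)) :
    beta L ((n - 2 ^ L) / 2 ^ (i + 1) + ((n - 2 ^ L) % 2 ^ (i + 1) + j) / 2 ^ (i + 1)) := by
  obtain ⟨i', n', m', hn', hnj, hm'⟩ := hA
  obtain ⟨L', τ, hL'1, hL'v, hn'e, hle, hb⟩ := hn'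
  have hlt : m' < 2 ^ (i' + 1) := by
    have : i' + 1 < 2 ^ (i' + 1) := Nat.lt_two_pow_self
    omega
  have hub : n + j < 2 ^ (L' + 1) := by
    have e1 : 2 ^ (i' + 1) * (τ + 1) = 2 ^ (i' + 1) * τ + 2 ^ (i' + 1) := by ring
    have e2 : 2 ^ (L' + 1) = 2 ^ L' + 2 ^ L' := by ring
    omega
  have hlb : 2 ^ L' ≤ n + j := by
    have := Nat.zero_le (2 ^ (i' + 1) * τ)
    omega
  have hLL : L = L' := by
    have e1 : Nat.log 2 (n + j) = L :=
      Nat.log_eq_of_pow_le_of_lt_pow (h1.trans (Nat.le_add_right _ _)) h2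
    have e2 : Nat.log 2 (n + j) = L' := Nat.log_eq_of_pow_le_of_lt_pow hlb hub
    omega
  subst hLL
  have hii : i' = i := by rw [← hL'v, hL]
  subst hii
  have hQ : 0 < 2 ^ (i' + 1) := by positivity
  have e : (n - 2 ^ L) / 2 ^ (i' + 1) + ((n - 2 ^ L) % 2 ^ (i' + 1) + j) / 2 ^ (i' + 1) =
      (n - 2 ^ L + j) / 2 ^ (i' + 1) := by
    conv_rhs => rw [← Nat.div_add_mod (n - 2 ^ L) (2 ^ (i' + 1))]
    rw [add_assoc, Nat.mul_add_div hQ]
  have e3 : n - 2 ^ L + j = 2 ^ (i' + 1) * τ + m' := by omega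
  rw [e, e3, Nat.mul_add_div hQ, Nat.div_eq_of_lt hlt, add_zero]
  exact hb

theorem ec_Kb_le (L : ℕ) (hL : 1 ≤ L) : Kb L ≤ L ∧ 2 ^ Kb L ≤ 2 * L := by
  unfold Kb
  constructor
  · have := Nat.log_lt_self 2 (x := L) (by omega)
    omega
  · rw [pow_succ]
    have := Nat.pow_log_le_self 2 (x := L) (by omega)
    omega

/-- In an epoch of type `i`, the proportion of `n` with `n + j` active for all `j ∈ F` is at most
`2^{-|F|} + o(1)` if the gaps of `F` are at least `2^{i+1}`. -/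
theorem epoch_count (i : ℕ) (F : Finset ℕ)
    (hF : ∀ x ∈ F, ∀ y ∈ F, x < y → x + 2 ^ (i + 1) ≤ y) (ε : ℝ) (hε : 0 < ε) :
    ∀ᶠ L : ℕ in atTop, padicValNat 2 L = i →
      ((({n : ℕ | ∀ j ∈ F, Act Aslot 0 (n + j)} ∩ Set.Ico (2 ^ L) (2 ^ (L + 1))).ncard : ℝ)
        ≤ (1 / 2 ^ F.card + ε) * 2 ^ L) := by
  classical
  set Q : ℕ := 2 ^ (i + 1) with hQd
  set m : ℕ := F.sup id with hmd
  set D : ℕ := Q + m with hDd
  have hQ : 0 < Q := by positivity
  have hm : ∀ j ∈ F, j ≤ m := fun j hj => Finset.le_sup (f := id) hj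
  -- the error terms
  have ev1 : ∀ᶠ L : ℕ in atTop, ((m : ℝ) + Q * D) + Q * L + 2 * Q * (L : ℝ) ^ 2 ≤
      ε / 2 * 2 ^ L := by
    have t0 := tendsto_pow_const_div_const_pow_of_one_lt 0 (one_lt_two : (1 : ℝ) < 2)
    have t1 := tendsto_pow_const_div_const_pow_of_one_lt 1 (one_lt_two : (1 : ℝ) < 2)
    have t2 := tendsto_pow_const_div_const_pow_of_one_lt 2 (one_lt_two : (1 : ℝ) < 2)
    have t := ((t0.const_mul ((m : ℝ) + Q * D)).add (t1.const_mul (Q : ℝ))).add
      (t2.const_mul (2 * Q : ℝ))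
    simp only [mul_zero, add_zero] at t
    have h := t.eventually_lt_const (half_pos hε)
    filter_upwards [h] with L hL
    have hp : (0 : ℝ) < 2 ^ L := by positivity
    have e : ((m : ℝ) + Q * D) * ((L : ℝ) ^ 0 / 2 ^ L) + Q * ((L : ℝ) ^ 1 / 2 ^ L) +
        2 * Q * ((L : ℝ) ^ 2 / 2 ^ L) =
        (((m : ℝ) + Q * D) + Q * L + 2 * Q * (L : ℝ) ^ 2) / 2 ^ L := by
      field_simp
    rw [e, div_lt_iff₀ hp] at hL
    exact hL.le
  obtain ⟨N0, hN0⟩ := exists_nat_gt ((D : ℝ) / (ε / 2))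
  have ev2 : ∀ᶠ L : ℕ in atTop, max N0 (D + 1) ≤ Kb L := by
    filter_upwards [eventually_ge_atTop (2 ^ max N0 (D + 1))] with L hL
    unfold Kb
    have := Nat.le_log_of_pow_le (by norm_num : 1 < 2) hL
    omega
  filter_upwards [eventually_ge_atTop (i + 1), ev1, ev2] with L hLi h1 h2 hval
  set K : ℕ := Kb L with hKd
  have hDK : D < K := by
    have := le_max_right N0 (D + 1)
    omega
  have hKN : N0 ≤ K := (le_max_left _ _).trans h2
  have hK0 : 0 < K := by omega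
  obtain ⟨hKL, hKL2⟩ := ec_Kb_le L (by omega)
  set M : ℕ := 2 ^ (L - (i + 1)) with hMd
  have hQM : Q * M = 2 ^ L := by
    rw [hQd, hMd, ← pow_add]
    congr 1
    omega
  let d : ℕ → Finset ℕ := fun c => F.image (fun j => (c + j) / Q)
  let T : ℕ → Finset ℕ := fun c => (Finset.range M).filter
    (fun τ => ∀ x ∈ d c, Nat.testBit ((τ + x) / K) ((τ + x) % K) = true)
  have hdcard : ∀ c, (d c).card = F.card := by
    intro c
    apply Finset.card_image_of_injOn
    have hlt : ∀ x ∈ F, ∀ y ∈ F, x < y → (c + x) / Q < (c + y) / Q := by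
      intro x hx y hy hxy
      have h3 := hF x hx y hy hxy
      have h4 : (c + x) / Q + 1 = (c + x + Q) / Q := (Nat.add_div_right _ hQ).symm
      have h5 : (c + x + Q) / Q ≤ (c + y) / Q := Nat.div_le_div_right (by omega)
      omega
    intro x hx y hy hxy
    simp only at hxy
    rcases lt_trichotomy x y with h | h | h
    · have := hlt x hx y hy h; omega
    · exact h
    · have := hlt y hy x hx h; omega
  have hdle : ∀ c < Q, ∀ x ∈ d c, x ≤ D := by
    intro c hc x hx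
    obtain ⟨j, hj, rfl⟩ := Finset.mem_image.mp hx
    have h3 := hm j hj
    have h4 : (c + j) / Q ≤ c + j := Nat.div_le_self _ _
    omega
  have hsub : ({n : ℕ | ∀ j ∈ F, Act Aslot 0 (n + j)} ∩ Set.Ico (2 ^ L) (2 ^ (L + 1))) ⊆
      ((Finset.Ico (2 ^ (L + 1) - m) (2 ^ (L + 1)) ∪
        (Finset.range Q).biUnion (fun c => (T c).image (fun σ => 2 ^ L + Q * σ + c)) :
          Finset ℕ) : Set ℕ) := by
    rintro n ⟨hn, hnL, hnL2⟩
    rw [Finset.mem_coe, Finset.mem_union]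
    by_cases hnm : n + m < 2 ^ (L + 1)
    · right
      rw [Finset.mem_biUnion]
      refine ⟨(n - 2 ^ L) % Q, Finset.mem_range.mpr (Nat.mod_lt _ hQ), ?_⟩
      rw [Finset.mem_image]
      refine ⟨(n - 2 ^ L) / Q, ?_, ?_⟩
      · rw [Finset.mem_filter, Finset.mem_range]
        constructor
        · apply Nat.div_lt_of_lt_mul
          rw [hQM]
          have : 2 ^ (L + 1) = 2 ^ L + 2 ^ L := by ring
          omega
        · intro x hx
          obtain ⟨j, hj, rfl⟩ := Finset.mem_image.mp hx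
          have h3 := hm j hj
          exact ec_key i L n j hval hnL (by omega) (hn j hj)
      · have := Nat.div_add_mod (n - 2 ^ L) Q
        omega
    · left
      rw [Finset.mem_Ico]
      omega
  have hcard : (({n : ℕ | ∀ j ∈ F, Act Aslot 0 (n + j)} ∩ Set.Ico (2 ^ L) (2 ^ (L + 1))).ncard)
      ≤ m + ∑ c ∈ Finset.range Q, (T c).card := by
    have h3 := Set.ncard_le_ncard hsub (Finset.finite_toSet _)
    rw [Set.ncard_coe_finset] at h3
    refine h3.trans ((Finset.card_union_le _ _).trans ?_)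
    apply Nat.add_le_add
    · rw [Nat.card_Ico]
      omega
    · refine Finset.card_biUnion_le.trans (Finset.sum_le_sum fun c _ => Finset.card_image_le)
  have hT : ∀ c ∈ Finset.range Q, ((T c).card : ℝ) ≤
      (M : ℝ) / 2 ^ F.card + K * 2 ^ K + ((M : ℝ) / K + 1) * D + K := by
    intro c hc
    have h3 := count_patterns K D M hDK (d c) (hdle c (Finset.mem_range.mp hc))
    rw [hdcard c] at h3
    exact h3
  have hsum : ((∑ c ∈ Finset.range Q, (T c).card : ℕ) : ℝ) ≤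
      Q * ((M : ℝ) / 2 ^ F.card + K * 2 ^ K + ((M : ℝ) / K + 1) * D + K) := by
    rw [Nat.cast_sum]
    refine (Finset.sum_le_sum hT).trans ?_
    rw [Finset.sum_const, Finset.card_range, nsmul_eq_mul]
  have hcard' : ((({n : ℕ | ∀ j ∈ F, Act Aslot 0 (n + j)} ∩
      Set.Ico (2 ^ L) (2 ^ (L + 1))).ncard : ℕ) : ℝ) ≤
      m + Q * ((M : ℝ) / 2 ^ F.card + K * 2 ^ K + ((M : ℝ) / K + 1) * D + K) := by
    have h3 : ((({n : ℕ | ∀ j ∈ F, Act Aslot 0 (n + j)} ∩
      Set.Ico (2 ^ L) (2 ^ (L + 1))).ncard : ℕ) : ℝ) ≤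
      ((m + ∑ c ∈ Finset.range Q, (T c).card : ℕ) : ℝ) := by exact_mod_cast hcard
    rw [Nat.cast_add] at h3
    linarith
  refine hcard'.trans ?_
  have hQMr : (Q : ℝ) * M = 2 ^ L := by exact_mod_cast hQM
  have hKr : (0 : ℝ) < K := by exact_mod_cast hK0
  have hKLr : (K : ℝ) ≤ L := by exact_mod_cast hKL
  have hKL2r : (2 : ℝ) ^ K ≤ 2 * L := by exact_mod_cast hKL2
  have hQr : (0 : ℝ) ≤ Q := Nat.cast_nonneg _
  have hLr : (0 : ℝ) ≤ L := Nat.cast_nonneg _
  have hDr : (0 : ℝ) ≤ D := Nat.cast_nonneg _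
  have a1 : (K : ℝ) * 2 ^ K ≤ 2 * (L : ℝ) ^ 2 := by
    calc (K : ℝ) * 2 ^ K ≤ L * (2 * L) := mul_le_mul hKLr hKL2r (by positivity) hLr
      _ = 2 * (L : ℝ) ^ 2 := by ring
  have a2 : (D : ℝ) / K ≤ ε / 2 := by
    rw [div_le_iff₀ hKr]
    have h3 : (D : ℝ) / (ε / 2) < K := lt_of_lt_of_le hN0 (by exact_mod_cast hKN)
    rw [div_lt_iff₀ (half_pos hε)] at h3
    linarith
  have a3 : (Q : ℝ) * ((M : ℝ) / 2 ^ F.card + K * 2 ^ K + ((M : ℝ) / K + 1) * D + K) =
      (Q * M) / 2 ^ F.card + Q * (K * 2 ^ K) + (Q * M) * (D / K) + Q * D + Q * K := by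
    ring
  rw [a3, hQMr]
  have a4 : (Q : ℝ) * (K * 2 ^ K) ≤ Q * (2 * (L : ℝ) ^ 2) := mul_le_mul_of_nonneg_left a1 hQr
  have a5 : (2 : ℝ) ^ L * (D / K) ≤ 2 ^ L * (ε / 2) :=
    mul_le_mul_of_nonneg_left a2 (by positivity)
  have a6 : (Q : ℝ) * K ≤ Q * L := mul_le_mul_of_nonneg_left hKLr hQr
  have a7 : (1 / 2 ^ F.card + ε) * (2 : ℝ) ^ L = 2 ^ L / 2 ^ F.card + ε * 2 ^ L := by ring
  rw [a7]
  linarith

theorem mixing_Aslot_F (J : Set ℕ) (hJ : J.Infinite) (g k : ℕ) : ∃ F : Finset ℕ, (F : Set ℕ) ⊆ J ∧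
    F.card = k ∧ ∀ x ∈ F, ∀ y ∈ F, x < y → x + g ≤ y := by
  induction k with
  | zero => exact ⟨∅, by simp, rfl, by simp⟩
  | succ k ih =>
    obtain ⟨F, hF1, hF2, hF3⟩ := ih
    obtain ⟨x, hx, hxg⟩ := hJ.exists_gt (F.sup id + g)
    have hlt : ∀ y ∈ F, y + g < x := by
      intro y hy
      have : y ≤ F.sup id := Finset.le_sup (f := id) hy
      omega
    have hxF : x ∉ F := fun h => by have := hlt x h; omega
    refine ⟨insert x F, ?_, ?_, ?_⟩
    · intro y hy
      rw [Finset.coe_insert] at hy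
      rcases hy with rfl | hy
      · exact hx
      · exact hF1 hy
    · rw [Finset.card_insert_of_notMem hxF, hF2]
    · intro a ha b hb hab
      rw [Finset.mem_insert] at ha hb
      rcases ha with rfl | ha
      · rcases hb with rfl | hb
        · omega
        · have := hlt b hb; omega
      · rcases hb with rfl | hb
        · have := hlt a ha; omega
        · exact hF3 a ha b hb hab

theorem mixing_Aslot_sum (S : Set ℕ) (c : ℝ) (L1 m : ℕ)
    (h : ∀ L, L1 ≤ L → L < L1 + m → ((S ∩ Set.Ico (2 ^ L) (2 ^ (L + 1))).ncard : ℝ) ≤ c * 2 ^ L) :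
    ((S ∩ Set.Iio (2 ^ (L1 + m))).ncard : ℝ) ≤ 2 ^ L1 + c * (2 ^ (L1 + m) - 2 ^ L1) := by
  induction m with
  | zero =>
    simp only [add_zero, sub_self, mul_zero]
    have h1 : (S ∩ Set.Iio (2 ^ L1)).ncard ≤ (Set.Iio (2 ^ L1)).ncard :=
      Set.ncard_le_ncard Set.inter_subset_right (Set.finite_Iio _)
    have h2 : (Set.Iio (2 ^ L1) : Set ℕ).ncard = 2 ^ L1 := by
      rw [← Finset.coe_Iio, Set.ncard_coe_finset]; simp
    rw [h2] at h1
    exact_mod_cast h1
  | succ m ih =>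
    have ih' := ih (fun L h1 h2 => h L h1 (by omega))
    have h1 := h (L1 + m) (by omega) (by omega)
    have hsub : S ∩ Set.Iio (2 ^ (L1 + (m + 1))) ⊆
        (S ∩ Set.Iio (2 ^ (L1 + m))) ∪ (S ∩ Set.Ico (2 ^ (L1 + m)) (2 ^ (L1 + m + 1))) := by
      rintro n ⟨hn1, hn2⟩
      rw [Set.mem_Iio] at hn2
      by_cases hn : n < 2 ^ (L1 + m)
      · exact Or.inl ⟨hn1, hn⟩
      · exact Or.inr ⟨hn1, not_lt.1 hn, by rw [add_assoc]; exact hn2⟩
    have hfin : ((S ∩ Set.Iio (2 ^ (L1 + m))) ∪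
        (S ∩ Set.Ico (2 ^ (L1 + m)) (2 ^ (L1 + m + 1)))).Finite :=
      ((Set.finite_Iio _).inter_of_right _).union ((Set.finite_Ico _ _).inter_of_right _)
    have h2 : (S ∩ Set.Iio (2 ^ (L1 + (m + 1)))).ncard ≤ (S ∩ Set.Iio (2 ^ (L1 + m))).ncard +
        (S ∩ Set.Ico (2 ^ (L1 + m)) (2 ^ (L1 + m + 1))).ncard :=
      (Set.ncard_le_ncard hsub hfin).trans (Set.ncard_union_le _ _)
    have h3 : ((S ∩ Set.Iio (2 ^ (L1 + (m + 1)))).ncard : ℝ) ≤
        ((S ∩ Set.Iio (2 ^ (L1 + m))).ncard : ℝ) +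
        ((S ∩ Set.Ico (2 ^ (L1 + m)) (2 ^ (L1 + m + 1))).ncard : ℝ) := by exact_mod_cast h2
    have e : (2 : ℝ) ^ (L1 + (m + 1)) = 2 * 2 ^ (L1 + m) := by rw [← add_assoc, pow_succ]; ring
    rw [e]
    linarith

theorem mixing_Aslot : Mixing Aslot := by
  intro J hJ δ hδ
  obtain ⟨k, hk⟩ : ∃ k : ℕ, (1 / 2 : ℝ) ^ k < δ / 8 :=
    exists_pow_lt_of_lt_one (by positivity) (by norm_num)
  have hk' : 1 / 2 ^ k < δ / 8 := by simpa [one_div, inv_pow] using hk
  obtain ⟨F, hF1, hF2, hF3⟩ := mixing_Aslot_F J hJ (2 ^ (k + 1)) k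
  refine ⟨F, hF1, ?_⟩
  set S : Set ℕ := {n : ℕ | ∀ j ∈ F, Act Aslot 0 (n + j)} with hS
  have hev : ∀ᶠ L : ℕ in atTop, ∀ i ∈ Finset.range (k + 1), padicValNat 2 L = i →
      (((S ∩ Set.Ico (2 ^ L) (2 ^ (L + 1))).ncard : ℝ) ≤ (1 / 2 ^ F.card + δ / 8) * 2 ^ L) := by
    rw [Filter.eventually_all_finset]
    intro i hi
    rw [Finset.mem_range] at hi
    apply epoch_count i F _ (δ / 8) (by positivity)
    intro x hx y hy hxy
    have h1 := hF3 x hx y hy hxy
    have h2 : 2 ^ (i + 1) ≤ 2 ^ (k + 1) := Nat.pow_le_pow_right (by norm_num) (by omega)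
    omega
  obtain ⟨L0, hL0⟩ := Filter.eventually_atTop.1 hev
  rw [Filter.frequently_atTop]
  intro a
  set q : ℕ := 2 ^ (k + 1) with hq
  have hq2 : 2 ≤ q := by
    rw [hq, pow_succ]
    have : 1 ≤ 2 ^ k := Nat.one_le_two_pow
    omega
  have hkq : k + 2 ≤ q := by
    rw [hq]
    have : k + 1 < 2 ^ (k + 1) := Nat.lt_two_pow_self
    omega
  obtain ⟨t, ht⟩ : ∃ t : ℕ, t = a + L0 + 1 := ⟨_, rfl⟩
  -- top exponent is q * (t + 1), bottom exponent is q * t + 1
  have hcount := mixing_Aslot_sum S (δ / 4) (q * t + 1) (q - 1) (by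
    intro L h1 h2
    have hL : L0 ≤ L := by
      have : t ≤ q * t := Nat.le_mul_of_pos_left t (by omega)
      omega
    have hval : padicValNat 2 L ≤ k := by
      by_contra hcon
      have hcon' : k + 1 ≤ padicValNat 2 L := by omega
      have hL0' : L ≠ 0 := by omega
      have hd : 2 ^ (k + 1) ∣ L := (padicValNat_dvd_iff_le hL0').2 hcon'
      rw [← hq] at hd
      obtain ⟨c, hc⟩ := hd
      have h3 : q * t < q * c := by omega
      have h4 : q * c < q * (t + 1) := by rw [mul_add, mul_one]; omega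
      have h5 := Nat.lt_of_mul_lt_mul_left h3
      have h6 := Nat.lt_of_mul_lt_mul_left h4
      omega
    have h3 := hL0 L hL (padicValNat 2 L) (Finset.mem_range.2 (by omega)) rfl
    refine h3.trans ?_
    rw [hF2]
    have : (1 / 2 ^ k + δ / 8 : ℝ) ≤ δ / 4 := by linarith
    exact mul_le_mul_of_nonneg_right this (by positivity))
  have hexp : q * t + 1 + (q - 1) = q * (t + 1) := by rw [mul_add, mul_one]; omega
  rw [hexp] at hcount
  refine ⟨2 ^ (q * (t + 1)) - 1, ?_, ?_⟩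
  · have h1 : q * (t + 1) < 2 ^ (q * (t + 1)) := Nat.lt_two_pow_self
    have h2 : t + 1 ≤ q * (t + 1) := Nat.le_mul_of_pos_left _ (by omega)
    omega
  · have hIic : (Set.Iic (2 ^ (q * (t + 1)) - 1) : Set ℕ) = Set.Iio (2 ^ (q * (t + 1))) := by
      ext n
      have : 0 < 2 ^ (q * (t + 1)) := by positivity
      simp only [Set.mem_Iic, Set.mem_Iio]
      omega
    rw [hIic]
    refine hcount.trans ?_
    have hcast : ((2 ^ (q * (t + 1)) - 1 : ℕ) : ℝ) = 2 ^ (q * (t + 1)) - 1 := by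
      rw [Nat.cast_sub Nat.one_le_two_pow]; push_cast; ring
    rw [hcast]
    -- bottom part
    have hbot : (2 : ℝ) ^ (q * t + 1) ≤ δ / 4 * 2 ^ (q * (t + 1)) := by
      have e1 : (2 : ℝ) ^ (q * (t + 1)) = 2 ^ (q * t + 1) * 2 ^ (q - 1) := by
        rw [← pow_add, hexp]
      have e2 : (2 : ℝ) ^ (k + 1) ≤ 2 ^ (q - 1) := pow_le_pow_right₀ (by norm_num) (by omega)
      have e3 : 1 ≤ δ / 4 * 2 ^ (k + 1) := by
        have h1 : (1 : ℝ) < δ / 8 * 2 ^ k := by
          rwa [div_lt_iff₀ (by positivity)] at hk'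
        rw [pow_succ]; linarith
      have e4 : 1 ≤ δ / 4 * 2 ^ (q - 1) := e3.trans (mul_le_mul_of_nonneg_left e2 (by positivity))
      rw [e1]
      have e5 : (0 : ℝ) < 2 ^ (q * t + 1) := by positivity
      nlinarith
    have hone : (2 : ℝ) ≤ 2 ^ (q * (t + 1)) := by
      calc (2 : ℝ) = 2 ^ 1 := by norm_num
        _ ≤ 2 ^ (q * (t + 1)) := pow_le_pow_right₀ (by norm_num) (by nlinarith)
    have hpos : (0 : ℝ) < 2 ^ (q * t + 1) := by positivity
    have h7 : 0 ≤ δ / 4 * 2 ^ (q * t + 1) := by positivity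
    have h8 : 0 ≤ δ * (2 ^ (q * (t + 1)) - 2) := mul_nonneg hδ.le (by linarith)
    linarith

theorem exists_slots : ∃ A : ℕ → Set ℕ, IsSlots A ∧ (∀ i, PosLD (A i)) ∧ Mixing A :=
  ⟨Aslot, isSlots_Aslot, posLD_Aslot, mixing_Aslot⟩

end Pool.Agent.Helper932.FHC
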