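import Mathlib
import Pool.Agent.Helper932.FHCComb

set_option autoImplicit false

open Filter Topology

namespace Pool.Agent.Helper932.FHC

/-- Lower density `liminf #{n ≤ N : n ∈ A} / N`. -/
noncomputable def lowerDensity (A : Set ℕ) : ℝ :=
  liminf (fun N : ℕ => ((A ∩ Set.Iic N).ncard : ℝ) / (N : ℝ)) atTop

/-- The space `ℓ¹(ℕ, 𝕜)`. -/
abbrev E (𝕜 : Type) [RCLike 𝕜] : Type := lp (fun _ : ℕ => 𝕜) 1

/-- unit vectors -/
noncomputable def e (𝕜 : Type) [RCLike 𝕜] (j : ℕ) : E 𝕜 := lp.single 1 j (1 : 𝕜)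

section basics

variable {𝕜 : Type} [RCLike 𝕜]

theorem e_apply (j l : ℕ) : (e 𝕜 j) l = if l = j then 1 else 0 := by
  unfold e
  rw [lp.single_apply]
  by_cases h : l = j
  · subst h; rw [Pi.single_eq_same, if_pos rfl]
  · rw [Pi.single_eq_of_ne h, if_neg h]

theorem norm_e (j : ℕ) : ‖e 𝕜 j‖ = 1 := by
  unfold e
  rw [lp.norm_single (by norm_num), norm_one]

theorem summable_norm_coord (a : E 𝕜) : Summable (fun j => ‖a j‖) := by
  have h := (lp.hasSum_norm (p := 1) (by simp) a).summable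
  simpa using h

theorem norm_eq_tsum (a : E 𝕜) : ‖a‖ = ∑' j, ‖a j‖ := by
  have h := lp.norm_eq_tsum_rpow (p := 1) (by simp) a
  simpa using h

theorem hasSum_e (a : E 𝕜) : HasSum (fun j => a j • e 𝕜 j) a := by
  have h := lp.hasSum_single (p := 1) (by simp) a
  have e1 : (fun j => a j • e 𝕜 j) = (fun j => lp.single 1 j (a j)) := by
    funext j
    unfold e
    rw [← lp.single_smul, smul_eq_mul, mul_one]
  rw [e1]; exact h

theorem exists_clm (r : ℕ → E 𝕜) (M : ℝ) (hr : ∀ j, ‖r j‖ ≤ M) :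
    ∃ ρ : E 𝕜 →L[𝕜] E 𝕜, ∀ j, ρ (e 𝕜 j) = r j := by
  have hM : 0 ≤ M := (norm_nonneg _).trans (hr 0)
  have hb : ∀ (a : E 𝕜) (j : ℕ), ‖a j • r j‖ ≤ M * ‖a j‖ := by
    intro a j
    rw [norm_smul, mul_comm]
    exact mul_le_mul_of_nonneg_right (hr j) (norm_nonneg _)
  have hs : ∀ a : E 𝕜, Summable (fun j => a j • r j) := fun a =>
    Summable.of_norm_bounded ((summable_norm_coord a).mul_left M) (hb a)
  let L : E 𝕜 →ₗ[𝕜] E 𝕜 :=
    { toFun := fun a => ∑' j, a j • r j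
      map_add' := by
        intro a b
        rw [← (hs a).tsum_add (hs b)]
        apply tsum_congr
        intro j
        rw [lp.coeFn_add, Pi.add_apply, add_smul]
      map_smul' := by
        intro c a
        rw [RingHom.id_apply, ← (hs a).tsum_const_smul c]
        apply tsum_congr
        intro j
        rw [lp.coeFn_smul, Pi.smul_apply, smul_assoc] }
  have hL : ∀ a, ‖L a‖ ≤ M * ‖a‖ := by
    intro a
    have h1 : HasSum (fun j => M * ‖a j‖) (M * ‖a‖) := by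
      rw [norm_eq_tsum]
      exact (summable_norm_coord a).hasSum.mul_left M
    exact tsum_of_norm_bounded h1 (hb a)
  refine ⟨L.mkContinuous M hL, ?_⟩
  intro j
  show ∑' l, (e 𝕜 j) l • r l = r j
  rw [tsum_eq_single j]
  · rw [e_apply, if_pos rfl, one_smul]
  · intro l hl
    rw [e_apply, if_neg hl, zero_smul]

theorem clm_norm_le {Y : Type} [NormedAddCommGroup Y] [NormedSpace 𝕜 Y] (ρ : E 𝕜 →L[𝕜] Y)
    (a : E 𝕜) (M : ℝ) (h : ∀ j, a j ≠ 0 → ‖ρ (e 𝕜 j)‖ ≤ M) : ‖ρ a‖ ≤ M * ‖a‖ := by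
  have h1 : HasSum (fun j => M * ‖a j‖) (M * ‖a‖) := by
    rw [norm_eq_tsum]
    exact (summable_norm_coord a).hasSum.mul_left M
  have h2 : HasSum (fun j => ρ (a j • e 𝕜 j)) (ρ a) := ρ.hasSum (hasSum_e a)
  rw [← h2.tsum_eq]
  apply tsum_of_norm_bounded h1
  intro j
  rw [map_smul, norm_smul]
  by_cases hj : a j = 0
  · rw [hj, norm_zero, zero_mul, mul_zero]
  · rw [mul_comm]
    exact mul_le_mul_of_nonneg_right (h j hj) (norm_nonneg _)

theorem clm_congr {Y : Type} [NormedAddCommGroup Y] [NormedSpace 𝕜 Y] (ρ σ : E 𝕜 →L[𝕜] Y)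
    (a : E 𝕜) (h : ∀ j, a j ≠ 0 → ρ (e 𝕜 j) = σ (e 𝕜 j)) : ρ a = σ a := by
  have h1 := clm_norm_le (ρ - σ) a 0 (fun j hj => by
    rw [ContinuousLinearMap.sub_apply, h j hj, sub_self, norm_zero])
  rw [zero_mul] at h1
  have h2 : (ρ - σ) a = 0 := norm_le_zero_iff.1 h1
  rw [ContinuousLinearMap.sub_apply] at h2
  exact sub_eq_zero.1 h2

theorem exists_shift (𝕜 : Type) [RCLike 𝕜] :
    ∃ S : E 𝕜 →L[𝕜] E 𝕜, ∀ j, S (e 𝕜 j) = (4 : 𝕜) • e 𝕜 (j + 1) := by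
  refine exists_clm (fun j => (4 : 𝕜) • e 𝕜 (j + 1)) 4 fun j => ?_
  rw [norm_smul, norm_e, RCLike.norm_ofNat, mul_one]

/-- the operator `S e_j = 4 e_{j+1}` -/
noncomputable def S (𝕜 : Type) [RCLike 𝕜] : E 𝕜 →L[𝕜] E 𝕜 := Classical.choose (exists_shift 𝕜)

theorem S_e (j : ℕ) : S 𝕜 (e 𝕜 j) = (4 : 𝕜) • e 𝕜 (j + 1) :=
  Classical.choose_spec (exists_shift 𝕜) j

theorem S_pow_e (n j : ℕ) : ((S 𝕜) ^ n) (e 𝕜 j) = ((4 : 𝕜) ^ n) • e 𝕜 (j + n) := by
  induction n with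
  | zero => simp
  | succ n ih =>
    rw [pow_succ', ContinuousLinearMap.mul_apply, ih, map_smul, S_e, smul_smul, pow_succ]
    rfl

theorem S_norm (a : E 𝕜) : ‖S 𝕜 a‖ = 4 * ‖a‖ := by
  have hS : ∀ j, ‖S 𝕜 (e 𝕜 j)‖ ≤ 4 := by
    intro j
    rw [S_e, norm_smul, norm_e, RCLike.norm_ofNat, mul_one]
  have h1 : ‖S 𝕜 a‖ ≤ 4 * ‖a‖ := clm_norm_le (S 𝕜) a 4 fun j _ => hS j
  have h14 : ‖((4 : 𝕜)⁻¹)‖ = 1 / 4 := by
    rw [norm_inv, RCLike.norm_ofNat]; norm_num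
  have hr : ∀ j : ℕ, ‖(if j = 0 then (0 : E 𝕜) else (4 : 𝕜)⁻¹ • e 𝕜 (j - 1))‖ ≤ 1 / 4 := by
    intro j
    split_ifs
    · rw [norm_zero]; norm_num
    · rw [norm_smul, norm_e, h14, mul_one]
  obtain ⟨R, hR⟩ := exists_clm (fun j : ℕ => if j = 0 then (0 : E 𝕜) else (4 : 𝕜)⁻¹ • e 𝕜 (j - 1))
    (1 / 4) hr
  have h2 : ∀ b : E 𝕜, ‖R b‖ ≤ 1 / 4 * ‖b‖ := fun b =>
    clm_norm_le R b (1 / 4) fun j _ => by rw [hR]; exact hr j
  have h3 : R (S 𝕜 a) = a := by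
    have := clm_congr (R ∘L S 𝕜) (ContinuousLinearMap.id 𝕜 (E 𝕜)) a fun j _ => ?_
    · simpa using this
    · rw [ContinuousLinearMap.comp_apply, S_e, map_smul, hR, if_neg (Nat.succ_ne_zero j), smul_smul,
        Nat.add_sub_cancel, mul_inv_cancel₀ (by norm_num : (4 : 𝕜) ≠ 0), one_smul]
      rfl
  have h4 := h2 (S 𝕜 a)
  rw [h3] at h4
  linarith

theorem S_pow_norm (n : ℕ) (a : E 𝕜) : ‖((S 𝕜) ^ n) a‖ = 4 ^ n * ‖a‖ := by
  induction n with
  | zero => simp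
  | succ n ih =>
    rw [pow_succ', ContinuousLinearMap.mul_apply, S_norm, ih, pow_succ]
    ring

/-- evaluation of a coordinate -/
noncomputable def evC (𝕜 : Type) [RCLike 𝕜] (l : ℕ) : E 𝕜 →L[𝕜] 𝕜 :=
  LinearMap.mkContinuous
    { toFun := fun a => a l
      map_add' := fun a b => by simp
      map_smul' := fun c a => by simp } 1 (fun a => by
        rw [one_mul]
        exact lp.norm_apply_le_norm (by norm_num) a l)

theorem evC_apply (l : ℕ) (a : E 𝕜) : evC 𝕜 l a = a l := rfl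

theorem exists_res (𝕜 : Type) [RCLike 𝕜] (C : Set ℕ) :
    ∃ R : E 𝕜 →L[𝕜] E 𝕜, (∀ j ∈ C, R (e 𝕜 j) = e 𝕜 j) ∧ (∀ j, j ∉ C → R (e 𝕜 j) = 0) := by
  classical
  obtain ⟨R, hR⟩ := exists_clm (𝕜 := 𝕜) (fun j => if j ∈ C then e 𝕜 j else 0) 1 (fun j => by
    show ‖(if j ∈ C then e 𝕜 j else 0 : E 𝕜)‖ ≤ 1
    split_ifs
    · exact (norm_e j).le
    · simp)
  refine ⟨R, fun j hj => ?_, fun j hj => ?_⟩
  · rw [hR]; exact if_pos hj
  · rw [hR]; exact if_neg hj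

/-- restriction of a sequence to the set `C` of indices -/
noncomputable def res (𝕜 : Type) [RCLike 𝕜] (C : Set ℕ) : E 𝕜 →L[𝕜] E 𝕜 :=
  Classical.choose (exists_res 𝕜 C)

theorem res_e_mem (C : Set ℕ) (j : ℕ) (h : j ∈ C) : res 𝕜 C (e 𝕜 j) = e 𝕜 j :=
  (Classical.choose_spec (exists_res 𝕜 C)).1 j h

theorem res_e_not_mem (C : Set ℕ) (j : ℕ) (h : j ∉ C) : res 𝕜 C (e 𝕜 j) = 0 :=
  (Classical.choose_spec (exists_res 𝕜 C)).2 j h

theorem res_apply_mem (C : Set ℕ) (a : E 𝕜) (j : ℕ) (h : j ∈ C) : (res 𝕜 C a) j = a j := by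
  have key := clm_congr ((evC 𝕜 j).comp (res 𝕜 C)) (evC 𝕜 j) a (fun i _ => by
    rw [ContinuousLinearMap.comp_apply]
    by_cases hi : i ∈ C
    · rw [res_e_mem C i hi]
    · rw [res_e_not_mem C i hi, map_zero, evC_apply, e_apply, if_neg]
      rintro rfl
      exact hi h)
  exact key

theorem res_apply_not_mem (C : Set ℕ) (a : E 𝕜) (j : ℕ) (h : j ∉ C) : (res 𝕜 C a) j = 0 := by
  have key := clm_congr ((evC 𝕜 j).comp (res 𝕜 C)) 0 a (fun i _ => by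
    rw [ContinuousLinearMap.comp_apply]
    by_cases hi : i ∈ C
    · rw [res_e_mem C i hi, evC_apply, e_apply, if_neg]
      · rfl
      · rintro rfl
        exact h hi
    · rw [res_e_not_mem C i hi, map_zero]; rfl)
  exact key

theorem res_add (C : Set ℕ) (a : E 𝕜) : res 𝕜 C a + res 𝕜 Cᶜ a = a := by
  have key := clm_congr (res 𝕜 C + res 𝕜 Cᶜ) (ContinuousLinearMap.id 𝕜 (E 𝕜)) a (fun i _ => by
    rw [ContinuousLinearMap.add_apply, ContinuousLinearMap.id_apply]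
    by_cases hi : i ∈ C
    · rw [res_e_mem C i hi, res_e_not_mem Cᶜ i (fun h => h hi), add_zero]
    · rw [res_e_not_mem C i hi, res_e_mem Cᶜ i hi, zero_add])
  exact key

theorem res_norm (C : Set ℕ) (a : E 𝕜) : ‖res 𝕜 C a‖ + ‖res 𝕜 Cᶜ a‖ = ‖a‖ := by
  rw [norm_eq_tsum (res 𝕜 C a), norm_eq_tsum (res 𝕜 Cᶜ a), norm_eq_tsum a,
    ← (summable_norm_coord (res 𝕜 C a)).tsum_add (summable_norm_coord (res 𝕜 Cᶜ a))]
  refine tsum_congr (fun j => ?_)
  by_cases hj : j ∈ C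
  · rw [res_apply_mem C a j hj, res_apply_not_mem Cᶜ a j (fun h => h hj), norm_zero, add_zero]
  · rw [res_apply_not_mem C a j hj, res_apply_mem Cᶜ a j hj, norm_zero, zero_add]

end basics

/-- The reduction maps and their properties. -/
structure Sys {𝕜 : Type} [RCLike 𝕜] (A : ℕ → Set ℕ) (P : ℕ → E 𝕜)
    (ρ : ℕ → (E 𝕜 →L[𝕜] E 𝕜)) : Prop where
  free : ∀ k j, ¬ Act A k j → ρ k (e 𝕜 j) = e 𝕜 j
  act : ∀ k i n, n ∈ A i → k ≤ i → ρ k (((S 𝕜) ^ n) (e 𝕜 0)) = ρ k (P i)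
  contr : ∀ k a, ‖ρ k a‖ ≤ ‖a‖
  small : ∀ k j, Act A k j → ‖ρ k (e 𝕜 j)‖ ≤ (1 / 2 : ℝ) ^ j
  supp : ∀ k a j, Act A k j → (ρ k a) j = 0
  idem : ∀ k a, ρ k (ρ k a) = ρ k a
  step : ∀ k a, ρ k (ρ (k + 1) a) = ρ k a
  shift : ∀ k a, ρ k (S 𝕜 (ρ (k + 1) a)) = ρ k (S 𝕜 a)

section sys

variable {𝕜 : Type} [RCLike 𝕜]

theorem exists_r_uniq (A : ℕ → Set ℕ) (hA : IsSlots A) {i n m i' n' m' : ℕ} (h : n ∈ A i)
    (h' : n' ∈ A i') (hm : m ≤ i) (hm' : m' ≤ i') (heq : n + m = n' + m') :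
    i = i' ∧ n = n' ∧ m = m' := by
  have hn : n = n' := by
    rcases lt_trichotomy n n' with hlt | hlt | hlt
    · exfalso
      have h1 := hA.gap i i' n n' h h' hlt
      have h2 : i + 1 < 2 ^ (i + 1) := Nat.lt_two_pow_self
      omega
    · exact hlt
    · exfalso
      have h1 := hA.gap i' i n' n h' h hlt
      have h2 : i' + 1 < 2 ^ (i' + 1) := Nat.lt_two_pow_self
      omega
  subst hn
  exact ⟨hA.uniq i i' n h h', rfl, by omega⟩

theorem exists_r (A : ℕ → Set ℕ) (hA : IsSlots A) (P : ℕ → E 𝕜) (k : ℕ) :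
    ∃ r : ℕ → E 𝕜, (∀ j, ¬ Act A k j → r j = e 𝕜 j) ∧
      (∀ i n m, n ∈ A i → m + k ≤ i → r (n + m) =
        ((4 : 𝕜) ^ n)⁻¹ • ∑ l ∈ Finset.range (i + 1), (P i l) • r (m + l)) := by
  classical
  let F : (j : ℕ) → ((i : ℕ) → i < j → E 𝕜) → E 𝕜 := fun j prev =>
    if h : ∃ t : ℕ × ℕ × ℕ, t.2.1 ∈ A t.1 ∧ j = t.2.1 + t.2.2 ∧ t.2.2 + k ≤ t.1 then
      ((4 : 𝕜) ^ (Classical.choose h).2.1)⁻¹ •
        ∑ l ∈ Finset.range ((Classical.choose h).1 + 1), (P (Classical.choose h).1 l) •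
          (if hl : (Classical.choose h).2.2 + l < j then prev ((Classical.choose h).2.2 + l) hl
            else 0)
    else e 𝕜 j
  have wf : WellFounded (fun a b : ℕ => a < b) := wellFounded_lt
  let r : ℕ → E 𝕜 := wf.fix F
  have hr : ∀ j, r j = F j (fun i _ => r i) := fun j => wf.fix_eq F j
  refine ⟨r, fun j hj => ?_, fun i n m hn hmk => ?_⟩
  · rw [hr j]
    apply dif_neg
    rintro ⟨t, h1, h2, h3⟩
    exact hj ⟨t.1, t.2.1, t.2.2, h1, h2, h3⟩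
  · have hex : ∃ t : ℕ × ℕ × ℕ, t.2.1 ∈ A t.1 ∧ n + m = t.2.1 + t.2.2 ∧ t.2.2 + k ≤ t.1 :=
      ⟨(i, n, m), hn, rfl, hmk⟩
    have h1 : r (n + m) = ((4 : 𝕜) ^ (Classical.choose hex).2.1)⁻¹ •
        ∑ l ∈ Finset.range ((Classical.choose hex).1 + 1), (P (Classical.choose hex).1 l) •
          (if hl : (Classical.choose hex).2.2 + l < n + m then r ((Classical.choose hex).2.2 + l)
            else 0) := by
      rw [hr (n + m)]
      exact dif_pos hex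
    obtain ⟨s1, s2, s3⟩ := Classical.choose_spec hex
    obtain ⟨u1, u2, u3⟩ := exists_r_uniq A hA hn s1 (by omega) (by omega) s2
    rw [h1, ← u1, ← u2, ← u3]
    congr 1
    refine Finset.sum_congr rfl fun l hl => ?_
    rw [Finset.mem_range] at hl
    have hlarge := hA.large i n hn
    rw [dif_pos (show m + l < n + m by omega)]

theorem r_norm_le (A : ℕ → Set ℕ) (hA : IsSlots A) (P : ℕ → E 𝕜) (hP : ∀ i, ‖P i‖ ≤ 2 ^ i)
    (k : ℕ) (r : ℕ → E 𝕜) (h1 : ∀ j, ¬ Act A k j → r j = e 𝕜 j)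
    (h2 : ∀ i n m, n ∈ A i → m + k ≤ i → r (n + m) =
        ((4 : 𝕜) ^ n)⁻¹ • ∑ l ∈ Finset.range (i + 1), (P i l) • r (m + l)) (j : ℕ) :
    ‖r j‖ ≤ 1 ∧ (Act A k j → ‖r j‖ ≤ (1 / 2 : ℝ) ^ j) := by
  induction j using Nat.strong_induction_on with
  | _ j ih =>
    by_cases hact : Act A k j
    · obtain ⟨i, n, m, hn, rfl, hm⟩ := hact
      have hl := hA.large i n hn
      have hsum : ‖∑ l ∈ Finset.range (i + 1), (P i l) • r (m + l)‖ ≤ 2 ^ i := by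
        calc ‖∑ l ∈ Finset.range (i + 1), (P i l) • r (m + l)‖
            ≤ ∑ l ∈ Finset.range (i + 1), ‖(P i l) • r (m + l)‖ := norm_sum_le _ _
          _ ≤ ∑ l ∈ Finset.range (i + 1), ‖P i l‖ := by
              apply Finset.sum_le_sum
              intro l hl'
              rw [Finset.mem_range] at hl'
              rw [norm_smul]
              have := (ih (m + l) (by omega)).1
              nlinarith [norm_nonneg (P i l)]
          _ ≤ ∑' l, ‖P i l‖ := (summable_norm_coord (P i)).sum_le_tsum _ (fun _ _ => norm_nonneg _)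
          _ = ‖P i‖ := (norm_eq_tsum (P i)).symm
          _ ≤ 2 ^ i := hP i
      have hb : ‖r (n + m)‖ ≤ (1 / 2 : ℝ) ^ (n + m) := by
        rw [h2 i n m hn hm, norm_smul, norm_inv, norm_pow]
        have h4 : ‖(4 : 𝕜)‖ = 4 := by
          have := RCLike.norm_natCast (K := 𝕜) 4
          simpa using this
        rw [h4]
        have h4n : (4 : ℝ) ^ n = 2 ^ (2 * n) := by rw [pow_mul]; norm_num
        calc ((4 : ℝ) ^ n)⁻¹ * ‖∑ l ∈ Finset.range (i + 1), (P i l) • r (m + l)‖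
            ≤ ((4 : ℝ) ^ n)⁻¹ * 2 ^ i := by
              apply mul_le_mul_of_nonneg_left hsum (by positivity)
          _ ≤ (1 / 2 : ℝ) ^ (n + m) := by
              rw [h4n, one_div, inv_pow, inv_mul_le_iff₀ (by positivity), ← div_eq_mul_inv,
                le_div_iff₀ (by positivity), ← pow_add]
              exact pow_le_pow_right₀ (by norm_num) (by omega)
      refine ⟨hb.trans ?_, fun _ => hb⟩
      apply pow_le_one₀ <;> norm_num
    · refine ⟨?_, fun h => absurd h hact⟩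
      rw [h1 j hact, norm_e]

theorem r_supp (A : ℕ → Set ℕ) (hA : IsSlots A) (P : ℕ → E 𝕜)
    (k : ℕ) (r : ℕ → E 𝕜) (h1 : ∀ j, ¬ Act A k j → r j = e 𝕜 j)
    (h2 : ∀ i n m, n ∈ A i → m + k ≤ i → r (n + m) =
        ((4 : 𝕜) ^ n)⁻¹ • ∑ l ∈ Finset.range (i + 1), (P i l) • r (m + l)) (j l : ℕ)
    (hl : Act A k l) : (r j) l = 0 := by
  classical
  induction j using Nat.strong_induction_on with
  | _ j ih =>
    by_cases hj : Act A k j
    · obtain ⟨i, n, m, hn, hjm, hmk⟩ := hj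
      rw [hjm, h2 i n m hn hmk]
      have hlarge := hA.large i n hn
      have h0 : ∀ l' ∈ Finset.range (i + 1), (((P i l') • r (m + l') : E 𝕜) : ℕ → 𝕜) l = 0 := by
        intro l' hl'
        rw [Finset.mem_range] at hl'
        rw [lp.coeFn_smul, Pi.smul_apply, ih (m + l') (by omega), smul_zero]
      rw [lp.coeFn_smul, Pi.smul_apply, lp.coeFn_sum, Finset.sum_apply,
        Finset.sum_eq_zero h0, smul_zero]
    · rw [h1 j hj, e_apply, if_neg]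
      rintro rfl
      exact hj hl

theorem exists_eval (𝕜 : Type) [RCLike 𝕜] (l : ℕ) :
    ∃ φ : E 𝕜 →L[𝕜] 𝕜, ∀ a : E 𝕜, φ a = a l := by
  let f : E 𝕜 →ₗ[𝕜] 𝕜 :=
    { toFun := fun a => a l
      map_add' := fun a b => by simp
      map_smul' := fun c a => by simp }
  refine ⟨f.mkContinuous 1 ?_, fun a => rfl⟩
  intro a
  rw [one_mul]
  exact lp.norm_apply_le_norm one_ne_zero a l

theorem exists_sys (A : ℕ → Set ℕ) (hA : IsSlots A) (P : ℕ → E 𝕜) (hP : ∀ i, ‖P i‖ ≤ 2 ^ i)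
    (hP2 : ∀ i l, i < l → P i l = 0) : ∃ ρ : ℕ → (E 𝕜 →L[𝕜] E 𝕜), Sys A P ρ := by
  choose r h1 h2 using fun k => exists_r (𝕜 := 𝕜) A hA P k
  have hn := fun k j => r_norm_le A hA P hP k (r k) (h1 k) (h2 k) j
  choose ρ hρ using fun k => exists_clm (r k) 1 (fun j => (hn k j).1)
  have hPs : ∀ i, P i = ∑ l ∈ Finset.range (i + 1), (P i l) • e 𝕜 l := by
    intro i
    refine (hasSum_e (P i)).unique ?_
    refine hasSum_sum_of_ne_finset_zero ?_
    intro l hl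
    have : i < l := by
      by_contra h
      exact hl (Finset.mem_range.2 (by omega))
    rw [hP2 i l this, zero_smul]
  have h4 : ∀ n : ℕ, (4 : 𝕜) ^ n ≠ 0 := fun n => pow_ne_zero _ (by norm_num)
  have supp : ∀ k a j, Act A k j → (ρ k a) j = 0 := by
    intro k a j hj
    obtain ⟨φ, hφ⟩ := exists_eval 𝕜 j
    have := clm_congr (φ ∘L ρ k) (0 : E 𝕜 →L[𝕜] 𝕜) a (by
      intro l _
      rw [ContinuousLinearMap.comp_apply, hρ, hφ, ContinuousLinearMap.zero_apply]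
      exact r_supp A hA P k (r k) (h1 k) (h2 k) l j hj)
    rw [ContinuousLinearMap.comp_apply, hφ, ContinuousLinearMap.zero_apply] at this
    exact this
  have free : ∀ k j, ¬ Act A k j → ρ k (e 𝕜 j) = e 𝕜 j := by
    intro k j hj
    rw [hρ, h1 k j hj]
  refine ⟨ρ, ⟨free, ?_, ?_, ?_, supp, ?_, ?_, ?_⟩⟩
  · intro k i n hn hk
    have h := h2 k i n 0 hn (by omega)
    rw [S_pow_e, map_smul, hρ]
    conv_rhs => rw [hPs i]
    rw [Nat.zero_add]
    rw [Nat.add_zero] at h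
    rw [h, smul_smul, mul_inv_cancel₀ (h4 n), one_smul, map_sum]
    refine Finset.sum_congr rfl fun l _ => ?_
    rw [map_smul, hρ, Nat.zero_add]
  · intro k a
    have := clm_norm_le (ρ k) a 1 (fun j _ => by rw [hρ]; exact (hn k j).1)
    rwa [one_mul] at this
  · intro k j hj
    rw [hρ]
    exact (hn k j).2 hj
  · intro k a
    have := clm_congr (ρ k) (ContinuousLinearMap.id 𝕜 (E 𝕜)) (ρ k a) (by
      intro j hj
      rw [ContinuousLinearMap.id_apply]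
      exact free k j fun h => hj (supp k a j h))
    rwa [ContinuousLinearMap.id_apply] at this
  · intro k a
    have key : ∀ j, ρ k (r (k + 1) j) = r k j := by
      intro j
      induction j using Nat.strong_induction_on with
      | _ j ih =>
        by_cases hj : Act A (k + 1) j
        · obtain ⟨i, n, m, hnA, rfl, hm⟩ := hj
          have hl := hA.large i n hnA
          rw [h2 (k + 1) i n m hnA hm, h2 k i n m hnA (by omega), map_smul, map_sum]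
          congr 1
          refine Finset.sum_congr rfl fun l hl' => ?_
          rw [map_smul, ih (m + l) (by have := Finset.mem_range.1 hl'; omega)]
        · rw [h1 (k + 1) j hj, hρ]
    have := clm_congr ((ρ k) ∘L (ρ (k + 1))) (ρ k) a (by
      intro j _
      rw [ContinuousLinearMap.comp_apply, hρ (k + 1), key, hρ])
    exact this
  · intro k a
    have key : ∀ j, ρ k (S 𝕜 (r (k + 1) j)) = (4 : 𝕜) • r k (j + 1) := by
      intro j
      induction j using Nat.strong_induction_on with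
      | _ j ih =>
        by_cases hj : Act A (k + 1) j
        · obtain ⟨i, n, m, hnA, rfl, hm⟩ := hj
          have hl := hA.large i n hnA
          have h3 := h2 k i n (m + 1) hnA (by omega)
          rw [← Nat.add_assoc] at h3
          rw [h2 (k + 1) i n m hnA hm, h3, map_smul, map_sum, map_smul, map_sum,
            smul_comm (4 : 𝕜), Finset.smul_sum (r := (4 : 𝕜))]
          congr 1
          refine Finset.sum_congr rfl fun l hl' => ?_
          rw [map_smul, map_smul, ih (m + l) (by have := Finset.mem_range.1 hl'; omega),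
            smul_comm (4 : 𝕜), show m + l + 1 = m + 1 + l by omega]
        · rw [h1 (k + 1) j hj, S_e, map_smul, hρ]
    have := clm_congr ((ρ k) ∘L ((S 𝕜) ∘L (ρ (k + 1)))) ((ρ k) ∘L (S 𝕜)) a (by
      intro j _
      rw [ContinuousLinearMap.comp_apply, ContinuousLinearMap.comp_apply,
        ContinuousLinearMap.comp_apply, hρ (k + 1), key, S_e, map_smul, hρ])
    exact this

theorem sys_comp (A : ℕ → Set ℕ) (P : ℕ → E 𝕜) (ρ : ℕ → (E 𝕜 →L[𝕜] E 𝕜)) (h : Sys A P ρ)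
    (k l : ℕ) (hkl : k ≤ l) (a : E 𝕜) : ρ k (ρ l a) = ρ k a := by
  induction l, hkl using Nat.le_induction generalizing a with
  | base => exact h.idem k a
  | succ l hkl ih => rw [← ih (ρ (l + 1) a), h.step, ih]

/-- key inequality (G) -/
theorem key (A : ℕ → Set ℕ) (P : ℕ → E 𝕜) (ρ : ℕ → (E 𝕜 →L[𝕜] E 𝕜)) (h : Sys A P ρ)
    (n : ℕ) (a : E 𝕜) (C : Set ℕ) (hC : ∀ s ∈ C, ¬ Act A 0 (n + s)) :
    4 ^ n * ‖res 𝕜 C a‖ ≤ ‖ρ 0 (((S 𝕜) ^ n) a)‖ + 2 ^ n * ‖res 𝕜 Cᶜ a‖ := by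
  classical
  set b : E 𝕜 := res 𝕜 C a with hb
  set c : E 𝕜 := res 𝕜 Cᶜ a with hc
  have hbc : b + c = a := res_add C a
  let D : Set ℕ := {j | ∃ s ∈ C, j = n + s}
  have hbs : ∀ s, b s ≠ 0 → s ∈ C := by
    intro s hs
    by_contra hsC
    exact hs (res_apply_not_mem C a s hsC)
  have hcs : ∀ s, c s ≠ 0 → s ∉ C := by
    intro s hs hsC
    exact hs (res_apply_not_mem Cᶜ a s (fun h => h hsC))
  have hR : ∀ x : E 𝕜, ‖res 𝕜 D x‖ ≤ ‖x‖ := by
    intro x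
    have := res_norm D x
    linarith [norm_nonneg (res 𝕜 Dᶜ x)]
  have h1 : ρ 0 (((S 𝕜) ^ n) b) = ((S 𝕜) ^ n) b := by
    refine clm_congr ((ρ 0).comp ((S 𝕜) ^ n)) ((S 𝕜) ^ n) b fun s hs => ?_
    rw [ContinuousLinearMap.comp_apply, S_pow_e, map_smul, h.free]
    rw [add_comm]
    exact hC s (hbs s hs)
  have h2 : res 𝕜 D (((S 𝕜) ^ n) b) = ((S 𝕜) ^ n) b := by
    refine clm_congr ((res 𝕜 D).comp ((S 𝕜) ^ n)) ((S 𝕜) ^ n) b fun s hs => ?_
    rw [ContinuousLinearMap.comp_apply, S_pow_e, map_smul, res_e_mem]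
    exact ⟨s, hbs s hs, add_comm _ _⟩
  have h3 : ‖res 𝕜 D (ρ 0 (((S 𝕜) ^ n) c))‖ ≤ 2 ^ n * ‖c‖ := by
    refine clm_norm_le ((res 𝕜 D).comp ((ρ 0).comp ((S 𝕜) ^ n))) c (2 ^ n) fun s hs => ?_
    rw [ContinuousLinearMap.comp_apply, ContinuousLinearMap.comp_apply, S_pow_e, map_smul,
      map_smul, norm_smul, norm_pow, RCLike.norm_ofNat]
    by_cases hact : Act A 0 (s + n)
    · have e1 : ‖res 𝕜 D (ρ 0 (e 𝕜 (s + n)))‖ ≤ (1 / 2 : ℝ) ^ n := by
        refine (hR _).trans ((h.small 0 _ hact).trans ?_)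
        exact pow_le_pow_of_le_one (by norm_num) (by norm_num) (Nat.le_add_left n s)
      calc (4 : ℝ) ^ n * ‖res 𝕜 D (ρ 0 (e 𝕜 (s + n)))‖ ≤ 4 ^ n * (1 / 2) ^ n := by gcongr
        _ = 2 ^ n := by rw [← mul_pow]; norm_num
    · rw [h.free 0 _ hact, res_e_not_mem]
      · rw [norm_zero, mul_zero]; positivity
      · rintro ⟨s', hs', he⟩
        have : s = s' := by omega
        exact hcs s hs (this ▸ hs')
  have h4 : ((S 𝕜) ^ n) b = res 𝕜 D (ρ 0 (((S 𝕜) ^ n) a)) - res 𝕜 D (ρ 0 (((S 𝕜) ^ n) c)) := by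
    rw [← map_sub, ← map_sub, ← map_sub, ← hbc, add_sub_cancel_right, h1, h2]
  calc 4 ^ n * ‖b‖ = ‖((S 𝕜) ^ n) b‖ := (S_pow_norm n b).symm
    _ = ‖res 𝕜 D (ρ 0 (((S 𝕜) ^ n) a)) - res 𝕜 D (ρ 0 (((S 𝕜) ^ n) c))‖ := by rw [← h4]
    _ ≤ ‖res 𝕜 D (ρ 0 (((S 𝕜) ^ n) a))‖ + ‖res 𝕜 D (ρ 0 (((S 𝕜) ^ n) c))‖ := norm_sub_le _ _
    _ ≤ ‖ρ 0 (((S 𝕜) ^ n) a)‖ + 2 ^ n * ‖c‖ := add_le_add (hR _) h3

theorem step_bound_pow (N k : ℕ) : k + 2 ^ N ≤ 2 ^ (N + k) := by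
  induction k with
  | zero => simp
  | succ k ih =>
    have h1 : 1 ≤ 2 ^ (N + k) := Nat.one_le_two_pow
    have h2 : 2 ^ (N + (k + 1)) = 2 ^ (N + k) + 2 ^ (N + k) := by
      rw [← add_assoc, pow_succ]
      ring
    omega

theorem step_bound_comb (A : ℕ → Set ℕ) (hA : IsSlots A) (N n : ℕ) (hN : N < n) (hn : n ≤ 2 ^ N)
    (s : ℕ) (h1 : Act A N s) (h2 : ¬ Act A n s) : ¬ Act A 0 (n + s) := by
  obtain ⟨i, p, m, hp, hs, hm⟩ := h1
  have h3 : ¬ m + n ≤ i := fun h => h2 ⟨i, p, m, hp, hs, h⟩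
  rintro ⟨i', p', m', hp', hs', hm'⟩
  have h4 : m + n ≤ 2 ^ i := by
    obtain ⟨k, rfl⟩ := Nat.exists_eq_add_of_le (show N ≤ i by omega)
    have := step_bound_pow N k
    omega
  have h5 : 2 ^ (i + 1) = 2 ^ i + 2 ^ i := by rw [pow_succ]; ring
  have h6 : 1 ≤ 2 ^ i := Nat.one_le_two_pow
  have h7 : i' + 1 < 2 ^ (i' + 1) := Nat.lt_two_pow_self
  rcases lt_trichotomy p' p with h | h | h
  · have := hA.gap i' i p' p hp' hp h
    omega
  · subst h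
    have := hA.uniq i i' p' hp hp'
    subst this
    omega
  · have := hA.gap i i' p p' hp hp' h
    omega

/-- one step of (2) -/
theorem step_bound (A : ℕ → Set ℕ) (hA : IsSlots A) (P : ℕ → E 𝕜)
    (ρ : ℕ → (E 𝕜 →L[𝕜] E 𝕜)) (h : Sys A P ρ) (N n : ℕ) (hN : N < n) (hn : n ≤ 2 ^ N)
    (y z : E 𝕜) (hy : ρ n y = y) (hz : ρ N y = z) (hv : ‖ρ 0 (((S 𝕜) ^ n) y)‖ < 1) :
    ‖y - z‖ ≤ 4 * (1 / 2 : ℝ) ^ n * (1 + ‖z‖) := by
  obtain ⟨C, hCd⟩ : ∃ C : Set ℕ, C = {s | Act A N s ∧ ¬ Act A n s} := ⟨_, rfl⟩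
  have hCm : ∀ s, s ∈ C ↔ Act A N s ∧ ¬ Act A n s := fun s => by rw [hCd]; rfl
  have hC : ∀ s ∈ C, ¬ Act A 0 (n + s) := fun s hs =>
    step_bound_comb A hA N n hN hn s ((hCm s).1 hs).1 ((hCm s).1 hs).2
  have hk := key A P ρ h n y C hC
  have hyb := res_add (𝕜 := 𝕜) C y
  obtain ⟨b, hb⟩ : ∃ b, b = res 𝕜 C y := ⟨_, rfl⟩
  obtain ⟨c, hc⟩ : ∃ c, c = res 𝕜 Cᶜ y := ⟨_, rfl⟩
  rw [← hb, ← hc] at hk hyb
  have hρc : ρ N c = c := by
    have h1 : ρ N c = (ContinuousLinearMap.id 𝕜 (E 𝕜)) c := by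
      refine clm_congr (ρ N) _ c fun j hj => ?_
      have hjC : j ∉ C := by
        intro hj'
        apply hj
        rw [hc]
        exact res_apply_not_mem Cᶜ y j (fun h => h hj')
      have hyj : y j ≠ 0 := by
        have h2 : c j = y j := by
          rw [hc]
          exact res_apply_mem Cᶜ y j hjC
        rw [← h2]
        exact hj
      have hn' : ¬ Act A n j := by
        intro h2
        apply hyj
        rw [← hy]
        exact h.supp n y j h2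
      have hN' : ¬ Act A N j := fun h2 => hjC ((hCm j).2 ⟨h2, hn'⟩)
      rw [h.free N j hN']
      rfl
    exact h1
  have hz' : z = ρ N b + c := by
    rw [← hz, ← hyb, map_add, hρc]
  have hρb := h.contr N b
  have hcn : ‖c‖ ≤ ‖z‖ + ‖b‖ := by
    have h1 : c = z - ρ N b := by rw [hz']; abel
    rw [h1]
    exact (norm_sub_le _ _).trans (by linarith)
  have hyz : y - z = b - ρ N b := by
    rw [hz', ← hyb]
    abel
  have hyzn : ‖y - z‖ ≤ 2 * ‖b‖ := by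
    rw [hyz]
    exact (norm_sub_le _ _).trans (by linarith)
  have h2n : (2 : ℝ) ≤ 2 ^ n := by
    have h1 : (2 : ℝ) ^ 1 ≤ 2 ^ n := pow_le_pow_right₀ (by norm_num) (by omega)
    linarith
  have h4n : (4 : ℝ) ^ n = 2 ^ n * 2 ^ n := by rw [← mul_pow]; norm_num
  have hbn : ‖b‖ * 2 ^ n ≤ 2 * (1 + ‖z‖) := by
    have h1 : (2 : ℝ) ^ n * (2 ^ n * ‖b‖) ≤ 2 ^ n * (1 + ‖z‖ + ‖b‖) := by
      rw [← mul_assoc, ← h4n]
      have h3 : (2 : ℝ) ^ n * ‖c‖ ≤ 2 ^ n * (‖z‖ + ‖b‖) :=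
        mul_le_mul_of_nonneg_left hcn (by positivity)
      nlinarith
    have h2 := le_of_mul_le_mul_left h1 (by positivity)
    have h3 : 2 * ‖b‖ ≤ 2 ^ n * ‖b‖ := mul_le_mul_of_nonneg_right h2n (norm_nonneg _)
    linarith
  have hhalf : (1 / 2 : ℝ) ^ n * 2 ^ n = 1 := by
    rw [← mul_pow]; norm_num
  have hfin : ‖b‖ ≤ 2 * (1 / 2 : ℝ) ^ n * (1 + ‖z‖) := by
    have h1 : ‖b‖ = (1 / 2 : ℝ) ^ n * (‖b‖ * 2 ^ n) := by
      rw [mul_left_comm, hhalf, mul_one]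
    rw [h1]
    have h2 := mul_le_mul_of_nonneg_left hbn (show (0 : ℝ) ≤ (1 / 2 : ℝ) ^ n by positivity)
    linarith
  linarith

theorem iterate_limit_ex (V : Set ℕ) (hV : PosLD V) :
    ∃ N0 : ℕ, 4 ≤ N0 ∧ ∀ N, N0 ≤ N → ∃ n ∈ V, N < n ∧ n ≤ 2 ^ N := by
  obtain ⟨δ, hδ, hev⟩ := hV
  obtain ⟨M0, hM0⟩ := eventually_atTop.1 hev
  have h1 : Tendsto (fun n : ℕ => (n : ℝ) ^ 1 / (2 : ℝ) ^ n) atTop (𝓝 0) :=
    tendsto_pow_const_div_const_pow_of_one_lt 1 (by norm_num)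
  have h2 : ∀ᶠ n : ℕ in atTop, (n : ℝ) ^ 1 / (2 : ℝ) ^ n < δ / 2 :=
    h1.eventually (gt_mem_nhds (by positivity))
  obtain ⟨M1, hM1⟩ := eventually_atTop.1 h2
  refine ⟨max 4 (max M0 M1), le_max_left _ _, fun N hN => ?_⟩
  have hN4 : 4 ≤ N := (le_max_left _ _).trans hN
  have hN0 : M0 ≤ N := ((le_max_left _ _).trans (le_max_right _ _)).trans hN
  have hN1 : M1 ≤ N := ((le_max_right _ _).trans (le_max_right _ _)).trans hN
  by_contra hcon
  push Not at hcon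
  have hNle : N ≤ 2 ^ N := Nat.lt_two_pow_self.le
  have h3 := hM0 (2 ^ N) (hN0.trans hNle)
  have hsub : V ∩ Set.Iic (2 ^ N) ⊆ Set.Iic N := by
    rintro n ⟨hn, hn2⟩
    by_contra h
    exact absurd (hcon n hn (not_le.1 h)) (not_lt.2 hn2)
  have h4 : (V ∩ Set.Iic (2 ^ N)).ncard ≤ N + 1 := by
    have := Set.ncard_le_ncard hsub (Set.finite_Iic N)
    have h5 : (Set.Iic N).ncard = N + 1 := by
      rw [← Finset.coe_Iic, Set.ncard_coe_finset, Nat.card_Iic]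
    omega
  have h5 : ((V ∩ Set.Iic (2 ^ N)).ncard : ℝ) ≤ N + 1 := by exact_mod_cast h4
  have h6 := hM1 N hN1
  rw [pow_one, div_lt_iff₀ (by positivity)] at h6
  push_cast at h3
  have hNr : (4 : ℝ) ≤ N := by exact_mod_cast hN4
  nlinarith

/-- iteration in (2) -/
theorem iterate_limit {Y : Type} [NormedAddCommGroup Y] [CompleteSpace Y] (x : ℕ → Y) (V : Set ℕ)
    (hV : PosLD V)
    (hx : ∀ N n, N < n → n ≤ 2 ^ N → n ∈ V →
      ‖x n - x N‖ ≤ 4 * (1 / 2 : ℝ) ^ n * (1 + ‖x N‖)) :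
    ∃ (b : Y) (φ : ℕ → ℕ), StrictMono φ ∧ Tendsto (fun t => x (φ t)) atTop (𝓝 b) := by
  obtain ⟨N0, hN0, hex⟩ := iterate_limit_ex V hV
  have hex' : ∀ N, ∃ n, N0 ≤ N → n ∈ V ∧ N < n ∧ n ≤ 2 ^ N := by
    intro N
    by_cases h : N0 ≤ N
    · obtain ⟨n, h1, h2, h3⟩ := hex N h
      exact ⟨n, fun _ => ⟨h1, h2, h3⟩⟩
    · exact ⟨0, fun h' => absurd h' h⟩
  choose f hf using hex'
  let g : ℕ → ℕ := fun t => f^[t] N0
  have hg0 : g 0 = N0 := rfl
  have hgs : ∀ t, g (t + 1) = f (g t) := fun t => Function.iterate_succ_apply' f t N0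
  have hgt : ∀ t, N0 + t ≤ g t := by
    intro t
    induction t with
    | zero => rw [hg0]; omega
    | succ t ih =>
      have := (hf (g t) (by omega)).2.1
      rw [hgs]
      omega
  have hstep : ∀ t, g (t + 1) ∈ V ∧ g t < g (t + 1) ∧ g (t + 1) ≤ 2 ^ (g t) := by
    intro t
    rw [hgs]
    exact hf (g t) ((Nat.le_add_right _ _).trans (hgt t))
  have hd : ∀ t, ‖x (g (t + 1)) - x (g t)‖ ≤ (1 / 8) * (1 / 2 : ℝ) ^ t * (1 + ‖x (g t)‖) := by
    intro t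
    obtain ⟨h1, h2, h3⟩ := hstep t
    refine (hx (g t) (g (t + 1)) h2 h3 h1).trans ?_
    apply mul_le_mul_of_nonneg_right _ (by positivity)
    have h4 : (1 / 2 : ℝ) ^ (g (t + 1)) ≤ (1 / 2 : ℝ) ^ (4 + (t + 1)) := by
      apply pow_le_pow_of_le_one (by norm_num) (by norm_num)
      have := hgt (t + 1)
      omega
    have h5 : (1 / 2 : ℝ) ^ (4 + (t + 1)) = (1 / 32) * (1 / 2 : ℝ) ^ t := by
      rw [show 4 + (t + 1) = t + 5 by ring, pow_add]
      norm_num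
      ring
    rw [h5] at h4
    linarith
  have hh : ∀ t, 1 + ‖x (g t)‖ ≤ (1 + ‖x (g 0)‖) * (2 - (1 / 2 : ℝ) ^ t) := by
    intro t
    induction t with
    | zero => simp; norm_num
    | succ t ih =>
      have h1 : ‖x (g (t + 1))‖ ≤ ‖x (g (t + 1)) - x (g t)‖ + ‖x (g t)‖ := by
        have := norm_add_le (x (g (t + 1)) - x (g t)) (x (g t))
        rwa [sub_add_cancel] at this
      have h2 := hd t
      have hu : (0 : ℝ) < (1 / 2 : ℝ) ^ t := by positivity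
      have hu1 : (1 / 2 : ℝ) ^ t ≤ 1 := pow_le_one₀ (by norm_num) (by norm_num)
      rw [pow_succ]
      obtain ⟨u, hudef⟩ : ∃ u : ℝ, u = (1 / 2 : ℝ) ^ t := ⟨_, rfl⟩
      rw [← hudef] at ih h2 hu hu1 ⊢
      have hh0 : 0 < 1 + ‖x (g 0)‖ := by positivity
      have h3 : 1 + ‖x (g (t + 1))‖ ≤ (1 + u / 8) * (1 + ‖x (g t)‖) := by nlinarith
      have h4 : (1 + u / 8) * (1 + ‖x (g t)‖) ≤ (1 + u / 8) * ((1 + ‖x (g 0)‖) * (2 - u)) :=
        mul_le_mul_of_nonneg_left ih (by positivity)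
      have h5 : (1 + u / 8) * (2 - u) ≤ 2 - u * (1 / 2) := by nlinarith
      have h6 : (1 + u / 8) * ((1 + ‖x (g 0)‖) * (2 - u)) =
          (1 + ‖x (g 0)‖) * ((1 + u / 8) * (2 - u)) := by ring
      have h7 := mul_le_mul_of_nonneg_left h5 hh0.le
      linarith
  have hcs : CauchySeq (fun t => x (g t)) := by
    refine cauchySeq_of_le_geometric (1 / 2) (1 + ‖x (g 0)‖) (by norm_num) fun t => ?_
    rw [dist_comm, dist_eq_norm]
    refine (hd t).trans ?_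
    have h1 := hh t
    have hu : (0 : ℝ) < (1 / 2 : ℝ) ^ t := by positivity
    obtain ⟨u, hudef⟩ : ∃ u : ℝ, u = (1 / 2 : ℝ) ^ t := ⟨_, rfl⟩
    rw [← hudef] at h1 hu ⊢
    have hh0 : 0 < 1 + ‖x (g 0)‖ := by positivity
    have h2 : 1 + ‖x (g t)‖ ≤ 2 * (1 + ‖x (g 0)‖) := by nlinarith
    have h3 : 1 / 8 * u * (1 + ‖x (g t)‖) ≤ 1 / 8 * u * (2 * (1 + ‖x (g 0)‖)) :=
      mul_le_mul_of_nonneg_left h2 (by positivity)
    nlinarith
  obtain ⟨b, hb⟩ := cauchySeq_tendsto_of_complete hcs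
  exact ⟨b, g, strictMono_nat_of_lt_succ fun t => (hstep t).2.1, hb⟩

/-- (3) -/
theorem finite_support (A : ℕ → Set ℕ) (hM : Mixing A) (P : ℕ → E 𝕜)
    (ρ : ℕ → (E 𝕜 →L[𝕜] E 𝕜)) (h : Sys A P ρ) (b : E 𝕜)
    (hb : PosLD {n : ℕ | ‖ρ 0 (((S 𝕜) ^ n) b)‖ < 1}) : {j : ℕ | b j ≠ 0}.Finite := by
  by_contra hinf
  obtain ⟨δ, hδ, hev⟩ := hb
  obtain ⟨F, hF, hfreq⟩ := hM {j : ℕ | b j ≠ 0} hinf (δ / 2) (half_pos hδ)
  set V : Set ℕ := {n : ℕ | ‖ρ 0 (((S 𝕜) ^ n) b)‖ < 1} with hV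
  have hj : ∀ j : ℕ, b j ≠ 0 → ∃ n0 : ℕ, ∀ n, n0 ≤ n → n ∈ V → Act A 0 (n + j) := by
    intro j hbj
    have hc : 0 < ‖b j‖ := norm_pos_iff.mpr hbj
    obtain ⟨n0, hn0⟩ := pow_unbounded_of_one_lt ((1 + ‖b‖) / ‖b j‖) (one_lt_two : (1 : ℝ) < 2)
    refine ⟨n0, ?_⟩
    intro n hn hnV
    by_contra hAct
    have hk := key A P ρ h n b {j} (by
      intro s hs
      rw [Set.mem_singleton_iff] at hs
      rw [hs]; exact hAct)
    have h1 : ‖b j‖ ≤ ‖res 𝕜 {j} b‖ := by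
      have h2 := lp.norm_apply_le_norm (one_ne_zero) (res 𝕜 {j} b) j
      rw [res_apply_mem {j} b j (Set.mem_singleton j)] at h2
      exact h2
    have h3 : ‖res 𝕜 ({j} : Set ℕ)ᶜ b‖ ≤ ‖b‖ := by
      have h4 := res_norm ({j} : Set ℕ) b
      have h5 := norm_nonneg (res 𝕜 ({j} : Set ℕ) b)
      linarith
    have h6 : ‖ρ 0 (((S 𝕜) ^ n) b)‖ < 1 := hnV
    have h7 : (1 : ℝ) ≤ 2 ^ n := one_le_pow₀ one_le_two
    have h8 : (2 : ℝ) ^ n0 ≤ 2 ^ n := pow_le_pow_right₀ one_le_two hn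
    have h9 : (1 + ‖b‖) < 2 ^ n * ‖b j‖ := by
      rw [div_lt_iff₀ hc] at hn0
      exact lt_of_lt_of_le hn0 (mul_le_mul_of_nonneg_right h8 hc.le)
    have h10 : (4 : ℝ) ^ n = 2 ^ n * 2 ^ n := by
      rw [← mul_pow]; norm_num
    have h11 : (4 : ℝ) ^ n * ‖b j‖ ≤ 4 ^ n * ‖res 𝕜 ({j} : Set ℕ) b‖ :=
      mul_le_mul_of_nonneg_left h1 (by positivity)
    have h12 : (2 : ℝ) ^ n * ‖res 𝕜 ({j} : Set ℕ)ᶜ b‖ ≤ 2 ^ n * ‖b‖ :=
      mul_le_mul_of_nonneg_left h3 (by positivity)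
    have h13 : (2 : ℝ) ^ n * (1 + ‖b‖) < 2 ^ n * (2 ^ n * ‖b j‖) :=
      mul_lt_mul_of_pos_left h9 (by positivity)
    rw [h10] at h11 hk
    nlinarith
  choose! nj hnj using hj
  set n0 := F.sup nj with hn0
  have hall : ∀ n, n0 ≤ n → n ∈ V → ∀ j ∈ F, Act A 0 (n + j) := by
    intro n hn hnV j hjF
    exact hnj j (hF hjF) n ((Finset.le_sup hjF).trans hn) hnV
  have hcard : ∀ N : ℕ, ((V ∩ Set.Iic N).ncard : ℝ) ≤ n0 +
      (({n : ℕ | ∀ j ∈ F, Act A 0 (n + j)} ∩ Set.Iic N).ncard : ℝ) := by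
    intro N
    have hsub : V ∩ Set.Iic N ⊆ Set.Iio n0 ∪ ({n : ℕ | ∀ j ∈ F, Act A 0 (n + j)} ∩ Set.Iic N) := by
      rintro n ⟨hnV, hnN⟩
      by_cases hn : n < n0
      · exact Or.inl hn
      · exact Or.inr ⟨hall n (not_lt.mp hn) hnV, hnN⟩
    have hfin : (Set.Iio n0 ∪ ({n : ℕ | ∀ j ∈ F, Act A 0 (n + j)} ∩ Set.Iic N)).Finite :=
      (Set.finite_Iio n0).union ((Set.finite_Iic N).subset Set.inter_subset_right)
    have h1 := (Set.ncard_le_ncard hsub hfin).trans (Set.ncard_union_le _ _)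
    have h2 : (Set.Iio n0).ncard = n0 := by
      rw [← Finset.coe_Iio, Set.ncard_coe_finset, Nat.card_Iio]
    rw [h2] at h1
    exact_mod_cast h1
  obtain ⟨N, hN1, hN2, hN3⟩ := (hfreq.and_eventually
    (hev.and (eventually_gt_atTop ⌈2 * (n0 : ℝ) / δ⌉₊))).exists
  have h4 : 2 * (n0 : ℝ) / δ < N := lt_of_le_of_lt (Nat.le_ceil _) (by exact_mod_cast hN3)
  rw [div_lt_iff₀ hδ] at h4
  have h5 := hcard N
  nlinarith

theorem et_sep : TopologicalSpace.SeparableSpace (E 𝕜) := by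
  rw [← TopologicalSpace.isSeparable_univ_iff]
  have h1 : TopologicalSpace.IsSeparable (Set.range (e 𝕜)) := (Set.countable_range _).isSeparable
  have h2 := (h1.span (R := 𝕜)).closure
  refine h2.mono fun a _ => ?_
  refine mem_closure_of_tendsto (hasSum_e a) (Eventually.of_forall fun s => ?_)
  exact Submodule.sum_mem _ fun j _ => Submodule.smul_mem _ _ (Submodule.subset_span ⟨j, rfl⟩)

/-- truncation -/
noncomputable def etT (n : ℕ) (a : E 𝕜) : E 𝕜 := ∑ j ∈ Finset.range n, a j • e 𝕜 j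

theorem etT_apply (n : ℕ) (a : E 𝕜) (l : ℕ) (hl : n ≤ l) : etT n a l = 0 := by
  unfold etT
  rw [lp.coeFn_sum, Finset.sum_apply]
  refine Finset.sum_eq_zero fun j hj => ?_
  rw [lp.coeFn_smul, Pi.smul_apply, e_apply, if_neg, smul_zero]
  have := Finset.mem_range.1 hj
  omega

theorem exists_targets (𝕜 : Type) [RCLike 𝕜] : ∃ P : ℕ → E 𝕜, (∀ i, ‖P i‖ ≤ 2 ^ i) ∧
    (∀ i l, i < l → P i l = 0) ∧
    (∀ (u : E 𝕜) (ε : ℝ) (k : ℕ), 0 < ε → ∃ i, k ≤ i ∧ ‖P i - u‖ < ε) := by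
  classical
  haveI := et_sep (𝕜 := 𝕜)
  let V : ℕ → E 𝕜 := fun i =>
    etT (Nat.unpair (Nat.unpair i).1).2
      (TopologicalSpace.denseSeq (E 𝕜) (Nat.unpair (Nat.unpair i).1).1)
  refine ⟨fun i => if ‖V i‖ ≤ 2 ^ i then V i else 0, ?_, ?_, ?_⟩
  · intro i
    by_cases h : ‖V i‖ ≤ 2 ^ i
    · simp only [if_pos h]; exact h
    · simp only [if_neg h, norm_zero]; positivity
  · intro i l hl
    by_cases h : ‖V i‖ ≤ 2 ^ i
    · simp only [if_pos h]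
      refine etT_apply _ _ _ ?_
      have h1 := Nat.unpair_right_le (Nat.unpair i).1
      have h2 := Nat.unpair_left_le i
      omega
    · simp only [if_neg h]; rfl
  · intro u ε k hε
    obtain ⟨m, hm⟩ : ∃ m, ‖TopologicalSpace.denseSeq (E 𝕜) m - u‖ < ε / 2 := by
      have h1 := (TopologicalSpace.denseRange_denseSeq (E 𝕜)).exists_dist_lt u (half_pos hε)
      obtain ⟨m, hm⟩ := h1
      exact ⟨m, by rw [← dist_eq_norm, dist_comm]; exact hm⟩
    set w := TopologicalSpace.denseSeq (E 𝕜) m with hw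
    obtain ⟨n, hn⟩ : ∃ n, ‖etT n w - w‖ < ε / 2 := by
      have h1 := (hasSum_e w).tendsto_sum_nat
      rw [Metric.tendsto_atTop] at h1
      obtain ⟨n, hn⟩ := h1 (ε / 2) (half_pos hε)
      exact ⟨n, by rw [← dist_eq_norm]; exact hn n le_rfl⟩
    obtain ⟨t0, ht0⟩ := pow_unbounded_of_one_lt ‖etT n w‖ (one_lt_two : (1 : ℝ) < 2)
    set i := Nat.pair (Nat.pair m n) (max t0 k) with hi
    have hV : V i = etT n w := by
      simp only [V, hi, Nat.unpair_pair]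
      rfl
    have hti : max t0 k ≤ i := Nat.right_le_pair _ _
    have hle : ‖V i‖ ≤ 2 ^ i := by
      rw [hV]
      exact ht0.le.trans (pow_le_pow_right₀ one_le_two ((le_max_left _ _).trans hti))
    refine ⟨i, (le_max_right _ _).trans hti, ?_⟩
    simp only [if_pos hle]
    rw [hV]
    calc ‖etT n w - u‖ = ‖(etT n w - w) + (w - u)‖ := by rw [sub_add_sub_cancel]
      _ ≤ ‖etT n w - w‖ + ‖w - u‖ := norm_add_le _ _
      _ < ε / 2 + ε / 2 := add_lt_add hn hm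
      _ = ε := add_halves ε

end sys

lemma ld_ncard_le (A : Set ℕ) (N : ℕ) : ((A ∩ Set.Iic N).ncard : ℝ) ≤ N + 1 := by
  have h1 : (A ∩ Set.Iic N).ncard ≤ (Set.Iic N).ncard :=
    Set.ncard_le_ncard Set.inter_subset_right (Set.finite_Iic N)
  have h2 : (Set.Iic N).ncard = N + 1 := by
    rw [← Finset.coe_Iic, Set.ncard_coe_finset]
    simp
  rw [h2] at h1
  exact_mod_cast h1

lemma ld_nonneg (A : Set ℕ) (N : ℕ) : (0 : ℝ) ≤ ((A ∩ Set.Iic N).ncard : ℝ) / (N : ℝ) := by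
  positivity

lemma ld_le_two (A : Set ℕ) (N : ℕ) : ((A ∩ Set.Iic N).ncard : ℝ) / (N : ℝ) ≤ 2 := by
  rcases Nat.eq_zero_or_pos N with h | h
  · subst h
    simp
  · have hN : (1 : ℝ) ≤ N := by exact_mod_cast h
    rw [div_le_iff₀ (by linarith)]
    have := ld_ncard_le A N
    linarith

theorem lowerDensity_pos_iff (A : Set ℕ) : 0 < lowerDensity A ↔ PosLD A := by
  have hb1 : IsBoundedUnder (· ≥ ·) atTop
      (fun N : ℕ => ((A ∩ Set.Iic N).ncard : ℝ) / (N : ℝ)) :=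
    isBoundedUnder_of ⟨0, fun N => ld_nonneg A N⟩
  have hb2 : IsBoundedUnder (· ≤ ·) atTop
      (fun N : ℕ => ((A ∩ Set.Iic N).ncard : ℝ) / (N : ℝ)) :=
    isBoundedUnder_of ⟨2, fun N => ld_le_two A N⟩
  constructor
  · intro h
    obtain ⟨δ, h0, h1⟩ := exists_between h
    refine ⟨δ, h0, ?_⟩
    have h2 := Filter.eventually_lt_of_lt_liminf h1 hb1
    filter_upwards [h2, Filter.eventually_ge_atTop 1] with N hN hN1
    have hN0 : (0 : ℝ) < N := by exact_mod_cast hN1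
    rw [lt_div_iff₀ hN0] at hN
    exact hN.le
  · rintro ⟨δ, h0, h1⟩
    refine lt_of_lt_of_le h0 ?_
    unfold lowerDensity
    refine Filter.le_liminf_of_le hb2.isCoboundedUnder_ge ?_
    filter_upwards [h1, Filter.eventually_ge_atTop 1] with N hN hN1
    have hN0 : (0 : ℝ) < N := by exact_mod_cast hN1
    rw [le_div_iff₀ hN0]
    exact hN

theorem PosLD.mono {A B : Set ℕ} (h : PosLD A) (hAB : A ⊆ B) : PosLD B := by
  obtain ⟨δ, h0, h1⟩ := h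
  refine ⟨δ, h0, ?_⟩
  filter_upwards [h1] with N hN
  refine hN.trans ?_
  have : (A ∩ Set.Iic N).ncard ≤ (B ∩ Set.Iic N).ncard :=
    Set.ncard_le_ncard (Set.inter_subset_inter_left _ hAB)
      ((Set.finite_Iic N).subset Set.inter_subset_right)
  exact_mod_cast this

section space

variable {𝕜 : Type} [RCLike 𝕜]

/-- The projective limit. -/
def X (ρ : ℕ → (E 𝕜 →L[𝕜] E 𝕜)) : Submodule 𝕜 (ℕ → E 𝕜) where
  carrier := {x | ∀ k, ρ k (x (k + 1)) = x k}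
  add_mem' := by
    intro x y hx hy k
    simp only [Set.mem_ofPred_eq] at hx hy
    simp [hx k, hy k]
  zero_mem' := by
    intro k
    simp
  smul_mem' := by
    intro c x hx k
    simp only [Set.mem_ofPred_eq] at hx
    simp [hx k]

theorem X_isClosed (ρ : ℕ → (E 𝕜 →L[𝕜] E 𝕜)) : IsClosed (X ρ : Set (ℕ → E 𝕜)) := by
  have h : (X ρ : Set (ℕ → E 𝕜)) = ⋂ k, {x : ℕ → E 𝕜 | ρ k (x (k + 1)) = x k} := by
    ext x
    rw [Set.mem_iInter]
    rfl
  rw [h]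
  refine isClosed_iInter fun k => isClosed_eq ?_ (continuous_apply k)
  exact (ρ k).continuous.comp (continuous_apply (k + 1))

instance X_complete (ρ : ℕ → (E 𝕜 →L[𝕜] E 𝕜)) : CompleteSpace (X ρ) :=
  (X_isClosed ρ).completeSpace_coe

theorem X_uniformAddGroup (ρ : ℕ → (E 𝕜 →L[𝕜] E 𝕜)) : IsUniformAddGroup (X ρ) :=
  (inferInstance : IsUniformAddGroup (X ρ).toAddSubgroup)

theorem X_metrizable (ρ : ℕ → (E 𝕜 →L[𝕜] E 𝕜)) : TopologicalSpace.MetrizableSpace (X ρ) := by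
  have : (uniformity (X ρ)).IsCountablyGenerated := by
    rw [uniformity_subtype]
    infer_instance
  exact UniformSpace.metrizableSpace

theorem E_separable (𝕜 : Type) [RCLike 𝕜] : TopologicalSpace.SeparableSpace (E 𝕜) := by
  have h1 : TopologicalSpace.IsSeparable (Set.range (e 𝕜)) :=
    (Set.countable_range _).isSeparable
  have h2 : TopologicalSpace.IsSeparable (Submodule.span 𝕜 (Set.range (e 𝕜)) : Set (E 𝕜)) :=
    h1.span
  have h3 : closure (Submodule.span 𝕜 (Set.range (e 𝕜)) : Set (E 𝕜)) = Set.univ := by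
    rw [Set.eq_univ_iff_forall]
    intro a
    refine mem_closure_of_tendsto (hasSum_e a) (Filter.Eventually.of_forall fun s => ?_)
    exact Submodule.sum_mem _ fun j _ => Submodule.smul_mem _ _
      (Submodule.subset_span (Set.mem_range_self j))
  have h4 := h2.closure
  rw [h3] at h4
  exact TopologicalSpace.isSeparable_univ_iff.1 h4

theorem X_separable (ρ : ℕ → (E 𝕜 →L[𝕜] E 𝕜)) :
    TopologicalSpace.SeparableSpace (X ρ) := by
  haveI := E_separable 𝕜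
  haveI : SecondCountableTopology (E 𝕜) := UniformSpace.secondCountable_of_separable (E 𝕜)
  haveI : SecondCountableTopology (X ρ) := TopologicalSpace.Subtype.secondCountableTopology _
  infer_instance

/-- the operator `(T x)_k = ρ_k (S x_{k+1})` -/
noncomputable def T {A : ℕ → Set ℕ} {P : ℕ → E 𝕜} {ρ : ℕ → (E 𝕜 →L[𝕜] E 𝕜)} (h : Sys A P ρ) :
    X ρ →L[𝕜] X ρ where
  toFun x := ⟨fun k => ρ k (S 𝕜 (x.1 (k + 1))), by
    intro k
    have h1 := x.2 (k + 1)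
    calc ρ k (ρ (k + 1) (S 𝕜 (x.1 (k + 1 + 1)))) = ρ k (S 𝕜 (x.1 (k + 1 + 1))) := h.step k _
      _ = ρ k (S 𝕜 (ρ (k + 1) (x.1 (k + 1 + 1)))) := (h.shift k _).symm
      _ = ρ k (S 𝕜 (x.1 (k + 1))) := by rw [h1]⟩
  map_add' := by
    intro x y
    apply Subtype.ext
    funext k
    simp
  map_smul' := by
    intro c x
    apply Subtype.ext
    funext k
    simp
  cont := by
    apply Continuous.subtype_mk
    apply continuous_pi
    intro k
    exact (ρ k).continuous.comp ((S 𝕜).continuous.comp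
      ((continuous_apply (k + 1)).comp continuous_subtype_val))

theorem T_apply {A : ℕ → Set ℕ} {P : ℕ → E 𝕜} {ρ : ℕ → (E 𝕜 →L[𝕜] E 𝕜)} (h : Sys A P ρ)
    (x : X ρ) (k : ℕ) : (T h x).1 k = ρ k (S 𝕜 (x.1 (k + 1))) := rfl

theorem T_pow_apply {A : ℕ → Set ℕ} {P : ℕ → E 𝕜} {ρ : ℕ → (E 𝕜 →L[𝕜] E 𝕜)} (h : Sys A P ρ)
    (n : ℕ) (x : X ρ) (k : ℕ) :
    (((T h) ^ n) x).1 k = ρ k (((S 𝕜) ^ n) (x.1 (k + n))) := by
  induction n generalizing k with
  | zero =>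
    have h1 : ρ k (x.1 (k + 1)) = x.1 k := x.2 k
    show x.1 k = ρ k (x.1 k)
    conv_rhs => rw [← h1, h.idem]
    exact h1.symm
  | succ n ih =>
    rw [pow_succ', ContinuousLinearMap.mul_apply, T_apply, ih, h.shift, pow_succ',
      ContinuousLinearMap.mul_apply]
    rw [show k + 1 + n = k + (n + 1) by ring]

/-- the embedding `ι a = (ρ_k a)_k` -/
noncomputable def iota {A : ℕ → Set ℕ} {P : ℕ → E 𝕜} {ρ : ℕ → (E 𝕜 →L[𝕜] E 𝕜)}
    (h : Sys A P ρ) : E 𝕜 →L[𝕜] X ρ where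
  toFun a := ⟨fun k => ρ k a, fun k => h.step k a⟩
  map_add' := by
    intro x y
    apply Subtype.ext
    funext k
    simp
  map_smul' := by
    intro c x
    apply Subtype.ext
    funext k
    simp
  cont := by
    apply Continuous.subtype_mk
    apply continuous_pi
    intro k
    exact (ρ k).continuous

theorem iota_apply {A : ℕ → Set ℕ} {P : ℕ → E 𝕜} {ρ : ℕ → (E 𝕜 →L[𝕜] E 𝕜)} (h : Sys A P ρ)
    (a : E 𝕜) (k : ℕ) : (iota h a).1 k = ρ k a := rfl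

theorem T_iota {A : ℕ → Set ℕ} {P : ℕ → E 𝕜} {ρ : ℕ → (E 𝕜 →L[𝕜] E 𝕜)} (h : Sys A P ρ)
    (a : E 𝕜) : T h (iota h a) = iota h (S 𝕜 a) := by
  apply Subtype.ext
  funext k
  exact h.shift k a

theorem X_down {A : ℕ → Set ℕ} {P : ℕ → E 𝕜} {ρ : ℕ → (E 𝕜 →L[𝕜] E 𝕜)} (h : Sys A P ρ)
    (x : X ρ) (k l : ℕ) (hkl : k ≤ l) : ρ k (x.1 l) = x.1 k := by
  induction l, hkl using Nat.le_induction with
  | base =>
    have h1 : ρ k (x.1 (k + 1)) = x.1 k := x.2 k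
    conv_lhs => rw [← h1, h.idem]
    exact h1
  | succ l hkl ih =>
    have h1 : ρ l (x.1 (l + 1)) = x.1 l := x.2 l
    rw [← ih, ← h1, sys_comp A P ρ h k l hkl]

/-- `iota` is injective on finitely supported vectors -/
theorem iota_inj {A : ℕ → Set ℕ} (hA : IsSlots A) {P : ℕ → E 𝕜} {ρ : ℕ → (E 𝕜 →L[𝕜] E 𝕜)}
    (h : Sys A P ρ) (a : E 𝕜) (ha : {j : ℕ | a j ≠ 0}.Finite) (h0 : iota h a = 0) : a = 0 := by
  obtain ⟨k, hk⟩ := ha.bddAbove
  have h1 : ∀ j, a j ≠ 0 → ¬ Act A k j := by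
    rintro j hj ⟨i, n, m, hn, hjn, hm⟩
    have h2 := hA.large i n hn
    have h3 : j ≤ k := hk hj
    omega
  have h2 : ρ k a = (ContinuousLinearMap.id 𝕜 (E 𝕜)) a :=
    clm_congr (ρ k) (ContinuousLinearMap.id 𝕜 (E 𝕜)) a (fun j hj => h.free k j (h1 j hj))
  have h3 : (iota h a).1 k = 0 := by rw [h0]; rfl
  rw [iota_apply, h2] at h3
  exact h3

theorem X_not_finiteDimensional {A : ℕ → Set ℕ} (hA : IsSlots A) {P : ℕ → E 𝕜}
    {ρ : ℕ → (E 𝕜 →L[𝕜] E 𝕜)} (h : Sys A P ρ) : ¬ FiniteDimensional 𝕜 (X ρ) := by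
  intro hfd
  have hli : LinearIndependent 𝕜 (fun j : ℕ => iota h (e 𝕜 j)) := by
    rw [linearIndependent_iff']
    intro s g hg j hj
    have hcoord : ∀ l : ℕ, (∑ i ∈ s, g i • e 𝕜 i : E 𝕜) l = if l ∈ s then g l else 0 := by
      intro l
      rw [lp.coeFn_sum, Finset.sum_apply]
      have h1 : ∀ i ∈ s, (g i • e 𝕜 i : E 𝕜) l = if l = i then g i else 0 := by
        intro i _
        rw [lp.coeFn_smul, Pi.smul_apply, e_apply, smul_eq_mul]
        split_ifs <;> simp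
      rw [Finset.sum_congr rfl h1, Finset.sum_ite_eq s l (fun i => g i)]
    have h2 : (∑ i ∈ s, g i • e 𝕜 i : E 𝕜) = 0 := by
      refine iota_inj hA h _ ?_ ?_
      · refine (s.finite_toSet).subset fun l hl => ?_
        by_contra hls
        apply hl
        rw [hcoord l]
        exact if_neg hls
      · rw [map_sum]
        simp only [map_smul]
        exact hg
    have h3 := hcoord j
    rw [h2, if_pos hj] at h3
    exact h3.symm
  have : Finite ℕ := hli.finite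
  exact not_finite ℕ

/-- a basis of open sets: every nonempty open set contains a set `{x : ‖x_k - u_k‖ < ε}` -/
theorem open_contains {A : ℕ → Set ℕ} {P : ℕ → E 𝕜} {ρ : ℕ → (E 𝕜 →L[𝕜] E 𝕜)}
    (h : Sys A P ρ) (U : Set (X ρ)) (hU : IsOpen U) (hne : U.Nonempty) :
    ∃ (u : X ρ) (k : ℕ) (ε : ℝ), 0 < ε ∧ ∀ x : X ρ, ‖x.1 k - u.1 k‖ < ε → x ∈ U := by
  obtain ⟨u, hu⟩ := hne
  obtain ⟨t, ht, htU⟩ := isOpen_induced_iff.1 hU
  have hut : u.1 ∈ t := by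
    have : u ∈ Subtype.val ⁻¹' t := by rw [htU]; exact hu
    exact this
  obtain ⟨I, s, hs, hst⟩ := isOpen_pi_iff.1 ht u.1 hut
  have hev : ∀ᶠ ε in 𝓝[>] (0 : ℝ), ∀ i ∈ I, Metric.ball (u.1 i) ε ⊆ s i := by
    rw [Filter.eventually_all_finset]
    intro i hi
    obtain ⟨r, hr, hrs⟩ := Metric.isOpen_iff.1 (hs i hi).1 (u.1 i) (hs i hi).2
    have h1 : ∀ᶠ ε in 𝓝[>] (0 : ℝ), ε < r :=
      mem_nhdsWithin_of_mem_nhds (Iio_mem_nhds hr)
    filter_upwards [h1] with ε hε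
    exact (Metric.ball_subset_ball hε.le).trans hrs
  obtain ⟨ε, hε, hε0⟩ := (hev.and self_mem_nhdsWithin).exists
  refine ⟨u, I.sup id, ε, hε0, fun x hx => ?_⟩
  have h2 : x ∈ Subtype.val ⁻¹' t := by
    apply hst
    intro l hl
    apply hε l hl
    have hlk : l ≤ I.sup id := Finset.le_sup (f := id) hl
    rw [mem_ball_iff_norm, ← X_down h x l _ hlk, ← X_down h u l _ hlk, ← map_sub]
    exact (h.contr _ _).trans_lt hx
  rw [htU] at h2
  exact h2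

end space

section dynamics

/-- `x` is a frequently hypercyclic vector for `T`. -/
def IsFHCVector {𝕜 : Type} [RCLike 𝕜] {Y : Type} [AddCommGroup Y] [Module 𝕜 Y]
    [TopologicalSpace Y] (T : Y →L[𝕜] Y) (x : Y) : Prop :=
  ∀ U : Set Y, IsOpen U → U.Nonempty → 0 < lowerDensity {n : ℕ | (T ^ n) x ∈ U}

/-- `T` is frequently hypercyclic. -/
def IsFHC {𝕜 : Type} [RCLike 𝕜] {Y : Type} [AddCommGroup Y] [Module 𝕜 Y]
    [TopologicalSpace Y] (T : Y →L[𝕜] Y) : Prop := ∃ x : Y, IsFHCVector T x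

variable {𝕜 : Type} [RCLike 𝕜]

theorem fhc836_T_pow_iota {A : ℕ → Set ℕ} {P : ℕ → E 𝕜} {ρ : ℕ → (E 𝕜 →L[𝕜] E 𝕜)}
    (h : Sys A P ρ) (n : ℕ) : ∀ a, ((T h) ^ n) (iota h a) = iota h (((S 𝕜) ^ n) a) := by
  induction n with
  | zero => intro a; rfl
  | succ n ih =>
    intro a
    rw [pow_succ, pow_succ]
    change ((T h) ^ n) (T h (iota h a)) = iota h (((S 𝕜) ^ n) (S 𝕜 a))
    rw [T_iota, ih]

theorem fhc_e0 {A : ℕ → Set ℕ} (hLD : ∀ i, PosLD (A i)) {P : ℕ → E 𝕜}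
    (hP : ∀ (u : E 𝕜) (ε : ℝ) (k : ℕ), 0 < ε → ∃ i, k ≤ i ∧ ‖P i - u‖ < ε)
    {ρ : ℕ → (E 𝕜 →L[𝕜] E 𝕜)} (h : Sys A P ρ) : IsFHCVector (T h) (iota h (e 𝕜 0)) := by
  intro U hU hne
  obtain ⟨u, k, ε, hε, hUx⟩ := open_contains h U hU hne
  obtain ⟨i, hki, hi⟩ := hP (u.1 k) ε k hε
  rw [lowerDensity_pos_iff]
  apply (hLD i).mono
  intro n hn
  change ((T h) ^ n) (iota h (e 𝕜 0)) ∈ U
  apply hUx
  rw [fhc836_T_pow_iota, iota_apply, h.act k i n hn hki]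
  have h1 : u.1 k = ρ k (u.1 k) := (X_down h u k k le_rfl).symm
  have h2 : ρ k (P i) - u.1 k = ρ k (P i - u.1 k) := by
    rw [map_sub, ← h1]
  rw [h2]
  exact lt_of_le_of_lt (h.contr k _) hi

/-- (2)+(3) -/
theorem visit_zero {A : ℕ → Set ℕ} (hA : IsSlots A) (hM : Mixing A) {P : ℕ → E 𝕜}
    {ρ : ℕ → (E 𝕜 →L[𝕜] E 𝕜)} (h : Sys A P ρ) (x : X ρ)
    (hx : PosLD {n : ℕ | ‖(((T h) ^ n) x).1 0‖ < 1}) :
    ∃ b : E 𝕜, {j : ℕ | b j ≠ 0}.Finite ∧ x = iota h b := by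
  have hTn : ∀ n, (((T h) ^ n) x).1 0 = ρ 0 (((S 𝕜) ^ n) (x.1 n)) := by
    intro n
    rw [T_pow_apply, zero_add]
  obtain ⟨b, φ, hφ, hb⟩ := iterate_limit (fun k => x.1 k) _ hx (fun N n hN hn hv =>
    step_bound A hA P ρ h N n hN hn (x.1 n) (x.1 N) (X_down h x n n le_rfl)
      (X_down h x N n hN.le) (by rw [← hTn]; exact hv))
  have hxb : x = iota h b := by
    apply Subtype.ext
    funext k
    rw [iota_apply]
    have h1 : Tendsto (fun t => ρ k (x.1 (φ t))) atTop (𝓝 (ρ k b)) :=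
      ((ρ k).continuous.tendsto b).comp hb
    have h2 : Tendsto (fun t => ρ k (x.1 (φ t))) atTop (𝓝 (x.1 k)) := by
      refine tendsto_const_nhds.congr' ?_
      filter_upwards [eventually_ge_atTop k] with t ht
      exact (X_down h x k (φ t) (ht.trans (hφ.id_le t))).symm
    exact tendsto_nhds_unique h2 h1
  have hT : ∀ n, ((T h) ^ n) (iota h b) = iota h (((S 𝕜) ^ n) b) := by
    intro n
    induction n with
    | zero => rfl
    | succ n ih =>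
      rw [pow_succ', pow_succ']
      show T h (((T h) ^ n) (iota h b)) = iota h (S 𝕜 (((S 𝕜) ^ n) b))
      rw [ih, T_iota]
  refine ⟨b, finite_support A hM P ρ h b ?_, hxb⟩
  have h3 : {n : ℕ | ‖(((T h) ^ n) x).1 0‖ < 1} = {n : ℕ | ‖ρ 0 (((S 𝕜) ^ n) b)‖ < 1} := by
    ext n
    show ‖(((T h) ^ n) x).1 0‖ < 1 ↔ ‖ρ 0 (((S 𝕜) ^ n) b)‖ < 1
    rw [hxb, hT n, iota_apply]
  rw [← h3]
  exact hx

theorem T_pow_iota {A : ℕ → Set ℕ} {P : ℕ → E 𝕜}
    {ρ : ℕ → (E 𝕜 →L[𝕜] E 𝕜)} (h : Sys A P ρ) (a : E 𝕜) (n : ℕ) :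
    ((T h) ^ n) (iota h a) = iota h (((S 𝕜) ^ n) a) := by
  induction n generalizing a with
  | zero => simp
  | succ n ih => rw [pow_succ, mul_apply_eq_comp, T_iota, ih, pow_succ, mul_apply_eq_comp]

/-- the polynomial of a finitely supported vector in the operator -/
noncomputable def polT {A : ℕ → Set ℕ} {P : ℕ → E 𝕜}
    {ρ : ℕ → (E 𝕜 →L[𝕜] E 𝕜)} (h : Sys A P ρ) (a : E 𝕜) (F : Finset ℕ) : X ρ →L[𝕜] X ρ :=
  ∑ j ∈ F, (a j * ((4 : 𝕜) ^ j)⁻¹) • (T h) ^ j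

theorem polT_iota {A : ℕ → Set ℕ} {P : ℕ → E 𝕜}
    {ρ : ℕ → (E 𝕜 →L[𝕜] E 𝕜)} (h : Sys A P ρ) (a : E 𝕜) (ha : {j : ℕ | a j ≠ 0}.Finite) :
    polT h a ha.toFinset (iota h (e 𝕜 0)) = iota h a := by
  have h1 : a = ∑ j ∈ ha.toFinset, a j • e 𝕜 j := by
    have h2 : HasSum (fun j => a j • e 𝕜 j) (∑ j ∈ ha.toFinset, a j • e 𝕜 j) := by
      apply hasSum_sum_of_ne_finset_zero
      intro j hj
      have h3 : a j = 0 := by
        by_contra h4
        exact hj (ha.mem_toFinset.2 h4)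
      rw [h3, zero_smul]
    exact (hasSum_e a).unique h2
  have h5 : iota h a = ∑ j ∈ ha.toFinset, a j • iota h (e 𝕜 j) := by
    conv_lhs => rw [h1]
    rw [map_sum]
    simp only [map_smul]
  rw [h5, polT, sum_apply]
  apply Finset.sum_congr rfl
  intro j _
  rw [smul_apply, T_pow_iota, S_pow_e, zero_add, map_smul, smul_smul, mul_assoc,
    inv_mul_cancel₀ (pow_ne_zero _ (by norm_num : (4 : 𝕜) ≠ 0)), mul_one]

theorem polT_comm_pow {A : ℕ → Set ℕ} {P : ℕ → E 𝕜}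
    {ρ : ℕ → (E 𝕜 →L[𝕜] E 𝕜)} (h : Sys A P ρ) (a : E 𝕜) (F : Finset ℕ) (n : ℕ) (x : X ρ) :
    polT h a F (((T h) ^ n) x) = ((T h) ^ n) (polT h a F x) := by
  unfold polT
  rw [sum_apply, sum_apply, map_sum]
  apply Finset.sum_congr rfl
  intro j _
  rw [smul_apply, smul_apply, map_smul, ← mul_apply_eq_comp, ← mul_apply_eq_comp, ← pow_add,
    ← pow_add, add_comm]

theorem polT_comm {A : ℕ → Set ℕ} {P : ℕ → E 𝕜}
    {ρ : ℕ → (E 𝕜 →L[𝕜] E 𝕜)} (h : Sys A P ρ) (a b : E 𝕜) (F G : Finset ℕ) (x : X ρ) :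
    polT h a F (polT h b G x) = polT h b G (polT h a F x) := by
  have e1 : ∀ y, polT h b G y = ∑ j ∈ G, (b j * ((4 : 𝕜) ^ j)⁻¹) • ((T h) ^ j) y := by
    intro y
    unfold polT
    rw [sum_apply]
    rfl
  rw [e1, e1, map_sum]
  apply Finset.sum_congr rfl
  intro j _
  rw [map_smul, polT_comm_pow]

/-- (4) -/
theorem pair_not_dense {A : ℕ → Set ℕ} (hA : IsSlots A) {P : ℕ → E 𝕜}
    {ρ : ℕ → (E 𝕜 →L[𝕜] E 𝕜)} (h : Sys A P ρ) (a b : E 𝕜)
    (ha : {j : ℕ | a j ≠ 0}.Finite) (hb : {j : ℕ | b j ≠ 0}.Finite) :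
    ¬ Dense (Set.range (fun n : ℕ => (((T h) ^ n) (iota h a), ((T h) ^ n) (iota h b)))) := by
  intro hd
  set pa := polT h a ha.toFinset with hpa
  set pb := polT h b hb.toFinset with hpb
  set x0 := iota h (e 𝕜 0) with hx0
  have ea : pa x0 = iota h a := polT_iota h a ha
  have eb : pb x0 = iota h b := polT_iota h b hb
  have hcl : IsClosed {q : X ρ × X ρ | pb q.1 = pa q.2} :=
    isClosed_eq (pb.continuous.comp continuous_fst) (pa.continuous.comp continuous_snd)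
  have hsub : Set.range (fun n : ℕ => (((T h) ^ n) (iota h a), ((T h) ^ n) (iota h b))) ⊆
      {q : X ρ × X ρ | pb q.1 = pa q.2} := by
    rintro q ⟨n, rfl⟩
    show pb (((T h) ^ n) (iota h a)) = pa (((T h) ^ n) (iota h b))
    rw [← ea, ← eb, hpa, hpb, polT_comm_pow, polT_comm_pow, polT_comm]
  have hall : ∀ q : X ρ × X ρ, pb q.1 = pa q.2 := by
    intro q
    have h1 : q ∈ closure (Set.range
      (fun n : ℕ => (((T h) ^ n) (iota h a), ((T h) ^ n) (iota h b)))) := hd q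
    exact closure_minimal hsub hcl h1
  have hb0 : b = 0 := by
    apply iota_inj hA h b hb
    have h1 := hall (x0, 0)
    simp only [map_zero] at h1
    rw [← eb, h1]
  have hcl2 : IsClosed {q : X ρ × X ρ | q.2 = 0} := isClosed_eq continuous_snd continuous_const
  have hsub2 : Set.range (fun n : ℕ => (((T h) ^ n) (iota h a), ((T h) ^ n) (iota h b))) ⊆
      {q : X ρ × X ρ | q.2 = 0} := by
    rintro q ⟨n, rfl⟩
    show ((T h) ^ n) (iota h b) = 0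
    rw [hb0, map_zero, map_zero]
  have h3 : ((0 : X ρ), x0) ∈ {q : X ρ × X ρ | q.2 = 0} :=
    closure_minimal hsub2 hcl2 (hd (0, x0))
  have h4 : x0 = 0 := h3
  have h5 : e 𝕜 0 = 0 := by
    apply iota_inj hA h (e 𝕜 0) _ h4
    apply (Set.finite_singleton 0).subset
    intro j hj
    by_contra hne
    apply hj
    rw [e_apply, if_neg (fun h0 => hne (by simpa using h0))]
  have h6 := norm_e (𝕜 := 𝕜) 0
  rw [h5, norm_zero] at h6
  exact zero_ne_one h6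

theorem not_fhc_prod {A : ℕ → Set ℕ} (hA : IsSlots A) (hM : Mixing A) {P : ℕ → E 𝕜}
    {ρ : ℕ → (E 𝕜 →L[𝕜] E 𝕜)} (h : Sys A P ρ) : ¬ IsFHC ((T h).prodMap (T h)) := by
  rintro ⟨⟨x, y⟩, hxy⟩
  have hpow : ∀ n : ℕ, (((T h).prodMap (T h)) ^ n) (x, y) = (((T h) ^ n) x, ((T h) ^ n) y) := by
    intro n
    induction n with
    | zero => rfl
    | succ n ih => simp only [pow_succ', mul_apply_eq_comp, ih]; rfl
  have h1 : PosLD {n : ℕ | ‖(((T h) ^ n) x).1 0‖ < 1} := by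
    have hopen : IsOpen {z : X ρ × X ρ | ‖z.1.1 0‖ < 1} := by
      apply isOpen_lt _ continuous_const
      exact ((continuous_apply 0).comp (continuous_subtype_val.comp continuous_fst)).norm
    have := (lowerDensity_pos_iff _).1 (hxy _ hopen ⟨(0, 0), by simp⟩)
    refine this.mono ?_
    intro n hn
    simp only [Set.mem_ofPred_eq] at hn ⊢
    rw [hpow n] at hn
    exact hn
  have h2 : PosLD {n : ℕ | ‖(((T h) ^ n) y).1 0‖ < 1} := by
    have hopen : IsOpen {z : X ρ × X ρ | ‖z.2.1 0‖ < 1} := by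
      apply isOpen_lt _ continuous_const
      exact ((continuous_apply 0).comp (continuous_subtype_val.comp continuous_snd)).norm
    have := (lowerDensity_pos_iff _).1 (hxy _ hopen ⟨(0, 0), by simp⟩)
    refine this.mono ?_
    intro n hn
    simp only [Set.mem_ofPred_eq] at hn ⊢
    rw [hpow n] at hn
    exact hn
  obtain ⟨a, ha, rfl⟩ := visit_zero hA hM h x h1
  obtain ⟨b, hb, rfl⟩ := visit_zero hA hM h y h2
  apply pair_not_dense hA h a b ha hb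
  rw [dense_iff_inter_open]
  intro U hU hne
  have h3 := (lowerDensity_pos_iff _).1 (hxy U hU hne)
  obtain ⟨δ, hδ, hev⟩ := h3
  obtain ⟨N, hN1, hN2⟩ := (hev.and (eventually_ge_atTop 1)).exists
  have hpos : 0 < (({n : ℕ | (((T h).prodMap (T h)) ^ n) (iota h a, iota h b) ∈ U} ∩
      Set.Iic N).ncard : ℝ) := by
    have : 0 < δ * (N : ℝ) := mul_pos hδ (by exact_mod_cast hN2)
    linarith
  have hpos' : 0 < ({n : ℕ | (((T h).prodMap (T h)) ^ n) (iota h a, iota h b) ∈ U} ∩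
      Set.Iic N).ncard := by exact_mod_cast hpos
  obtain ⟨n, hn, -⟩ := Set.nonempty_of_ncard_ne_zero hpos'.ne'
  simp only [Set.mem_ofPred_eq] at hn
  rw [hpow n] at hn
  exact ⟨_, hn, n, rfl⟩

end dynamics

/-- **Answer to the question of Bayart and Grivaux.** -/
theorem main (𝕜 : Type) [RCLike 𝕜] : ∃ (X : Type) (_ : AddCommGroup X) (_ : Module 𝕜 X)
    (_ : UniformSpace X) (_ : IsUniformAddGroup X) (_ : ContinuousSMul 𝕜 X)
    (_ : CompleteSpace X) (_ : TopologicalSpace.MetrizableSpace X)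
    (_ : TopologicalSpace.SeparableSpace X) (T : X →L[𝕜] X),
    ¬ FiniteDimensional 𝕜 X ∧ IsFHC T ∧ ¬ IsFHC (T.prodMap T) := by
  obtain ⟨A, hA, hLD, hM⟩ := exists_slots
  obtain ⟨P, hP1, hP2, hP3⟩ := exists_targets 𝕜
  obtain ⟨ρ, h⟩ := exists_sys A hA P hP1 hP2
  refine ⟨X ρ, inferInstance, inferInstance, inferInstance, X_uniformAddGroup ρ, inferInstance,
    inferInstance, X_metrizable ρ, X_separable ρ, T h, X_not_finiteDimensional hA h,
    ⟨_, fhc_e0 hLD hP3 h⟩, not_fhc_prod hA hM h⟩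

end Pool.Agent.Helper932.FHC
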