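import Mathlib

set_option autoImplicit false
open Filter Topology Set

namespace Pool.Agent.Helper932.MM

variable {X : Type} [NormedAddCommGroup X] [NormedSpace ℝ X]

/-- maximal monotone maps -/
structure MaxMono (T : X → Set (X →L[ℝ] ℝ)) : Prop where
  mono : ∀ x y : X, ∀ f ∈ T x, ∀ g ∈ T y, 0 ≤ (f - g) (x - y)
  maxi : ∀ (x : X) (f : X →L[ℝ] ℝ), (∀ y : X, ∀ g ∈ T y, 0 ≤ (f - g) (x - y)) → f ∈ T x

/-- reflexivity -/
def Rfl (X : Type) [NormedAddCommGroup X] [NormedSpace ℝ X] : Prop :=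
  ∀ φ : (X →L[ℝ] ℝ) →L[ℝ] ℝ, ∃ x : X, ∀ f : X →L[ℝ] ℝ, φ f = f x

lemma MaxMono.nonempty {T : X → Set (X →L[ℝ] ℝ)} (hT : MaxMono T) : ∃ s, ∃ t, t ∈ T s := by
  by_contra h
  push Not at h
  exact h 0 0 (hT.maxi 0 0 (fun y g hg => absurd hg (h y g)))

/-- continuity of a convex function bounded above on a ball -/
lemma cont_of_convex {V : Type} [NormedAddCommGroup V] [NormedSpace ℝ V] {f : V → ℝ}
    (hf : ConvexOn ℝ univ f) (x₀ : V) (B : ℝ) (hB : ∀ x, ‖x - x₀‖ < 1 → f x ≤ B) :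
    Continuous f := by
  have h := (hf.continuousOn_tfae isOpen_univ ⟨x₀, mem_univ _⟩).out 3 1
  have h2 := h.1 ⟨x₀, mem_univ _, B, by
    simp only [Filter.eventually_map]
    refine Metric.eventually_nhds_iff.2 ⟨1, one_pos, fun y hy => hB y ?_⟩
    rwa [dist_eq_norm] at hy⟩
  exact continuousOn_univ.1 h2

/-- affine minorants -/
lemma exists_minor {f : X → ℝ} (hf : ConvexOn ℝ univ f) (hc : Continuous f) (x : X) (a : ℝ)
    (ha : a < f x) : ∃ l : X →L[ℝ] ℝ, ∀ w, a + l (w - x) ≤ f w := by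
  obtain ⟨l, c, h1, h2⟩ := hf.exists_affine_le_of_lt (𝕜 := ℝ) (mem_univ x) ha isClosed_univ
    (hc.lowerSemicontinuous.lowerSemicontinuousOn _)
  refine ⟨l, fun w => ?_⟩
  have h3 := h1 ⟨w, mem_univ _⟩
  simp at h3 h2
  rw [map_sub]
  linarith

section
variable (Γ : X → ℝ) (α β : ℝ)

lemma k_bdd (hα : 0 < α) (hgrow : ∀ x, α * ‖x‖ ^ 2 - β ≤ Γ x) (g : X →L[ℝ] ℝ) (w : X) :
    -g w - Γ w ≤ ‖g‖ ^ 2 / (4 * α) + β := by
  have h1 : -g w ≤ ‖g‖ * ‖w‖ := by
    have := g.le_opNorm w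
    have h2 := neg_le_abs (g w)
    rw [Real.norm_eq_abs] at this
    linarith
  have h2 := hgrow w
  have h3 : ‖g‖ * ‖w‖ ≤ ‖g‖ ^ 2 / (4 * α) + α * ‖w‖ ^ 2 := by
    have h4 : 0 ≤ (‖g‖ - 2 * α * ‖w‖) ^ 2 / (4 * α) := by positivity
    have h5 : (‖g‖ - 2 * α * ‖w‖) ^ 2 / (4 * α) =
      ‖g‖ ^ 2 / (4 * α) + α * ‖w‖ ^ 2 - ‖g‖ * ‖w‖ := by
      field_simp
      ring
    linarith
  linarith

/-- conjugate -/
noncomputable def kk (g : X →L[ℝ] ℝ) : ℝ := ⨆ w, (-g w - Γ w)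

lemma kk_ge (hα : 0 < α) (hgrow : ∀ x, α * ‖x‖ ^ 2 - β ≤ Γ x) (g : X →L[ℝ] ℝ) (w : X) :
    -g w - Γ w ≤ kk Γ g :=
  le_ciSup (f := fun w => -g w - Γ w)
    ⟨‖g‖ ^ 2 / (4 * α) + β, by rintro _ ⟨w, rfl⟩; exact k_bdd Γ α β hα hgrow g w⟩ w

lemma kk_le (g : X →L[ℝ] ℝ) (B : ℝ) (h : ∀ w, -g w - Γ w ≤ B) : kk Γ g ≤ B := ciSup_le h

lemma kk_convex (hα : 0 < α) (hgrow : ∀ x, α * ‖x‖ ^ 2 - β ≤ Γ x) :
    ConvexOn ℝ univ (kk Γ) := by
  refine ⟨convex_univ, fun g _ g' _ a b ha hb hab => ?_⟩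
  refine kk_le Γ _ _ (fun w => ?_)
  have h1 := mul_le_mul_of_nonneg_left (kk_ge Γ α β hα hgrow g w) ha
  have h2 := mul_le_mul_of_nonneg_left (kk_ge Γ α β hα hgrow g' w) hb
  have h3 : Γ w = a * Γ w + b * Γ w := by rw [← add_mul, hab, one_mul]
  simp only [smul_eq_mul, add_apply, smul_apply]
  rw [h3]
  linarith

lemma kk_cont (hα : 0 < α) (hgrow : ∀ x, α * ‖x‖ ^ 2 - β ≤ Γ x) : Continuous (kk Γ) := by
  refine cont_of_convex (V := X →L[ℝ] ℝ) (kk_convex Γ α β hα hgrow) 0 (1 / (4 * α) + β) (fun g hg => ?_)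
  refine kk_le Γ _ _ (fun w => (k_bdd Γ α β hα hgrow g w).trans ?_)
  rw [sub_zero] at hg
  have : ‖g‖ ^ 2 ≤ 1 := by nlinarith [norm_nonneg g]
  gcongr

end

/-- surjectivity type theorem -/
theorem exists_point (hX : Rfl X) {T : X → Set (X →L[ℝ] ℝ)} (hT : MaxMono T)
    (Γ : X → ℝ) (hconv : ConvexOn ℝ univ Γ) (hcont : Continuous Γ) (α β : ℝ) (hα : 0 < α)
    (hgrow : ∀ x, α * ‖x‖ ^ 2 - β ≤ Γ x) :
    ∃ u, ∃ y ∈ T u, ∀ x, Γ u - y (x - u) ≤ Γ x := by
  classical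
  obtain ⟨s₀, t₀, h₀⟩ := hT.nonempty
  let C2 : Set (X × (X →L[ℝ] ℝ) × ℝ) := {p | p.2.2 < -Γ p.1 - kk Γ p.2.1}
  let C1 : Set (X × (X →L[ℝ] ℝ) × ℝ) := {p | ∀ s, ∀ t ∈ T s, t p.1 + p.2.1 s - t s ≤ p.2.2}
  have hkc := kk_cont Γ α β hα hgrow
  have hkconv := kk_convex Γ α β hα hgrow
  have hC2o : IsOpen C2 :=
    isOpen_lt (continuous_snd.comp continuous_snd)
      (((hcont.comp continuous_fst).neg).sub (hkc.comp (continuous_fst.comp continuous_snd)))
  have hC2c : Convex ℝ C2 := by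
    intro p hp p' hp' a b ha hb hab
    have e1 : p.2.2 < -Γ p.1 - kk Γ p.2.1 := hp
    have e2 : p'.2.2 < -Γ p'.1 - kk Γ p'.2.1 := hp'
    show (a • p + b • p').2.2 < -Γ (a • p + b • p').1 - kk Γ (a • p + b • p').2.1
    have e3 := hconv.2 (mem_univ p.1) (mem_univ p'.1) ha hb hab
    have e4 := hkconv.2 (mem_univ p.2.1) (mem_univ p'.2.1) ha hb hab
    simp only [Prod.fst_add, Prod.smul_fst, Prod.snd_add, Prod.smul_snd, smul_eq_mul] at *
    rcases eq_or_lt_of_le ha with h | h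
    · have hb1 : b = 1 := by linarith
      subst hb1
      rw [← h] at e3 e4 ⊢
      simp only [zero_mul, zero_add, one_mul] at e3 e4 ⊢
      linarith
    · have e5 := mul_lt_mul_of_pos_left e1 h
      have e6 := mul_le_mul_of_nonneg_left e2.le hb
      linarith
  have hC1c : Convex ℝ C1 := by
    intro p hp p' hp' a b ha hb hab s t hst
    have e1 := mul_le_mul_of_nonneg_left (hp s t hst) ha
    have e2 := mul_le_mul_of_nonneg_left (hp' s t hst) hb
    have e3 : t s = a * t s + b * t s := by rw [← add_mul, hab, one_mul]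
    simp only [Prod.fst_add, Prod.smul_fst, Prod.snd_add, Prod.smul_snd, smul_eq_mul, map_add,
      map_smul, add_apply, smul_apply]
    rw [e3]
    linarith
  have hdisj : Disjoint C2 C1 := by
    rw [Set.disjoint_left]
    intro p hp2 hp1
    have e2 : p.2.2 < -Γ p.1 - kk Γ p.2.1 := hp2
    have e3 := kk_ge Γ α β hα hgrow p.2.1 p.1
    have e4 : p.2.2 < p.2.1 p.1 := by linarith
    have hmem : p.2.1 ∈ T p.1 := by
      refine hT.maxi _ _ (fun y g hg => ?_)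
      have := hp1 y g hg
      simp only [sub_apply, map_sub]
      linarith
    have := hp1 p.1 p.2.1 hmem
    linarith
  obtain ⟨F, c, hF2, hF1⟩ := geometric_hahn_banach_open hC2c hC2o hC1c hdisj
  -- components
  let y1 : X →L[ℝ] ℝ := F.comp (ContinuousLinearMap.inl ℝ X ((X →L[ℝ] ℝ) × ℝ))
  let ξ : (X →L[ℝ] ℝ) →L[ℝ] ℝ := F.comp ((ContinuousLinearMap.inr ℝ X ((X →L[ℝ] ℝ) × ℝ)).comp
    (ContinuousLinearMap.inl ℝ (X →L[ℝ] ℝ) ℝ))
  let lam : ℝ := F (0, 0, 1)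
  have hFd : ∀ x g r, F (x, g, r) = y1 x + ξ g + lam * r := by
    intro x g r
    have e : (x, g, r) = (x, (0 : X →L[ℝ] ℝ), (0 : ℝ)) + ((0 : X), g, (0 : ℝ)) +
        r • ((0 : X), (0 : X →L[ℝ] ℝ), (1 : ℝ)) := by
      simp
    rw [e, map_add, map_add, map_smul]
    have e1 : y1 x = F (x, 0, 0) := rfl
    have e2 : ξ g = F (0, g, 0) := rfl
    have e3 : lam = F (0, 0, 1) := rfl
    rw [e1, e2, e3, smul_eq_mul]
    ring
  have h2 : ∀ (x : X) (g : X →L[ℝ] ℝ) (r : ℝ), r < -Γ x - kk Γ g →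
      y1 x + ξ g + lam * r < c := by
    intro x g r h
    rw [← hFd]
    exact hF2 _ h
  have h1 : ∀ (x : X) (g : X →L[ℝ] ℝ) (r : ℝ), (∀ s, ∀ t ∈ T s, t x + g s - t s ≤ r) →
      c ≤ y1 x + ξ g + lam * r := by
    intro x g r h
    rw [← hFd]
    exact hF1 _ h
  have hgr : ∀ s, ∀ t ∈ T s, ∀ s', ∀ t' ∈ T s', t' s + t s' - t' s' ≤ t s := by
    intro s t hst s' t' hst'
    have := hT.mono s s' t hst t' hst'
    simp only [sub_apply, map_sub] at this
    linarith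
  have hlam0 : 0 ≤ lam := by
    by_contra hneg
    push Not at hneg
    -- take r very negative
    have key : ∀ N : ℝ, 0 ≤ N → y1 0 + ξ 0 + lam * (-Γ 0 - kk Γ 0 - 1 - N) < c := fun N hN =>
      h2 0 0 _ (by linarith)
    have hk := key ((|c| + |lam * (-Γ 0 - kk Γ 0 - 1)| + 1) / (-lam)) (by
      apply div_nonneg
      · positivity
      · linarith)
    have e : lam * (-Γ 0 - kk Γ 0 - 1 - (|c| + |lam * (-Γ 0 - kk Γ 0 - 1)| + 1) / (-lam)) =
        lam * (-Γ 0 - kk Γ 0 - 1) + (|c| + |lam * (-Γ 0 - kk Γ 0 - 1)| + 1) := by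
      have hne : lam ≠ 0 := hneg.ne
      field_simp
      ring
    rw [e] at hk
    simp only [map_zero] at hk
    have a1 := le_abs_self c
    have a2 := neg_abs_le (lam * (-Γ 0 - kk Γ 0 - 1))
    linarith
  have hlam : 0 < lam := by
    rcases eq_or_lt_of_le hlam0 with h | h
    · exfalso
      have g1 : ∀ x g, y1 x + ξ g < c := by
        intro x g
        have := h2 x g (-Γ x - kk Γ g - 1) (by linarith)
        rw [← h] at this
        linarith
      have hc : 0 < c := by have := g1 0 0; simpa using this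
      have g2 := h1 s₀ t₀ (t₀ s₀) (hgr s₀ t₀ h₀)
      rw [← h] at g2
      have g3 := g1 s₀ t₀
      linarith
    · exact h
  obtain ⟨w0, hw0⟩ := hX ξ
  set u' : X := -(lam⁻¹ • w0) with hu'
  set y' : X →L[ℝ] ℝ := -(lam⁻¹ • y1) with hy'
  set c' : ℝ := c / lam with hc'
  have q1 : ∀ (x : X) (g : X →L[ℝ] ℝ) (r : ℝ), (∀ s, ∀ t ∈ T s, t x + g s - t s ≤ r) →
      c' + y' x + g u' ≤ r := by
    intro x g r h
    have := h1 x g r h
    rw [hw0 g] at this
    have e : c' + y' x + g u' = (c - y1 x - g w0) / lam := by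
      simp only [hc', hy', hu', neg_apply, smul_apply,
        smul_eq_mul, map_neg, map_smul]
      field_simp
      ring
    rw [e, div_le_iff₀ hlam]
    linarith
  have q2 : ∀ (x : X) (g : X →L[ℝ] ℝ), -Γ x - kk Γ g ≤ c' + y' x + g u' := by
    intro x g
    have e : c' + y' x + g u' = (c - y1 x - g w0) / lam := by
      simp only [hc', hy', hu', neg_apply, smul_apply,
        smul_eq_mul, map_neg, map_smul]
      field_simp
      ring
    rw [e, le_div_iff₀ hlam]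
    refine le_of_forall_pos_lt_add (fun ε hε => ?_)
    have := h2 x g (-Γ x - kk Γ g - ε / lam) (by
      have : 0 < ε / lam := by positivity
      linarith)
    rw [hw0 g] at this
    have e2 : lam * (-Γ x - kk Γ g - ε / lam) = (-Γ x - kk Γ g) * lam - ε := by
      field_simp
    rw [e2] at this
    linarith
  -- consequence
  have q3 : ∀ w, Γ u' - Γ w - y' w ≤ c' := by
    intro w
    refine le_of_forall_pos_lt_add (fun ε hε => ?_)
    obtain ⟨l, hl⟩ := exists_minor hconv hcont u' (Γ u' - ε / 2) (by linarith)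
    have e1 := q2 w (-l)
    have e2 : kk Γ (-l) ≤ l u' - (Γ u' - ε / 2) := by
      refine kk_le Γ _ _ (fun z => ?_)
      have := hl z
      simp only [neg_apply, map_sub] at *
      linarith
    simp only [neg_apply] at e1
    linarith
  have q4 : 0 ≤ c' + y' u' := by
    have := q3 u'
    linarith
  have hmem : y' ∈ T u' := by
    refine hT.maxi _ _ (fun s t hst => ?_)
    have := q1 s t (t s) (hgr s t hst)
    simp only [sub_apply, map_sub]
    linarith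
  refine ⟨u', y', hmem, fun x => ?_⟩
  have e1 := q1 u' y' (y' u') (hgr u' y' hmem)
  have e2 := q3 x
  rw [map_sub]
  linarith

end Pool.Agent.Helper932.MM
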