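import Pool.Agent.Helper932.MMDual

set_option autoImplicit false
open Filter Topology Set
open scoped RealInnerProductSpace

namespace Pool.Agent.Helper932.MM

variable {X : Type} [NormedAddCommGroup X] [NormedSpace ℝ X]
variable {E : Type} [NormedAddCommGroup E] [InnerProductSpace ℝ E]

/-- regularisers -/
structure Reg (M : ℝ) (Φ : X → ℝ) : Prop where
  conv : ConvexOn ℝ univ Φ
  lower : ∀ w, M * ‖w‖ + ‖w‖ ^ 2 ≤ Φ w
  upper : ∀ w, Φ w ≤ M * ‖w‖ + 2 * ‖w‖ ^ 2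

lemma Reg.cont {M : ℝ} {Φ : X → ℝ} (h : Reg M Φ) : Continuous Φ := by
  refine cont_of_convex h.conv 0 (|M| + 2) (fun x hx => ?_)
  rw [sub_zero] at hx
  have h1 := h.upper x
  have h2 := le_abs_self M
  have h3 := norm_nonneg x
  nlinarith [abs_nonneg M]

lemma Reg.zero {M : ℝ} {Φ : X → ℝ} (h : Reg M Φ) : Φ 0 = 0 := by
  have h1 := h.lower 0
  have h2 := h.upper 0
  simp at h1 h2
  linarith

/-- subgradients -/
def Sub (Φ : X → ℝ) (v : X) (y : X →L[ℝ] ℝ) : Prop := ∀ w, Φ v + y (w - v) ≤ Φ w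

lemma Sub.self_ge {M : ℝ} {Φ : X → ℝ} (h : Reg M Φ) {v : X} {y : X →L[ℝ] ℝ} (hs : Sub Φ v y) :
    M * ‖v‖ + ‖v‖ ^ 2 ≤ y v := by
  have h1 := hs 0
  rw [h.zero, zero_sub, map_neg] at h1
  have := h.lower v
  linarith

lemma Sub.norm_le {M : ℝ} (hM : 0 ≤ M) {Φ : X → ℝ} (h : Reg M Φ) {v : X} {y : X →L[ℝ] ℝ}
    (hs : Sub Φ v y) : ‖y‖ ≤ M + 7 * ‖v‖ + 2 := by
  have hv := norm_nonneg v
  have key : ∀ z : X, ‖z‖ = ‖v‖ + 1 → y z ≤ (M + 7 * ‖v‖ + 2) * (‖v‖ + 1) := by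
    intro z hz
    have h1 := hs (v + z)
    rw [add_sub_cancel_left] at h1
    have h2 := h.upper (v + z)
    have h3 := h.lower v
    have h4 := norm_add_le v z
    rw [hz] at h4
    have h5 : ‖v + z‖ ^ 2 ≤ (2 * ‖v‖ + 1) ^ 2 := by
      apply pow_le_pow_left₀ (norm_nonneg _)
      linarith
    have h6 : M * ‖v + z‖ ≤ M * (2 * ‖v‖ + 1) := by
      apply mul_le_mul_of_nonneg_left _ hM
      linarith
    nlinarith
  refine ContinuousLinearMap.opNorm_le_bound _ (by positivity) (fun z => ?_)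
  rcases eq_or_ne z 0 with rfl | hz
  · simp
  have hz' : 0 < ‖z‖ := norm_pos_iff.2 hz
  have half : ∀ z : X, z ≠ 0 → y z ≤ (M + 7 * ‖v‖ + 2) * ‖z‖ := by
    intro z hz
    have hz' : 0 < ‖z‖ := norm_pos_iff.2 hz
    have h1 := key (((‖v‖ + 1) / ‖z‖) • z) (by
      rw [norm_smul, Real.norm_of_nonneg (by positivity)]
      field_simp)
    rw [map_smul, smul_eq_mul, div_mul_eq_mul_div, div_le_iff₀ hz'] at h1
    have h2 : (‖v‖ + 1) * y z ≤ (‖v‖ + 1) * ((M + 7 * ‖v‖ + 2) * ‖z‖) := by linarith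
    exact le_of_mul_le_mul_left h2 (by positivity)
  rw [Real.norm_eq_abs, abs_le]
  constructor
  · have := half (-z) (neg_ne_zero.2 hz)
    rw [map_neg, norm_neg] at this
    linarith
  · exact half z hz

/-- solutions of the level problem -/
structure Sol (T : X → Set (X →L[ℝ] ℝ)) (Φ : X → ℝ) (K : Set E) (j : E →L[ℝ] X) (q : E)
    (a : E) (u : X) (y : X →L[ℝ] ℝ) : Prop where
  memK : a ∈ K
  memT : y ∈ T u
  sub : Sub Φ (j a - u) y
  vi : ∀ z ∈ K, 0 ≤ y (j (z - a)) + ⟪a - q, z - a⟫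

theorem exists_sol (hX : Rfl X) {T : X → Set (X →L[ℝ] ℝ)} (hT : MaxMono T)
    {M : ℝ} (hM : 0 ≤ M) {Φ : X → ℝ} (hΦ : Reg M Φ) {K : Set E} (hK : IsCompact K)
    (hKc : Convex ℝ K) (h0 : (0 : E) ∈ K) (j : E →L[ℝ] X) (ρ : ℝ) (hρ : ∀ a ∈ K, ‖j a‖ ≤ ρ)
    (q : E) : ∃ a u y, Sol T Φ K j q a u y := by
  classical
  let φ : X → E → ℝ := fun x a => Φ (j a - x) + 1 / 2 * ‖a - q‖ ^ 2
  have hmin : ∀ x, ∃ a ∈ K, ∀ b ∈ K, φ x a ≤ φ x b := by
    intro x
    have hc : Continuous (φ x) := by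
      have h1 : Continuous fun a : E => Φ (j a - x) :=
        hΦ.cont.comp (j.continuous.sub continuous_const)
      have h2 : Continuous fun a : E => 1 / 2 * ‖a - q‖ ^ 2 := by fun_prop
      exact h1.add h2
    obtain ⟨a, ha, hmin⟩ := hK.exists_isMinOn ⟨0, h0⟩ hc.continuousOn
    exact ⟨a, ha, fun b hb => hmin hb⟩
  choose am hamK hamin using hmin
  let Γ : X → ℝ := fun x => φ x (am x)
  have hsq : ∀ (s t : ℝ), 0 ≤ s → 0 ≤ t → s + t = 1 → ∀ a b : E,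
      ‖s • a + t • b - q‖ ^ 2 ≤ s * ‖a - q‖ ^ 2 + t * ‖b - q‖ ^ 2 := by
    intro s t hs ht hst a b
    have e : s • a + t • b - q = s • (a - q) + t • (b - q) := by
      have : q = s • q + t • q := by rw [← add_smul, hst, one_smul]
      rw [smul_sub, smul_sub]
      nth_rewrite 1 [this]
      abel
    rw [e]
    have h1 : ‖s • (a - q) + t • (b - q)‖ ≤ s * ‖a - q‖ + t * ‖b - q‖ := by
      refine (norm_add_le _ _).trans ?_
      rw [norm_smul, norm_smul, Real.norm_of_nonneg hs, Real.norm_of_nonneg ht]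
    have h2 : ‖s • (a - q) + t • (b - q)‖ ^ 2 ≤ (s * ‖a - q‖ + t * ‖b - q‖) ^ 2 :=
      pow_le_pow_left₀ (norm_nonneg _) h1 2
    have h3 : (s * ‖a - q‖ + t * ‖b - q‖) ^ 2 ≤ s * ‖a - q‖ ^ 2 + t * ‖b - q‖ ^ 2 := by
      have ht' : t = 1 - s := by linarith
      subst ht'
      nlinarith [mul_nonneg (mul_nonneg hs ht) (sq_nonneg (‖a - q‖ - ‖b - q‖))]
    exact h2.trans h3
  have hconv : ConvexOn ℝ univ Γ := by
    refine ⟨convex_univ, fun x _ x' _ s t hs ht hst => ?_⟩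
    have hmem : s • am x + t • am x' ∈ K := hKc (hamK x) (hamK x') hs ht hst
    refine (hamin (s • x + t • x') _ hmem).trans ?_
    have h1 := hΦ.conv.2 (mem_univ (j (am x) - x)) (mem_univ (j (am x') - x')) hs ht hst
    have h2 := hsq s t hs ht hst (am x) (am x')
    have e : j (s • am x + t • am x') - (s • x + t • x') =
        s • (j (am x) - x) + t • (j (am x') - x') := by
      rw [map_add, map_smul, map_smul, smul_sub, smul_sub]
      abel
    simp only [φ, Γ, smul_eq_mul] at *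
    rw [e]
    linarith
  have hcont : Continuous Γ := by
    refine cont_of_convex hconv 0 (M + 2 + 1 / 2 * ‖q‖ ^ 2) (fun x hx => ?_)
    rw [sub_zero] at hx
    refine (hamin x 0 h0).trans ?_
    have h1 := hΦ.upper (j 0 - x)
    simp only [φ, map_zero, zero_sub, norm_neg] at *
    nlinarith [norm_nonneg x]
  have hgrow : ∀ x, 1 / 2 * ‖x‖ ^ 2 - ρ ^ 2 ≤ Γ x := by
    intro x
    have h1 := hΦ.lower (j (am x) - x)
    have h2 := hρ _ (hamK x)
    have h3 : ‖x‖ ≤ ‖j (am x) - x‖ + ‖j (am x)‖ := by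
      have := norm_sub_le (j (am x)) (j (am x) - x)
      rw [sub_sub_cancel] at this
      linarith
    have h4 : 0 ≤ ‖am x - q‖ ^ 2 := by positivity
    have h5 : 0 ≤ M * ‖j (am x) - x‖ := by positivity
    have h6 : ‖x‖ ^ 2 ≤ (‖j (am x) - x‖ + ‖j (am x)‖) ^ 2 :=
      pow_le_pow_left₀ (norm_nonneg _) h3 2
    have h7 : (‖j (am x) - x‖ + ‖j (am x)‖) ^ 2 ≤ 2 * ‖j (am x) - x‖ ^ 2 + 2 * ‖j (am x)‖ ^ 2 := by
      nlinarith [sq_nonneg (‖j (am x) - x‖ - ‖j (am x)‖)]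
    have h8 : ‖j (am x)‖ ^ 2 ≤ ρ ^ 2 := pow_le_pow_left₀ (norm_nonneg _) h2 2
    simp only [Γ, φ]
    linarith
  obtain ⟨u, y, hy, hu⟩ := exists_point hX hT Γ hconv hcont (1 / 2) (ρ ^ 2) (by norm_num) hgrow
  refine ⟨am u, u, y, hamK u, hy, ?_, ?_⟩
  · intro w
    have h1 := hu (j (am u) - w)
    have h2 := hamin (j (am u) - w) (am u) (hamK u)
    simp only [Γ, φ] at h1 h2
    rw [sub_sub_cancel] at h2
    have e : j (am u) - w - u = -(w - (j (am u) - u)) := by abel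
    rw [e, map_neg] at h1
    linarith
  · intro z hz
    have key : ∀ t : ℝ, 0 < t → t ≤ 1 →
        -(y (j (z - am u)) + ⟪am u - q, z - am u⟫) ≤ t * (1 / 2 * ‖z - am u‖ ^ 2) := by
      intro t ht0 ht1
      have hmem : am u + t • (z - am u) ∈ K := by
        have := hKc (hamK u) hz (by linarith : (0 : ℝ) ≤ 1 - t) ht0.le (by ring)
        have e : (1 - t) • am u + t • z = am u + t • (z - am u) := by
          rw [sub_smul, one_smul, smul_sub]; abel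
        rwa [e] at this
      have h1 := hu (u + j (t • (z - am u)))
      have h2 := hamin (u + j (t • (z - am u))) _ hmem
      simp only [Γ, φ] at h1 h2
      have e1 : j (am u + t • (z - am u)) - (u + j (t • (z - am u))) = j (am u) - u := by
        rw [map_add]; abel
      rw [e1] at h2
      have e2 : ‖am u + t • (z - am u) - q‖ ^ 2 =
          ‖am u - q‖ ^ 2 + 2 * t * ⟪am u - q, z - am u⟫ + t ^ 2 * ‖z - am u‖ ^ 2 := by
        have e3 : am u + t • (z - am u) - q = (am u - q) + t • (z - am u) := by abel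
        rw [e3, norm_add_sq_real, inner_smul_right, norm_smul, mul_pow, Real.norm_eq_abs, sq_abs]
        ring
      rw [e2] at h2
      have e4 : y (j (t • (z - am u))) = t * y (j (z - am u)) := by
        rw [map_smul, map_smul, smul_eq_mul]
      rw [add_sub_cancel_left, e4] at h1
      have h3 : t * -(y (j (z - am u)) + ⟪am u - q, z - am u⟫) ≤
          t * (t * (1 / 2 * ‖z - am u‖ ^ 2)) := by nlinarith
      exact le_of_mul_le_mul_left h3 ht0
    by_contra hneg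
    push Not at hneg
    set c := -(y (j (z - am u)) + ⟪am u - q, z - am u⟫) with hc
    have hcpos : 0 < c := by rw [hc]; linarith
    set d := 1 / 2 * ‖z - am u‖ ^ 2 with hd
    have hd0 : 0 ≤ d := by positivity
    have h1 := key (min 1 (c / (2 * (d + 1)))) (by positivity) (min_le_left _ _)
    have h2 : min 1 (c / (2 * (d + 1))) * d ≤ c / (2 * (d + 1)) * d :=
      mul_le_mul_of_nonneg_right (min_le_right _ _) hd0
    have h3 : c / (2 * (d + 1)) * d ≤ c / 2 := by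
      rw [div_mul_eq_mul_div, div_le_div_iff₀ (by positivity) (by norm_num)]
      nlinarith
    linarith

/-- stability -/
lemma stab {T : X → Set (X →L[ℝ] ℝ)} (hT : MaxMono T) {Φ : X → ℝ} {K : Set E} {j : E →L[ℝ] X}
    {q₁ q₂ a₁ a₂ : E} {u₁ u₂ : X} {y₁ y₂ : X →L[ℝ] ℝ}
    (h₁ : Sol T Φ K j q₁ a₁ u₁ y₁) (h₂ : Sol T Φ K j q₂ a₂ u₂ y₂) :
    ‖a₁ - a₂‖ ^ 2 + 4 * (1 / 2 * Φ (j a₁ - u₁) + 1 / 2 * Φ (j a₂ - u₂) -
      Φ ((1 / 2 : ℝ) • ((j a₁ - u₁) + (j a₂ - u₂)))) ≤ ⟪q₁ - q₂, a₁ - a₂⟫ := by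
  have m1 := hT.mono u₁ u₂ y₁ h₁.memT y₂ h₂.memT
  have s1 := h₁.sub ((1 / 2 : ℝ) • ((j a₁ - u₁) + (j a₂ - u₂)))
  have s2 := h₂.sub ((1 / 2 : ℝ) • ((j a₁ - u₁) + (j a₂ - u₂)))
  have v1 := h₁.vi a₂ h₂.memK
  have v2 := h₂.vi a₁ h₁.memK
  have i1 : ⟪a₁ - q₁, a₂ - a₁⟫ + ⟪a₂ - q₂, a₁ - a₂⟫ = ⟪q₁ - q₂, a₁ - a₂⟫ - ‖a₁ - a₂‖ ^ 2 := by
    have e1 : a₂ - a₁ = -(a₁ - a₂) := by abel
    rw [e1, inner_neg_right, ← real_inner_self_eq_norm_sq, ← sub_eq_neg_add, ← inner_sub_left,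
      ← inner_sub_left]
    congr 1
    abel
  simp only [map_sub, map_add, map_smul, smul_eq_mul, sub_apply] at m1 s1 s2 v1 v2 ⊢
  linarith

end Pool.Agent.Helper932.MM
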