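import Pool.Agent.Helper932.MMWeak

set_option autoImplicit false
open Filter Topology Set

namespace Pool.Agent.Helper932.MM

variable {X : Type} [NormedAddCommGroup X] [NormedSpace ℝ X]

/-- pseudomonotonicity relative to `T` -/
def PM (T : X → Set (X →L[ℝ] ℝ)) (T0 : X → (X →L[ℝ] ℝ)) : Prop :=
  ∀ (u : ℕ → X) (v : X) (y : ℕ → (X →L[ℝ] ℝ)),
    (∀ f : X →L[ℝ] ℝ, Tendsto (fun j => f (u j)) atTop (𝓝 (f v))) →
    (∀ j, y j ∈ T (u j)) →
    (∃ C : ℝ, ∀ j, ‖y j‖ ≤ C) →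
    (∀ ε : ℝ, 0 < ε → ∀ᶠ j in atTop, (T0 (u j)) (u j - v) ≤ ε) →
    ((∀ φ : (X →L[ℝ] ℝ) →L[ℝ] ℝ,
        Tendsto (fun j => φ (T0 (u j))) atTop (𝓝 (φ (T0 v)))) ∧
      Tendsto (fun j => (T0 (u j)) (u j - v)) atTop (𝓝 0))

theorem core {T : X → Set (X →L[ℝ] ℝ)} (hT : MaxMono T)
    {T0 : X → (X →L[ℝ] ℝ)} (hPM : PM T T0) (R C M2 : ℝ) (v' : X) (v : ℕ → X)
    (y : ℕ → (X →L[ℝ] ℝ)) (hv : ∀ f : X →L[ℝ] ℝ, Tendsto (fun n => f (v n)) atTop (𝓝 (f v')))
    (hy : ∀ n, y n ∈ T (v n)) (hvR : ∀ n, ‖v n‖ ≤ R) (hyC : ∀ n, ‖y n‖ ≤ C)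
    (hT0 : ∀ n, ‖T0 (v n)‖ ≤ M2) (e : ℕ → ℝ) (e' : ℝ) (he : Tendsto e atTop (𝓝 e')) (he' : e' ≤ 0)
    (hle : ∀ n, (y n + T0 (v n)) (v n - v') ≤ e n) :
    e' = 0 ∧ ∃ y' ∈ T v', ∀ h : X, ∀ κ : ℝ, (∀ n, (y n + T0 (v n)) h ≤ κ) →
      (y' + T0 v') h ≤ κ := by
  have hbd : ∀ (g : X →L[ℝ] ℝ) (B : ℝ) (n : ℕ), ‖g‖ ≤ B → |g (v n - v')| ≤ B * (R + ‖v'‖) := by
    intro g B n hg
    have h1 := g.le_opNorm (v n - v')
    rw [Real.norm_eq_abs] at h1
    have h2 : ‖v n - v'‖ ≤ R + ‖v'‖ := (norm_sub_le _ _).trans (add_le_add (hvR n) le_rfl)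
    exact h1.trans (mul_le_mul hg h2 (norm_nonneg _) ((norm_nonneg _).trans hg))
  -- a convergent subsequence
  obtain ⟨⟨a, b⟩, _, φ, hφ, hlim⟩ := tendsto_subseq_of_bounded
    (x := fun n => ((y n (v n - v'), T0 (v n) (v n - v')) : ℝ × ℝ))
    (s := Metric.closedBall 0 (max (C * (R + ‖v'‖)) (M2 * (R + ‖v'‖)))) Metric.isBounded_closedBall
    (fun n => by
      rw [mem_closedBall_zero_iff, Prod.norm_def, max_le_iff]
      exact ⟨(hbd _ _ n (hyC n)).trans (le_max_left _ _),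
        (hbd _ _ n (hT0 n)).trans (le_max_right _ _)⟩)
  have hφt := hφ.tendsto_atTop
  have ha : Tendsto (fun n => y (φ n) (v (φ n) - v')) atTop (𝓝 a) :=
    (continuous_fst.tendsto _).comp hlim
  have hb : Tendsto (fun n => T0 (v (φ n)) (v (φ n) - v')) atTop (𝓝 b) :=
    (continuous_snd.tendsto _).comp hlim
  have hab : a + b ≤ e' := by
    refine le_of_tendsto_of_tendsto' (ha.add hb) (he.comp hφt) (fun n => ?_)
    exact hle (φ n)
  let U : Ultrafilter ℕ := Filter.hyperfilter ℕ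
  have hU : (U : Filter ℕ) ≤ atTop := by
    rw [← Nat.cofinite_eq_atTop]
    exact Filter.hyperfilter_le_cofinite
  obtain ⟨y', _, hy'⟩ := ulim_dual U (fun n => y (φ n)) C (fun n => hyC _)
  have hmon : ∀ s, ∀ t ∈ T s, 0 ≤ a + (y' - t) (v' - s) := by
    intro s t hst
    have h1 : ∀ n, 0 ≤ y (φ n) (v (φ n) - v') + (y (φ n) v' - y (φ n) s - t (v (φ n)) + t s) := by
      intro n
      have := hT.mono (v (φ n)) s (y (φ n)) (hy _) t hst
      simp only [sub_apply, map_sub] at this ⊢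
      linarith
    have h2 : Tendsto (fun n => y (φ n) (v (φ n) - v') +
        (y (φ n) v' - y (φ n) s - t (v (φ n)) + t s)) U
        (𝓝 (a + (y' v' - y' s - t v' + t s))) :=
      (ha.mono_left hU).add ((((hy' v').sub (hy' s)).sub (((hv t).comp hφt).mono_left hU)).add_const _)
    have h3 := ge_of_tendsto h2 (Filter.Eventually.of_forall h1)
    simp only [sub_apply, map_sub]
    linarith
  have hmem : a ≤ 0 → y' ∈ T v' := by
    intro h0
    refine hT.maxi _ _ (fun s t hst => ?_)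
    have := hmon s t hst
    linarith
  have ha0 : 0 ≤ a := by
    by_contra hneg
    push Not at hneg
    have := hmon v' y' (hmem hneg.le)
    rw [sub_self, sub_self, map_zero] at this
    linarith
  have hpm := hPM (fun n => v (φ n)) v' (fun n => y (φ n)) (fun f => (hv f).comp hφt)
    (fun n => hy _) ⟨C, fun n => hyC _⟩
  have hb0 : 0 ≤ b := by
    by_contra hneg
    push Not at hneg
    have h1 := hpm (fun ε hε => by
      have : ∀ᶠ n in atTop, T0 (v (φ n)) (v (φ n) - v') < ε :=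
        hb.eventually (gt_mem_nhds (by linarith))
      exact this.mono (fun n hn => hn.le))
    have := tendsto_nhds_unique hb h1.2
    linarith
  have haz : a = 0 := by linarith
  have hbz : b = 0 := by linarith
  refine ⟨by linarith, y', hmem haz.le, fun h κ hκ => ?_⟩
  have h1 := hpm (fun ε hε => by
    have : ∀ᶠ n in atTop, T0 (v (φ n)) (v (φ n) - v') < ε :=
      hb.eventually (gt_mem_nhds (by linarith))
    exact this.mono (fun n hn => hn.le))
  have h2 : Tendsto (fun n => T0 (v (φ n)) h) U (𝓝 (T0 v' h)) := by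
    have := h1.1 (NormedSpace.inclusionInDoubleDual ℝ X h)
    simp only [NormedSpace.dual_def] at this
    exact this.mono_left hU
  refine le_of_tendsto ((hy' h).add h2) (Filter.Eventually.of_forall (fun n => ?_))
  exact hκ (φ n)

theorem local_claim (hX : Rfl X) {T : X → Set (X →L[ℝ] ℝ)} (hT : MaxMono T)
    {T0 : X → (X →L[ℝ] ℝ)} (hPM : PM T T0) (R C M2 : ℝ) (hT0 : ∀ x, ‖x‖ ≤ R → ‖T0 x‖ ≤ M2)
    (v' : X) (hno : -T0 v' ∉ T v') :
    ∃ x : X, ‖x - v'‖ ≤ 1 ∧ ∃ A : Finset (X →L[ℝ] ℝ), ∃ r : ℝ, 0 < r ∧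
      ∀ v, ∀ y ∈ T v, ‖v‖ ≤ R → ‖y‖ ≤ C → Nb A r v' v → 0 < (y + T0 v) (v - x) := by
  classical
  have hex : ∃ s, ∃ t ∈ T s, 0 < (T0 v' + t) (v' - s) := by
    by_contra hcon
    push Not at hcon
    refine hno (hT.maxi _ _ (fun s t hst => ?_))
    have := hcon s t hst
    simp only [add_apply, sub_apply, neg_apply] at this ⊢
    linarith
  obtain ⟨s, t, hst, hc⟩ := hex
  set c := (T0 v' + t) (v' - s) with hcdef
  set h := v' - s with hh
  have hmon' : ∀ y' ∈ T v', c ≤ (y' + T0 v') h := by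
    intro y' hy'
    have := hT.mono v' s y' hy' t hst
    rw [← hh] at this
    simp only [add_apply, sub_apply, hcdef] at this ⊢
    linarith
  have claim1 : ∀ η : ℝ, 0 < η → ∃ A : Finset (X →L[ℝ] ℝ), ∃ r : ℝ, 0 < r ∧
      ∀ v, ∀ y ∈ T v, ‖v‖ ≤ R → ‖y‖ ≤ C → Nb A r v' v → -η ≤ (y + T0 v) (v - v') := by
    intro η hη
    by_contra hcon
    push Not at hcon
    obtain ⟨v, hvS, hvw⟩ := extraction hX R v'
      (fun _ => {v | ‖v‖ ≤ R ∧ ∃ y ∈ T v, ‖y‖ ≤ C ∧ (y + T0 v) (v - v') < -η})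
      (fun n v hv => hv.1)
      (fun n A r hr => by
        obtain ⟨v, y, h1, h2, h3, h4, h5⟩ := hcon A r hr
        exact ⟨v, ⟨h2, y, h1, h3, h5⟩, h4⟩)
    choose hv1 y hy1 hy2 hy3 using hvS
    have := core hT hPM R C M2 v' v y hvw hy1 hv1 hy2 (fun n => hT0 _ (hv1 n)) (fun _ => -η) (-η)
      tendsto_const_nhds (by linarith) (fun n => (hy3 n).le)
    linarith [this.1]
  have claim2 : ∃ η : ℝ, 0 < η ∧ ∃ A : Finset (X →L[ℝ] ℝ), ∃ r : ℝ, 0 < r ∧
      ∀ v, ∀ y ∈ T v, ‖v‖ ≤ R → ‖y‖ ≤ C → Nb A r v' v → (y + T0 v) (v - v') ≤ η →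
        c / 2 ≤ (y + T0 v) h := by
    by_contra hcon
    push Not at hcon
    obtain ⟨v, hvS, hvw⟩ := extraction hX R v'
      (fun n => {v | ‖v‖ ≤ R ∧ ∃ y ∈ T v, ‖y‖ ≤ C ∧ (y + T0 v) (v - v') ≤ 1 / ((n : ℝ) + 1) ∧
        (y + T0 v) h < c / 2})
      (fun n v hv => hv.1)
      (fun n A r hr => by
        obtain ⟨v, y, h1, h2, h3, h4, h5, h6⟩ := hcon (1 / ((n : ℝ) + 1)) (by positivity) A r hr
        exact ⟨v, ⟨h2, y, h1, h3, h5, h6⟩, h4⟩)
    choose hv1 y hy1 hy2 hy3 hy4 using hvS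
    obtain ⟨_, y', hy', hlim⟩ := core hT hPM R C M2 v' v y hvw hy1 hv1 hy2
      (fun n => hT0 _ (hv1 n)) (fun n => 1 / ((n : ℝ) + 1)) 0
      tendsto_one_div_add_atTop_nhds_zero_nat le_rfl hy3
    have h1 := hlim h (c / 2) (fun n => (hy4 n).le)
    have h2 := hmon' y' hy'
    linarith
  obtain ⟨η, hη, A2, r2, hr2, hcl2⟩ := claim2
  -- size of the step
  set D := (|C| + |M2| + 1) * (‖h‖ + 1) with hD
  have hDpos : 0 < D := by positivity
  set κ := min 1 η / (2 * D) with hκ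
  have hκpos : 0 < κ := by positivity
  have hκD : κ * D ≤ η / 2 := by
    rw [hκ, div_mul_eq_mul_div, div_le_div_iff₀ (by positivity) (by norm_num)]
    have : min 1 η ≤ η := min_le_right _ _
    nlinarith
  have hκh : κ * ‖h‖ ≤ 1 := by
    have h1 : κ * D ≤ 1 / 2 := by
      rw [hκ, div_mul_eq_mul_div, div_le_div_iff₀ (by positivity) (by norm_num)]
      have : min 1 η ≤ 1 := min_le_left _ _
      nlinarith
    have h2 : ‖h‖ ≤ D := by
      rw [hD]
      nlinarith [abs_nonneg C, abs_nonneg M2, norm_nonneg h]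
    nlinarith
  obtain ⟨A1, r1, hr1, hcl1⟩ := claim1 (κ * (c / 4)) (by positivity)
  refine ⟨v' - κ • h, ?_, A1 ∪ A2, min r1 r2, lt_min hr1 hr2, ?_⟩
  · have : v' - κ • h - v' = -(κ • h) := by abel
    rw [this, norm_neg, norm_smul, Real.norm_of_nonneg hκpos.le]
    exact hκh
  intro v y hy hvR hyC hNb
  have hNb1 : Nb A1 r1 v' v := fun f hf =>
    (hNb f (Finset.mem_union_left _ hf)).trans_le (min_le_left _ _)
  have hNb2 : Nb A2 r2 v' v := fun f hf =>
    (hNb f (Finset.mem_union_right _ hf)).trans_le (min_le_right _ _)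
  have h1 := hcl1 v y hy hvR hyC hNb1
  have h2 := hcl2 v y hy hvR hyC hNb2
  have e1 : (y + T0 v) (v - (v' - κ • h)) = (y + T0 v) (v - v') + κ * (y + T0 v) h := by
    have : v - (v' - κ • h) = (v - v') + κ • h := by abel
    rw [this, map_add, map_smul, smul_eq_mul]
  rw [e1]
  by_cases hcase : (y + T0 v) (v - v') ≤ η
  · have h3 := mul_le_mul_of_nonneg_left (h2 hcase) hκpos.le
    have h4 : 0 < κ * (c / 4) := by positivity
    have h5 : κ * (c / 2) = 2 * (κ * (c / 4)) := by ring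
    linarith
  · push Not at hcase
    have h3 : |(y + T0 v) h| ≤ D := by
      have h4 := (y + T0 v).le_opNorm h
      rw [Real.norm_eq_abs] at h4
      have h5 : ‖y + T0 v‖ ≤ |C| + |M2| + 1 := by
        have h6 := norm_add_le y (T0 v)
        have h7 := hT0 v hvR
        have h8 := le_abs_self C
        have h9 := le_abs_self M2
        linarith
      refine h4.trans ?_
      rw [hD]
      exact mul_le_mul h5 (by linarith) (norm_nonneg _) (by positivity)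
    have h4 : -D ≤ (y + T0 v) h := (abs_le.1 h3).1
    have h5 := mul_le_mul_of_nonneg_left h4 hκpos.le
    linarith

end Pool.Agent.Helper932.MM
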