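import Pool.Agent.Helper932.MMLevel
import Pool.Agent.Helper932.MMLocal
import Pool.Agent.Helper932.Brouwer

set_option autoImplicit false
open Filter Topology Set

namespace Pool.Agent.Helper932.MM

variable {X : Type} [NormedAddCommGroup X] [NormedSpace ℝ X]

/-- the regulariser with finitely many functionals -/
noncomputable def Ph (M δ : ℝ) (A : Finset (X →L[ℝ] ℝ)) (w : X) : ℝ :=
  M * ‖w‖ + ‖w‖ ^ 2 + δ * ∑ f ∈ A, (f w) ^ 2

lemma sq_conv (s t a b : ℝ) (hs : 0 ≤ s) (ht : 0 ≤ t) (hst : s + t = 1) :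
    (s * a + t * b) ^ 2 ≤ s * a ^ 2 + t * b ^ 2 := by
  have ht' : t = 1 - s := by linarith
  subst ht'
  nlinarith [mul_nonneg (mul_nonneg hs ht) (sq_nonneg (a - b))]

lemma norm_conv (s t : ℝ) (hs : 0 ≤ s) (ht : 0 ≤ t) (x y : X) :
    ‖s • x + t • y‖ ≤ s * ‖x‖ + t * ‖y‖ := by
  refine (norm_add_le _ _).trans ?_
  rw [norm_smul, norm_smul, Real.norm_of_nonneg hs, Real.norm_of_nonneg ht]

lemma Ph_reg (M δ : ℝ) (hM : 0 ≤ M) (hδ : 0 ≤ δ) (A : Finset (X →L[ℝ] ℝ))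
    (hA : δ * ∑ f ∈ A, ‖f‖ ^ 2 ≤ 1) : Reg M (Ph M δ A) := by
  refine ⟨⟨convex_univ, fun x _ y _ s t hs ht hst => ?_⟩, fun w => ?_, fun w => ?_⟩
  · have h1 := norm_conv s t hs ht x y
    have h2 : ‖s • x + t • y‖ ^ 2 ≤ s * ‖x‖ ^ 2 + t * ‖y‖ ^ 2 :=
      (pow_le_pow_left₀ (norm_nonneg _) h1 2).trans (sq_conv s t _ _ hs ht hst)
    have h3 : ∑ f ∈ A, (f (s • x + t • y)) ^ 2 ≤ s * ∑ f ∈ A, (f x) ^ 2 + t * ∑ f ∈ A, (f y) ^ 2 := by
      rw [Finset.mul_sum, Finset.mul_sum, ← Finset.sum_add_distrib]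
      refine Finset.sum_le_sum (fun f _ => ?_)
      rw [map_add, map_smul, map_smul, smul_eq_mul, smul_eq_mul]
      exact sq_conv s t _ _ hs ht hst
    have h4 := mul_le_mul_of_nonneg_left h1 hM
    have h5 := mul_le_mul_of_nonneg_left h3 hδ
    simp only [Ph, smul_eq_mul]
    nlinarith
  · have : 0 ≤ δ * ∑ f ∈ A, (f w) ^ 2 := by positivity
    simp only [Ph]
    linarith
  · have h1 : ∑ f ∈ A, (f w) ^ 2 ≤ (∑ f ∈ A, ‖f‖ ^ 2) * ‖w‖ ^ 2 := by
      rw [Finset.sum_mul]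
      refine Finset.sum_le_sum (fun f _ => ?_)
      have h2 := f.le_opNorm w
      rw [← mul_pow, ← sq_abs, ← Real.norm_eq_abs]
      exact pow_le_pow_left₀ (norm_nonneg _) h2 2
    have h2 := mul_le_mul_of_nonneg_left h1 hδ
    have h3 : δ * ((∑ f ∈ A, ‖f‖ ^ 2) * ‖w‖ ^ 2) ≤ 1 * ‖w‖ ^ 2 := by
      rw [← mul_assoc]
      exact mul_le_mul_of_nonneg_right hA (by positivity)
    simp only [Ph]
    linarith

/-- gap inequality -/
lemma Ph_gap (M δ : ℝ) (hM : 0 ≤ M) (hδ : 0 ≤ δ) (A : Finset (X →L[ℝ] ℝ)) (w₁ w₂ : X)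
    (y₁ y₂ : X →L[ℝ] ℝ) (h₁ : Sub (Ph M δ A) w₁ y₁) (h₂ : Sub (Ph M δ A) w₂ y₂) :
    δ * ∑ f ∈ A, (f (w₁ - w₂)) ^ 2 ≤ (y₁ - y₂) (w₁ - w₂) := by
  have s1 := h₁ ((1 / 2 : ℝ) • w₁ + (1 / 2 : ℝ) • w₂)
  have s2 := h₂ ((1 / 2 : ℝ) • w₁ + (1 / 2 : ℝ) • w₂)
  have h1 := norm_conv (1 / 2) (1 / 2) (by norm_num) (by norm_num) w₁ w₂
  have h2 : ‖(1 / 2 : ℝ) • w₁ + (1 / 2 : ℝ) • w₂‖ ^ 2 ≤ 1 / 2 * ‖w₁‖ ^ 2 + 1 / 2 * ‖w₂‖ ^ 2 :=
    (pow_le_pow_left₀ (norm_nonneg _) h1 2).trans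
      (sq_conv _ _ _ _ (by norm_num) (by norm_num) (by norm_num))
  have h3 : ∑ f ∈ A, (f ((1 / 2 : ℝ) • w₁ + (1 / 2 : ℝ) • w₂)) ^ 2 =
      1 / 2 * ∑ f ∈ A, (f w₁) ^ 2 + 1 / 2 * ∑ f ∈ A, (f w₂) ^ 2 -
        1 / 4 * ∑ f ∈ A, (f (w₁ - w₂)) ^ 2 := by
    rw [Finset.mul_sum, Finset.mul_sum, Finset.mul_sum, ← Finset.sum_add_distrib,
      ← Finset.sum_sub_distrib]
    refine Finset.sum_congr rfl (fun f _ => ?_)
    rw [map_add, map_smul, map_smul, map_sub, smul_eq_mul, smul_eq_mul]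
    ring
  have h4 := mul_le_mul_of_nonneg_left h1 hM
  simp only [Ph] at s1 s2
  rw [h3] at s1 s2
  simp only [map_sub, map_add, map_smul, smul_eq_mul, sub_apply] at s1 s2 ⊢
  nlinarith

lemma exists_pt (hX : Rfl X) {T : X → Set (X →L[ℝ] ℝ)} (hT : MaxMono T)
    {M : ℝ} (hM : 0 ≤ M) {Φ : X → ℝ} (hΦ : Reg M Φ) (h : X) :
    ∃ v, ∃ y ∈ T v, Sub Φ (h - v) y := by
  obtain ⟨v, y, hy, hv⟩ := exists_point hX hT (fun x => Φ (h - x))
    (by
      refine ⟨convex_univ, fun x _ x' _ s t hs ht hst => ?_⟩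
      have e : h - (s • x + t • x') = s • (h - x) + t • (h - x') := by
        have : h = s • h + t • h := by rw [← add_smul, hst, one_smul]
        rw [smul_sub, smul_sub]
        nth_rewrite 1 [this]
        abel
      simp only [e]
      exact hΦ.conv.2 (mem_univ _) (mem_univ _) hs ht hst)
    (hΦ.cont.comp (continuous_const.sub continuous_id)) (1 / 2) (‖h‖ ^ 2) (by norm_num)
    (fun x => by
      have h1 := hΦ.lower (h - x)
      have h2 : ‖x‖ ≤ ‖h - x‖ + ‖h‖ := by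
        have := norm_sub_le h (h - x)
        rw [sub_sub_cancel] at this
        linarith
      have h3 : ‖x‖ ^ 2 ≤ (‖h - x‖ + ‖h‖) ^ 2 := pow_le_pow_left₀ (norm_nonneg _) h2 2
      have h4 : (‖h - x‖ + ‖h‖) ^ 2 ≤ 2 * ‖h - x‖ ^ 2 + 2 * ‖h‖ ^ 2 := by
        nlinarith [sq_nonneg (‖h - x‖ - ‖h‖)]
      have h5 : 0 ≤ M * ‖h - x‖ := by positivity
      linarith)
  refine ⟨v, y, hy, fun w => ?_⟩
  have h1 := hv (h - w)
  rw [sub_sub_cancel] at h1
  have e : h - w - v = -(w - (h - v)) := by abel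
  rw [e, map_neg] at h1
  linarith

/-- a priori bound -/
lemma w_bound {T : X → Set (X →L[ℝ] ℝ)} (hT : MaxMono T) {M : ℝ} {Φ : X → ℝ} (hΦ : Reg M Φ)
    {x₀ : X} {g₀ : X →L[ℝ] ℝ} (hg : g₀ ∈ T x₀) (hM : 3 * ‖g₀‖ + 2 ≤ M) {h v : X}
    {y : X →L[ℝ] ℝ} (hy : y ∈ T v) (hs : Sub Φ (h - v) y) :
    ‖h - v‖ ≤ 7 * ‖h - x₀‖ + 2 := by
  have hg0 := norm_nonneg g₀
  have hM0 : 0 ≤ M := by linarith
  have h1 := hs.self_ge hΦ
  have h2 := hs.norm_le hM0 hΦ
  have h3 := hT.mono v x₀ y hy g₀ hg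
  set V := ‖h - v‖ with hV
  set d := ‖h - x₀‖ with hd
  have hV0 : 0 ≤ V := norm_nonneg _
  have hd0 : 0 ≤ d := norm_nonneg _
  have e1 : v - x₀ = (h - x₀) - (h - v) := by abel
  rw [e1, map_sub] at h3
  have h4 : (y - g₀) (h - x₀) ≤ (M + 7 * V + 2 + ‖g₀‖) * d := by
    have a1 := (y - g₀).le_opNorm (h - x₀)
    have a2 : ‖y - g₀‖ ≤ M + 7 * V + 2 + ‖g₀‖ := (norm_sub_le _ _).trans (by linarith)
    have a3 := le_abs_self ((y - g₀) (h - x₀))
    rw [Real.norm_eq_abs] at a1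
    exact a3.trans (a1.trans (mul_le_mul_of_nonneg_right a2 hd0))
  have h5 : g₀ (h - v) ≤ ‖g₀‖ * V := by
    have a1 := g₀.le_opNorm (h - v)
    rw [Real.norm_eq_abs] at a1
    exact (le_abs_self _).trans a1
  rw [sub_apply y g₀ (h - v)] at h3
  by_contra hcon
  push Not at hcon
  have h6 : M * V + V ^ 2 ≤ (M + 7 * V + 2 + ‖g₀‖) * d + ‖g₀‖ * V := by linarith
  have h7 : 7 * d * V + 2 * V ≤ V ^ 2 := by nlinarith
  have h8 : (M - ‖g₀‖) * V ≤ (M + 2 + ‖g₀‖) * d := by nlinarith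
  have h9 : M + 2 + ‖g₀‖ ≤ 2 * (M - ‖g₀‖) := by linarith
  have h10 : (M + 2 + ‖g₀‖) * d ≤ 2 * (M - ‖g₀‖) * d := mul_le_mul_of_nonneg_right h9 hd0
  have h11 : (M - ‖g₀‖) * (V - 2 * d) ≤ 0 := by linarith
  have h12 : 0 < (M - ‖g₀‖) * (V - 2 * d) := by
    apply mul_pos
    · linarith
    · linarith
  linarith

theorem main0 (hX : Rfl X) {T : X → Set (X →L[ℝ] ℝ)} (hT : MaxMono T)
    {T0 : X → (X →L[ℝ] ℝ)} (hbd : ∀ R : ℝ, ∃ M : ℝ, ∀ x : X, ‖x‖ ≤ R → ‖T0 x‖ ≤ M)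
    (hPM : PM T T0)
    (hco : ∀ M : ℝ, ∃ R : ℝ, ∀ x : X, ∀ y ∈ T x, R ≤ ‖x‖ → M * ‖x‖ ≤ (y + T0 x) x) :
    ∃ x, -T0 x ∈ T x := by
  classical
  by_contra hno
  push Not at hno
  obtain ⟨x₀, g₀, hg₀⟩ := hT.nonempty
  obtain ⟨R₀, hR₀⟩ := hco 1
  set R₁ : ℝ := max R₀ 0 + 1 with hR₁
  have hR₁pos : 0 < R₁ := by positivity
  have hcoer : ∀ x : X, ∀ y ∈ T x, R₁ ≤ ‖x‖ → 0 < (y + T0 x) x := by
    intro x y hy hx
    have h1 := hR₀ x y hy (by
      have := le_max_left R₀ 0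
      linarith)
    linarith
  set ρ : ℝ := R₁ + 1 with hρ
  set W : ℝ := 7 * (ρ + ‖x₀‖) + 2 with hW
  set R' : ℝ := ρ + W with hR'
  have hρpos : 0 < ρ := by positivity
  have hWpos : 0 < W := by positivity
  obtain ⟨M2', hM2'⟩ := hbd R'
  set M2 : ℝ := max M2' 0 with hM2
  have hM2b : ∀ x : X, ‖x‖ ≤ R' → ‖T0 x‖ ≤ M2 := fun x hx => (hM2' x hx).trans (le_max_left _ _)
  have hM20 : 0 ≤ M2 := le_max_right _ _
  set M : ℝ := 3 * ‖g₀‖ + 2 + M2 with hM
  have hMg : 3 * ‖g₀‖ + 2 ≤ M := by linarith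
  have hM0 : 0 ≤ M := by positivity
  have hMM2 : M2 ≤ M := by
    have := norm_nonneg g₀
    linarith
  set C : ℝ := M + 7 * W + 2 with hC
  -- local data
  have hloc : ∀ c : X, ∃ x : X, ∃ A : Finset (X →L[ℝ] ℝ), ∃ r : ℝ, 0 < r ∧ ‖x‖ ≤ ρ ∧
      ∀ v, ∀ y ∈ T v, ‖v‖ ≤ R' → ‖y‖ ≤ C → Nb A r c v → 0 < (y + T0 v) (v - x) := by
    intro c
    by_cases hc : ‖c‖ ≤ R₁
    · obtain ⟨x, hx, A, r, hr, hA⟩ := local_claim hX hT hPM R' C M2 hM2b c (hno c)
      refine ⟨x, A, r, hr, ?_, hA⟩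
      have := norm_add_le (x - c) c
      rw [sub_add_cancel] at this
      linarith
    · push Not at hc
      obtain ⟨f, hf1, hf2⟩ := exists_dual_vector'' ℝ c
      refine ⟨0, {f}, ‖c‖ - R₁, by linarith, by rw [norm_zero]; exact hρpos.le, ?_⟩
      intro v y hy _ _ hNb
      rw [sub_zero]
      refine hcoer v y hy ?_
      have h1 := hNb f (Finset.mem_singleton_self f)
      rw [map_sub] at h1
      have h2 : f c = ‖c‖ := hf2
      rw [h2] at h1
      have h3 := (abs_lt.1 h1).1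
      have h4 := f.le_opNorm v
      rw [Real.norm_eq_abs] at h4
      have h5 := le_abs_self (f v)
      have h6 : ‖f‖ * ‖v‖ ≤ 1 * ‖v‖ := mul_le_mul_of_nonneg_right hf1 (norm_nonneg _)
      linarith
  choose xh A r hr hxh hA using hloc
  obtain ⟨I, _, hI⟩ := finite_cover hX R' A r hr
  let AA : Finset (X →L[ℝ] ℝ) := I.biUnion A
  set δ : ℝ := (1 + ∑ f ∈ AA, ‖f‖ ^ 2)⁻¹ with hδ
  have hsum0 : 0 ≤ ∑ f ∈ AA, ‖f‖ ^ 2 := by positivity
  have hδpos : 0 < δ := by positivity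
  have hδ1 : δ * ∑ f ∈ AA, ‖f‖ ^ 2 ≤ 1 := by
    rw [hδ, inv_mul_le_iff₀ (by positivity)]
    linarith
  have hreg := Ph_reg M δ hM0 hδpos.le AA hδ1
  choose vv yy hyT hySub using fun h : X => exists_pt hX hT hM0 hreg h
  have hwb : ∀ h, ‖h - vv h‖ ≤ 7 * ‖h - x₀‖ + 2 := fun h =>
    w_bound hT hreg hg₀ hMg (hyT h) (hySub h)
  have hyb : ∀ h, ‖yy h‖ ≤ M + 7 * ‖h - vv h‖ + 2 := fun h => (hySub h).norm_le hM0 hreg
  -- continuity of functionals
  have hcontf : ∀ f ∈ AA, Continuous fun h => f (vv h) := by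
    intro f hf
    rw [continuous_iff_continuousAt]
    intro h₁
    have hw : Tendsto (fun h => f (h - vv h)) (𝓝 h₁) (𝓝 (f (h₁ - vv h₁))) := by
      set CC : ℝ := 2 * (M + 7 * (7 * (‖h₁ - x₀‖ + 1) + 2) + 2) with hCC
      have hCC0 : 0 ≤ CC := by positivity
      have key : ∀ᶠ h in 𝓝 h₁, |f (h - vv h) - f (h₁ - vv h₁)| ^ 2 ≤ δ⁻¹ * (CC * ‖h - h₁‖) := by
        filter_upwards [Metric.ball_mem_nhds h₁ one_pos] with h hh
        rw [mem_ball_iff_norm] at hh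
        have b1 : ‖yy h‖ ≤ CC / 2 := by
          have a1 := hyb h
          have a2 := hwb h
          have a3 : ‖h - x₀‖ ≤ ‖h - h₁‖ + ‖h₁ - x₀‖ := norm_sub_le_norm_sub_add_norm_sub _ _ _
          rw [hCC]; linarith
        have b2 : ‖yy h₁‖ ≤ CC / 2 := by
          have a1 := hyb h₁
          have a2 := hwb h₁
          rw [hCC]; linarith
        have g1 := Ph_gap M δ hM0 hδpos.le AA _ _ _ _ (hySub h) (hySub h₁)
        have g2 := hT.mono (vv h) (vv h₁) _ (hyT h) _ (hyT h₁)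
        have g3 : (yy h - yy h₁) (h - h₁) ≤ CC * ‖h - h₁‖ := by
          have a1 := (yy h - yy h₁).le_opNorm (h - h₁)
          rw [Real.norm_eq_abs] at a1
          have a2 : ‖yy h - yy h₁‖ ≤ CC := (norm_sub_le _ _).trans (by linarith)
          exact (le_abs_self _).trans (a1.trans (mul_le_mul_of_nonneg_right a2 (norm_nonneg _)))
        have g4 : (yy h - yy h₁) (h - h₁) = (yy h - yy h₁) (vv h - vv h₁) +
            (yy h - yy h₁) ((h - vv h) - (h₁ - vv h₁)) := by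
          rw [← map_add]
          congr 1
          abel
        have g5 : (f ((h - vv h) - (h₁ - vv h₁))) ^ 2 ≤
            ∑ f ∈ AA, (f ((h - vv h) - (h₁ - vv h₁))) ^ 2 :=
          Finset.single_le_sum (f := fun f : X →L[ℝ] ℝ => (f ((h - vv h) - (h₁ - vv h₁))) ^ 2)
            (fun _ _ => by positivity) hf
        have g6 := mul_le_mul_of_nonneg_left g5 hδpos.le
        rw [sq_abs, ← map_sub, ← div_eq_inv_mul, le_div_iff₀ hδpos]
        linarith
      have hlim : Tendsto (fun h => δ⁻¹ * (CC * ‖h - h₁‖)) (𝓝 h₁) (𝓝 0) := by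
        have : Continuous fun h : X => δ⁻¹ * (CC * ‖h - h₁‖) := by fun_prop
        have h1 := this.tendsto h₁
        simpa using h1
      have h2 : Tendsto (fun h => |f (h - vv h) - f (h₁ - vv h₁)| ^ 2) (𝓝 h₁) (𝓝 0) :=
        tendsto_of_tendsto_of_tendsto_of_le_of_le' tendsto_const_nhds hlim
          (Filter.Eventually.of_forall fun _ => by positivity) key
      have h3 : Tendsto (fun h => |f (h - vv h) - f (h₁ - vv h₁)|) (𝓝 h₁) (𝓝 0) := by
        have h4 := (Real.continuous_sqrt.tendsto 0).comp h2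
        rw [Real.sqrt_zero] at h4
        refine h4.congr (fun h => ?_)
        simp only [Function.comp_apply]
        exact Real.sqrt_sq (abs_nonneg _)
      rw [tendsto_iff_dist_tendsto_zero]
      simpa only [Real.dist_eq] using h3
    have h1 : Tendsto (fun h => f h - f (h - vv h)) (𝓝 h₁) (𝓝 (f h₁ - f (h₁ - vv h₁))) :=
      (f.continuous.tendsto h₁).sub hw
    have h2 : (fun h => f h - f (h - vv h)) = fun h => f (vv h) := by
      funext h
      rw [map_sub]; ring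
    rw [h2] at h1
    have h3 : f h₁ - f (h₁ - vv h₁) = f (vv h₁) := by rw [map_sub]; ring
    rw [h3] at h1
    exact h1
  -- weights
  let θ : X → X → ℝ := fun c v => ∏ f ∈ A c, max 0 (r c - |f (v - c)|)
  have hθ0 : ∀ c v, 0 ≤ θ c v := fun c v => Finset.prod_nonneg (fun f _ => le_max_left _ _)
  have hθNb : ∀ c v, 0 < θ c v → Nb (A c) (r c) c v := by
    intro c v hpos f hf
    by_contra hcon
    push Not at hcon
    have : θ c v = 0 := Finset.prod_eq_zero hf (max_eq_left (by linarith))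
    linarith
  have hNbθ : ∀ c v, Nb (A c) (r c) c v → 0 < θ c v := by
    intro c v hN
    refine Finset.prod_pos (fun f hf => ?_)
    have := hN f hf
    exact lt_max_of_lt_right (by linarith)
  have hθc : ∀ c ∈ I, Continuous fun h => θ c (vv h) := by
    intro c hc
    refine continuous_finset_prod _ (fun f hf => ?_)
    have h1 := hcontf f (Finset.mem_biUnion.2 ⟨c, hc, hf⟩)
    have h2 : Continuous fun h => f (vv h - c) := by
      simp only [map_sub]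
      exact h1.sub continuous_const
    exact continuous_const.max (continuous_const.sub h2.abs)
  let Θ : X → ℝ := fun v => ∑ c ∈ I, θ c v
  have hΘ0 : ∀ v, 0 ≤ Θ v := fun v => Finset.sum_nonneg (fun c _ => hθ0 c v)
  have hΘc : Continuous fun h => Θ (vv h) := continuous_finset_sum _ (fun c hc => hθc c hc)
  have hvR : ∀ h, ‖h‖ ≤ ρ → ‖h - vv h‖ ≤ W ∧ ‖vv h‖ ≤ R' ∧ ‖yy h‖ ≤ C := by
    intro h hh
    have h1 := hwb h
    have h2 : ‖h - x₀‖ ≤ ρ + ‖x₀‖ := (norm_sub_le _ _).trans (by linarith)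
    have h3 : ‖h - vv h‖ ≤ W := by rw [hW]; linarith
    have h4 := hyb h
    refine ⟨h3, ?_, by rw [hC]; linarith⟩
    have h5 := norm_sub_le h (h - vv h)
    rw [sub_sub_cancel] at h5
    rw [hR']; linarith
  have hΘpos : ∀ h, ‖h‖ ≤ ρ → 0 < Θ (vv h) := by
    intro h hh
    obtain ⟨c, hc, hN⟩ := hI (vv h) (hvR h hh).2.1
    exact Finset.sum_pos' (fun c _ => hθ0 c _) ⟨c, hc, hNbθ c _ hN⟩
  let Dn : X → ℝ := fun h => max (Θ (vv h)) (‖h‖ - ρ)
  have hDpos : ∀ h, 0 < Dn h := by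
    intro h
    rcases le_or_gt ‖h‖ ρ with hh | hh
    · exact lt_max_of_lt_left (hΘpos h hh)
    · exact lt_max_of_lt_right (by linarith)
  have hDc : Continuous Dn := hΘc.max (continuous_norm.sub continuous_const)
  -- the map on weights
  let hh : ({c // c ∈ I} → ℝ) → X := fun l => ∑ c, l c • xh c.1
  have hhc : Continuous hh := by
    refine continuous_finset_sum _ (fun c _ => ?_)
    exact (continuous_apply c).smul continuous_const
  let m : ({c // c ∈ I} → ℝ) → ({c // c ∈ I} → ℝ) := fun l c => θ c.1 (vv (hh l)) / Dn (hh l)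
  have hmc : Continuous m := by
    refine continuous_pi (fun c => ?_)
    exact ((hθc c.1 c.2).comp hhc).div (hDc.comp hhc) (fun l => (hDpos _).ne')
  have hθle : ∀ c ∈ I, ∀ v, θ c v ≤ Θ v := fun c hc v =>
    Finset.single_le_sum (f := fun c => θ c v) (fun c _ => hθ0 c v) hc
  have hm1 : ∀ l, ‖m l‖ ≤ 1 := by
    intro l
    rw [pi_norm_le_iff_of_nonneg zero_le_one]
    intro c
    rw [Real.norm_of_nonneg (div_nonneg (hθ0 _ _) (hDpos _).le), div_le_one (hDpos _)]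
    exact (hθle c.1 c.2 _).trans (le_max_left _ _)
  obtain ⟨l, hl⟩ := Pool.Agent.Helper932.Brouwer.brouwer m hmc 1 hm1
  set h := hh l with hhdef
  have hlc : ∀ c : {c // c ∈ I}, l c = θ c.1 (vv h) / Dn h := by
    intro c
    have := congrFun hl c
    rw [← this]
  have hsumθ : ∑ c : {c // c ∈ I}, θ c.1 (vv h) = Θ (vv h) :=
    Finset.sum_coe_sort I (fun c => θ c (vv h))
  have hlsum : ∑ c, l c = Θ (vv h) / Dn h := by
    simp only [hlc]
    rw [← Finset.sum_div, hsumθ]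
  have hl0 : ∀ c, 0 ≤ l c := by
    intro c
    rw [hlc]
    exact div_nonneg (hθ0 _ _) (hDpos _).le
  have hhρ : ‖h‖ ≤ ρ := by
    have h1 : ‖h‖ ≤ ∑ c, l c * ρ := by
      rw [hhdef]
      refine (norm_sum_le _ _).trans (Finset.sum_le_sum (fun c _ => ?_))
      rw [norm_smul, Real.norm_of_nonneg (hl0 c)]
      exact mul_le_mul_of_nonneg_left (hxh _) (hl0 c)
    rw [← Finset.sum_mul, hlsum] at h1
    have h2 : Θ (vv h) / Dn h ≤ 1 := by
      rw [div_le_one (hDpos _)]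
      exact le_max_left _ _
    have h3 := mul_le_mul_of_nonneg_right h2 hρpos.le
    linarith
  have hDΘ : Dn h = Θ (vv h) := max_eq_left (by
    have := hΘ0 (vv h)
    linarith)
  have hsum1 : ∑ c, l c = 1 := by
    rw [hlsum, hDΘ]
    exact div_self (hΘpos h hhρ).ne'
  obtain ⟨hwW, hvR', hyC⟩ := hvR h hhρ
  -- positivity
  have hpos : 0 < (yy h + T0 (vv h)) (vv h - h) := by
    have e1 : vv h - h = ∑ c, l c • (vv h - xh c.1) := by
      have e2 : ∑ c, l c • (vv h - xh c.1) = (∑ c, l c) • vv h - ∑ c, l c • xh c.1 := by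
        rw [Finset.sum_smul, ← Finset.sum_sub_distrib]
        exact Finset.sum_congr rfl (fun c _ => smul_sub _ _ _)
      rw [e2, hsum1, one_smul]
    rw [e1, map_sum]
    simp only [map_smul, smul_eq_mul]
    have hterm : ∀ c : {c // c ∈ I}, 0 < l c → 0 < (yy h + T0 (vv h)) (vv h - xh c.1) := by
      intro c hc
      rw [hlc] at hc
      have h1 : 0 < θ c.1 (vv h) := by
        by_contra hcon
        push Not at hcon
        have : θ c.1 (vv h) / Dn h ≤ 0 := div_nonpos_of_nonpos_of_nonneg hcon (hDpos _).le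
        linarith
      exact hA c.1 (vv h) (yy h) (hyT h) hvR' hyC (hθNb _ _ h1)
    have hex : ∃ c, 0 < l c := by
      by_contra hcon
      push Not at hcon
      have : ∑ c, l c ≤ 0 := Finset.sum_nonpos (fun c _ => hcon c)
      linarith
    obtain ⟨c₀, hc₀⟩ := hex
    refine Finset.sum_pos' (fun c _ => ?_) ⟨c₀, Finset.mem_univ _, mul_pos hc₀ (hterm c₀ hc₀)⟩
    rcases eq_or_lt_of_le (hl0 c) with h1 | h1
    · rw [← h1, zero_mul]
    · exact (mul_pos h1 (hterm c h1)).le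
  have hneg : (yy h + T0 (vv h)) (vv h - h) ≤ 0 := by
    have e1 : vv h - h = -(h - vv h) := by abel
    rw [e1, map_neg, add_apply]
    have h1 := (hySub h).self_ge hreg
    have h2 : -(M2 * ‖h - vv h‖) ≤ T0 (vv h) (h - vv h) := by
      have a1 := (T0 (vv h)).le_opNorm (h - vv h)
      rw [Real.norm_eq_abs] at a1
      have a2 := mul_le_mul_of_nonneg_right (hM2b _ hvR') (norm_nonneg (h - vv h))
      have a3 := neg_abs_le (T0 (vv h) (h - vv h))
      linarith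
    have h3 := mul_le_mul_of_nonneg_right hMM2 (norm_nonneg (h - vv h))
    have h4 : 0 ≤ ‖h - vv h‖ ^ 2 := by positivity
    linarith
  linarith

end Pool.Agent.Helper932.MM
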