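import Pool.Agent.Helper932.MMDual

set_option autoImplicit false
open Filter Topology Set

namespace Pool.Agent.Helper932.MM

variable {X : Type} [NormedAddCommGroup X] [NormedSpace ℝ X]

lemma real_ulim {ι : Type} (U : Ultrafilter ι) (a : ι → ℝ) (C : ℝ) (h : ∀ i, |a i| ≤ C) :
    ∃ l, |l| ≤ C ∧ Tendsto a U (𝓝 l) := by
  have hc : IsCompact (Set.Icc (-C) C) := isCompact_Icc
  obtain ⟨l, hl, hl2⟩ := hc.ultrafilter_le_nhds (U.map a) (by
    rw [Filter.le_principal_iff]
    exact Filter.mem_map.2 (Filter.univ_mem' (fun i => abs_le.1 (h i))))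
  exact ⟨l, abs_le.2 hl, hl2⟩

lemma ulim_dual {V : Type} [NormedAddCommGroup V] [NormedSpace ℝ V] {ι : Type} (U : Ultrafilter ι)
    (y : ι → (V →L[ℝ] ℝ)) (C : ℝ) (h : ∀ i, ‖y i‖ ≤ C) :
    ∃ y' : V →L[ℝ] ℝ, ‖y'‖ ≤ C ∧ ∀ x, Tendsto (fun i => y i x) U (𝓝 (y' x)) := by
  have hb : ∀ x, ∀ i, |y i x| ≤ C * ‖x‖ := by
    intro x i
    have h1 := (y i).le_opNorm x
    rw [Real.norm_eq_abs] at h1
    exact h1.trans (mul_le_mul_of_nonneg_right (h i) (norm_nonneg _))
  choose L hLb hL using fun x => real_ulim U (fun i => y i x) (C * ‖x‖) (hb x)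
  have hne : (U : Filter ι).NeBot := U.neBot'
  have hC : 0 ≤ C := by
    obtain ⟨i⟩ : Nonempty ι := by
      by_contra hcon
      rw [not_nonempty_iff] at hcon
      exact hne.ne (Filter.filter_eq_bot_of_isEmpty _)
    exact (norm_nonneg _).trans (h i)
  let Λ : V →ₗ[ℝ] ℝ :=
    { toFun := L
      map_add' := by
        intro a b
        refine tendsto_nhds_unique (hL (a + b)) ?_
        have := (hL a).add (hL b)
        simpa only [map_add] using this
      map_smul' := by
        intro c a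
        refine tendsto_nhds_unique (hL (c • a)) ?_
        have := (hL a).const_mul c
        simpa only [map_smul, smul_eq_mul, RingHom.id_apply] using this }
  refine ⟨Λ.mkContinuous C (fun x => hLb x), Λ.mkContinuous_norm_le hC _, fun x => hL x⟩

lemma ulim (hX : Rfl X) {ι : Type} (U : Ultrafilter ι) (u : ι → X) (R : ℝ) (h : ∀ i, ‖u i‖ ≤ R) :
    ∃ x : X, ‖x‖ ≤ R ∧ ∀ f : X →L[ℝ] ℝ, Tendsto (fun i => f (u i)) U (𝓝 (f x)) := by
  obtain ⟨φ, hφ, hlim⟩ := ulim_dual (V := X →L[ℝ] ℝ) U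
    (fun i => NormedSpace.inclusionInDoubleDual ℝ X (u i)) R
    (fun i => (NormedSpace.double_dual_bound ℝ X (u i)).trans (h i))
  obtain ⟨x, hx⟩ := hX φ
  refine ⟨x, ?_, fun f => ?_⟩
  · obtain ⟨g, hg1, hg2⟩ := exists_dual_vector'' ℝ x
    have h1 : ‖x‖ = φ g := by rw [hx g, hg2]; rfl
    rw [h1]
    have h2 := φ.le_opNorm g
    have h3 : φ g ≤ ‖φ g‖ := le_abs_self _
    have h4 : ‖φ‖ * ‖g‖ ≤ R * 1 :=
      mul_le_mul hφ hg1 (norm_nonneg _) ((norm_nonneg _).trans hφ)
    linarith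
  · have := hlim f
    rw [hx f] at this
    simpa only [NormedSpace.dual_def] using this

/-- basic weak neighbourhoods -/
def Nb (A : Finset (X →L[ℝ] ℝ)) (r : ℝ) (c v : X) : Prop := ∀ f ∈ A, |f (v - c)| < r

/-- weak compactness of balls, finite subcover form -/
lemma finite_cover (hX : Rfl X) (R : ℝ) (A : X → Finset (X →L[ℝ] ℝ)) (r : X → ℝ)
    (hr : ∀ c, 0 < r c) :
    ∃ I : Finset X, (∀ c ∈ I, ‖c‖ ≤ R) ∧ ∀ v, ‖v‖ ≤ R → ∃ c ∈ I, Nb (A c) (r c) c v := by
  classical
  by_contra hcon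
  push Not at hcon
  let B := {v : X // ‖v‖ ≤ R}
  obtain ⟨v0, hv0, _⟩ := hcon ∅ (by simp)
  have hBne : Nonempty B := ⟨⟨v0, hv0⟩⟩
  let S : Set (Set B) := {s | ∃ c : B, s = {v : B | ¬ Nb (A c.1) (r c.1) c.1 v.1}}
  obtain ⟨U, hU⟩ := Ultrafilter.exists_ultrafilter_of_finite_inter_nonempty S (by
    intro T hT
    choose! g hg using fun (s : Set B) (hs : s ∈ S) => hs
    obtain ⟨v, hv, hv2⟩ := hcon (T.image (fun s => (g s).1)) (by
      intro c hc
      rw [Finset.mem_image] at hc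
      obtain ⟨s, _, rfl⟩ := hc
      exact (g s).2)
    refine ⟨⟨v, hv⟩, ?_⟩
    rw [Set.mem_sInter]
    intro s hs
    rw [hg s (hT hs)]
    exact hv2 _ (Finset.mem_image_of_mem (fun s => (g s).1) (Finset.mem_coe.1 hs)))
  obtain ⟨x, hx, hlim⟩ := ulim hX U (fun v : B => v.1) R (fun v => v.2)
  have h1 : {v : B | ¬ Nb (A x) (r x) x v.1} ∈ U := hU ⟨⟨x, hx⟩, rfl⟩
  have h2 : {v : B | Nb (A x) (r x) x v.1} ∈ (U : Filter B) := by
    have : ∀ᶠ v in (U : Filter B), ∀ f ∈ A x, |f (v.1 - x)| < r x := by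
      rw [Filter.eventually_all_finset]
      intro f _
      have h3 : Tendsto (fun v : B => |f (v.1 - x)|) U (𝓝 |f x - f x|) := by
        have := ((hlim f).sub_const (f x)).abs
        simpa only [map_sub] using this
      rw [sub_self, abs_zero] at h3
      exact h3.eventually (gt_mem_nhds (hr x))
    exact this
  have h3 := Filter.inter_mem h2 h1
  have h4 : ({v : B | Nb (A x) (r x) x v.1} ∩ {v : B | ¬ Nb (A x) (r x) x v.1}) = ∅ := by
    ext v; simp
  rw [h4] at h3
  exact U.neBot'.ne (Filter.empty_mem_iff_bot.1 h3)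

/-- closed subspaces are weakly closed -/
lemma mem_of_ulim {ι : Type} (U : Ultrafilter ι) (Y : Submodule ℝ X) (hY : IsClosed (Y : Set X))
    (u : ι → X) (hu : ∀ i, u i ∈ Y) (x : X)
    (hx : ∀ f : X →L[ℝ] ℝ, Tendsto (fun i => f (u i)) U (𝓝 (f x))) : x ∈ Y := by
  by_contra hxY
  obtain ⟨f, c, h1, h2⟩ := geometric_hahn_banach_closed_point (s := (Y : Set X)) Y.convex hY hxY
  have hne : (U : Filter ι).NeBot := U.neBot'
  have h3 : f x ≤ c := le_of_tendsto (hx f) (Filter.Eventually.of_forall fun i => (h1 _ (hu i)).le)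
  linarith

/-- extraction of weakly convergent sequences -/
lemma extraction (hX : Rfl X) (R : ℝ) (x₀ : X) (S : ℕ → Set X) (hSb : ∀ n, ∀ v ∈ S n, ‖v‖ ≤ R)
    (hS : ∀ n, ∀ A : Finset (X →L[ℝ] ℝ), ∀ r : ℝ, 0 < r → ∃ v ∈ S n, Nb A r x₀ v) :
    ∃ v : ℕ → X, (∀ n, v n ∈ S n) ∧
      ∀ f : X →L[ℝ] ℝ, Tendsto (fun n => f (v n)) atTop (𝓝 (f x₀)) := by
  classical
  -- norming functionals
  let sp : List X → Submodule ℝ X := fun l => Submodule.span ℝ {x | x ∈ l}
  have hfd : ∀ l, FiniteDimensional ℝ (sp l) := fun l =>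
    FiniteDimensional.span_of_finite ℝ (List.finite_toSet l)
  have hdense : ∀ l, ∃ d : ℕ → sp l, DenseRange d := by
    intro l
    have := hfd l
    have : ProperSpace (sp l) := FiniteDimensional.proper_real _
    exact ⟨TopologicalSpace.denseSeq (sp l), TopologicalSpace.denseRange_denseSeq _⟩
  choose d hd using hdense
  have hnf : ∀ l : List X, ∀ m : ℕ, ∃ g : X →L[ℝ] ℝ, ‖g‖ ≤ 1 ∧ g (d l m : X) = ‖(d l m : X)‖ := by
    intro l m
    obtain ⟨g, h1, h2⟩ := exists_dual_vector'' ℝ (d l m : X)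
    exact ⟨g, h1, h2⟩
  choose G hG1 hG2 using hnf
  have hnxt : ∀ l : List X, ∃ v ∈ S l.length, ∀ i ≤ l.length, ∀ m ≤ l.length,
      |G (l.take i) m (v - x₀)| < 1 / (l.length + 1) := by
    intro l
    obtain ⟨v, hv, hN⟩ := hS l.length
      ((Finset.range (l.length + 1) ×ˢ Finset.range (l.length + 1)).image
        (fun p => G (l.take p.1) p.2)) (1 / (l.length + 1)) (by positivity)
    refine ⟨v, hv, fun i hi m hm => hN _ ?_⟩
    exact Finset.mem_image.2 ⟨(i, m), Finset.mem_product.2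
      ⟨Finset.mem_range.2 (by simp; omega), Finset.mem_range.2 (by simp; omega)⟩, rfl⟩
  choose nxt hnS hnG using hnxt
  let L : ℕ → List X := fun n => Nat.rec [] (fun _ l => l ++ [nxt l - x₀]) n
  have hL0 : L 0 = [] := rfl
  have hLs : ∀ n, L (n + 1) = L n ++ [nxt (L n) - x₀] := fun n => rfl
  have hLlen : ∀ n, (L n).length = n := by
    intro n
    induction n with
    | zero => rfl
    | succ n ih => rw [hLs, List.length_append, ih]; rfl
  have hLtake : ∀ n i, i ≤ n → (L n).take i = L i := by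
    intro n
    induction n with
    | zero => intro i hi; have : i = 0 := by omega
              subst this; rfl
    | succ n ih =>
      intro i hi
      rcases Nat.lt_or_ge n i with h | h
      · have : i = n + 1 := by omega
        subst this
        exact List.take_of_length_le (hLlen (n + 1)).le
      · rw [hLs, List.take_append_of_le_length (by rw [hLlen]; exact h), ih i h]
  let v : ℕ → X := fun n => nxt (L n)
  let z : ℕ → X := fun n => v n - x₀
  have hvS : ∀ n, v n ∈ S n := by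
    intro n
    have := hnS (L n)
    rwa [hLlen] at this
  have hGz : ∀ i m n, i ≤ n → m ≤ n → |G (L i) m (z n)| < 1 / (n + 1) := by
    intro i m n hi hm
    have := hnG (L n) i (by rw [hLlen]; exact hi) m (by rw [hLlen]; exact hm)
    rw [hLlen, hLtake n i hi] at this
    exact this
  have hGz0 : ∀ i m, Tendsto (fun n => G (L i) m (z n)) atTop (𝓝 0) := by
    intro i m
    refine squeeze_zero_norm' (a := fun n : ℕ => 1 / ((n : ℝ) + 1)) ?_
      tendsto_one_div_add_atTop_nhds_zero_nat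
    filter_upwards [eventually_ge_atTop (max i m)] with n hn
    exact (hGz i m n (le_trans (le_max_left _ _) hn) (le_trans (le_max_right _ _) hn)).le
  have hzmem : ∀ n, z n ∈ sp (L (n + 1)) := by
    intro n
    refine Submodule.subset_span ?_
    show z n ∈ L (n + 1)
    rw [hLs]
    exact List.mem_append_right _ (List.mem_singleton.2 rfl)
  have hspmono : ∀ m n, m ≤ n → sp (L m) ≤ sp (L n) := by
    intro m n hmn
    refine Submodule.span_mono ?_
    intro x hx
    have : x ∈ (L n).take m := by rw [hLtake n m hmn]; exact hx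
    exact List.mem_of_mem_take this
  have hunion : ∀ x ∈ Submodule.span ℝ (Set.range z), ∃ k, x ∈ sp (L k) := by
    intro x hx
    induction hx using Submodule.span_induction with
    | mem x hx => obtain ⟨n, rfl⟩ := hx; exact ⟨n + 1, hzmem n⟩
    | zero => exact ⟨0, Submodule.zero_mem _⟩
    | add a b _ _ ha hb =>
      obtain ⟨k, hk⟩ := ha
      obtain ⟨l, hl⟩ := hb
      exact ⟨max k l, Submodule.add_mem _ (hspmono _ _ (le_max_left _ _) hk)
        (hspmono _ _ (le_max_right _ _) hl)⟩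
    | smul c a _ ha =>
      obtain ⟨k, hk⟩ := ha
      exact ⟨k, Submodule.smul_mem _ _ hk⟩
  refine ⟨v, hvS, fun f => ?_⟩
  rw [tendsto_iff_ultrafilter]
  intro U hU
  have hzb : ∀ n, ‖z n‖ ≤ R + ‖x₀‖ := fun n =>
    (norm_sub_le _ _).trans (add_le_add (hSb n _ (hvS n)) le_rfl)
  obtain ⟨z', _, hz'⟩ := ulim hX U z (R + ‖x₀‖) hzb
  have hz'Y : z' ∈ (Submodule.span ℝ (Set.range z)).topologicalClosure := by
    refine mem_of_ulim U _ (Submodule.isClosed_topologicalClosure _) z (fun i => ?_) z' hz'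
    exact Submodule.le_topologicalClosure _ (Submodule.subset_span ⟨i, rfl⟩)
  have hG0 : ∀ i m, G (L i) m z' = 0 := fun i m =>
    tendsto_nhds_unique (hz' (G (L i) m)) ((hGz0 i m).mono_left hU)
  have hz0 : z' = 0 := by
    by_contra hne
    have hpos : 0 < ‖z'‖ := norm_pos_iff.2 hne
    have h1 : z' ∈ closure (Submodule.span ℝ (Set.range z) : Set X) := hz'Y
    obtain ⟨x, hx, hxd⟩ := Metric.mem_closure_iff.1 h1 (‖z'‖ / 6) (by positivity)
    obtain ⟨k, hk⟩ := hunion x hx
    obtain ⟨m, hm⟩ := (hd (L k)).exists_dist_lt ⟨x, hk⟩ (by positivity : 0 < ‖z'‖ / 6)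
    have h2 : dist x (d (L k) m : X) < ‖z'‖ / 6 := hm
    have h3 : ‖z' - (d (L k) m : X)‖ < ‖z'‖ / 3 := by
      rw [← dist_eq_norm]
      have := dist_triangle z' x (d (L k) m : X)
      linarith
    have h4 := hG2 (L k) m
    have h5 := (G (L k) m).le_opNorm (z' - (d (L k) m : X))
    rw [map_sub, hG0, zero_sub, h4, norm_neg, norm_norm] at h5
    have h6 : ‖G (L k) m‖ * ‖z' - (d (L k) m : X)‖ ≤ 1 * ‖z' - (d (L k) m : X)‖ :=
      mul_le_mul_of_nonneg_right (hG1 _ _) (norm_nonneg _)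
    have h7 : ‖z'‖ ≤ ‖z' - (d (L k) m : X)‖ + ‖(d (L k) m : X)‖ := by
      have := norm_add_le (z' - (d (L k) m : X)) (d (L k) m : X)
      rwa [sub_add_cancel] at this
    linarith
  have h1 := hz' f
  rw [hz0, map_zero] at h1
  have h2 : Tendsto (fun n => f (z n) + f x₀) U (𝓝 (0 + f x₀)) := h1.add_const _
  rw [zero_add] at h2
  have h3 : (fun n => f (z n) + f x₀) = fun n => f (v n) := by
    funext n
    simp [z]
  rwa [h3] at h2

end Pool.Agent.Helper932.MM
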